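import Pool.Agent.Lib.JO.Dsj

/-!
# Recursion with finitely many earlier terms; a stage with prescribed blocks

PROOFS.
`exists_stg`: `J w := if h : ∃ j, y j w ≠ 0 then h.choose else 0`, `f := mk (fun w => y (J w) w) 1 _`. `t.y j w = y j w`: if `J w = j` clear (`y_apply_pos`).
 If `J w ≠ j`: `t.y j w = 0`; if `y j w ≠ 0`, then `y (J w) w ≠ 0` (choose_spec) and `j ≠ J w` contradict `hd`.
`exists_seq_fin`: a sequence with prescribed relations to the earlier terms: from `∀ l : List α, (∀ a ∈ l, p a) → ∃ a, p a ∧ r l a`; define by recursion the list of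
 the first n terms (subtype of lists with all elements in p). `l` is the list of the first n terms in some order: statement below with finite sets.
-/

set_option autoImplicit false

open Set Filter Topology

namespace Pool.Agent.JO

/-- recursion with finitely many earlier terms -/
theorem exists_seq_fin {α : Type} (p : α → Prop) (r : ℕ → Set α → α → Prop)
    (h : ∀ n, ∀ T : Set α, T.Finite → (∀ a ∈ T, p a) → ∃ a, p a ∧ r n T a) :
    ∃ y : ℕ → α, (∀ n, p (y n)) ∧ ∀ n, r n (y '' Set.Iio n) (y n) := by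
  classical
  obtain ⟨a₀, -⟩ := h 0 ∅ Set.finite_empty (fun a ha => absurd ha (Set.notMem_empty a))
  have hg : ∀ (n : ℕ) (T : Set α), ∃ a, (T.Finite → (∀ a ∈ T, p a) → p a ∧ r n T a) := by
    intro n T
    by_cases h1 : T.Finite ∧ ∀ a ∈ T, p a
    · obtain ⟨a, ha⟩ := h n T h1.1 h1.2
      exact ⟨a, fun _ _ => ha⟩
    · exact ⟨a₀, fun h2 h3 => absurd ⟨h2, h3⟩ h1⟩
  choose g hg using hg
  let y : ℕ → α := (wellFounded_lt (α := ℕ)).fix
    fun n ih => g n (Set.range fun m : Set.Iio n => ih m.1 m.2)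
  have hy : ∀ n, y n = g n (y '' Set.Iio n) := by
    intro n
    have h1 : y n = g n (Set.range fun m : Set.Iio n => y m.1) :=
      (wellFounded_lt (α := ℕ)).fix_eq _ n
    rw [h1, ← Set.image_eq_range]
  have hp : ∀ n, p (y n) ∧ r n (y '' Set.Iio n) (y n) := by
    intro n
    induction n using Nat.strong_induction_on with
    | _ n ih =>
      have h1 := hg n (y '' Set.Iio n) ((Set.finite_Iio n).image y) (by
        rintro a ⟨m, hm, rfl⟩
        exact (ih m hm).1)
      rw [← hy n] at h1
      exact h1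
  exact ⟨y, fun n => (hp n).1, fun n => (hp n).2⟩

section
variable {W : Type}

theorem exists_stg (A : Submodule ℝ L) (y : ℕ → F W) (h1 : ∀ j, ‖y j‖ ≤ 1)
    (hd : ∀ i j, i ≠ j → Dj (y i) (y j)) : ∃ t : Stg W, t.A = A ∧ ‖t.f‖ ≤ 1 ∧ ∀ j, t.y j = y j := by
  classical
  let J : Om W → ℕ := fun w => if h : ∃ j, y j w ≠ 0 then h.choose else 0
  have hJ : ∀ w, (∃ j, y j w ≠ 0) → y (J w) w ≠ 0 := by
    intro w h
    have h2 : J w = h.choose := dif_pos h
    rw [h2]
    exact h.choose_spec
  have hC : ∀ w, |y (J w) w| ≤ 1 := fun w => (abs_le_norm (y (J w)) w).trans (h1 (J w))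
  obtain ⟨f, hf⟩ : ∃ f : F W, ∀ w, f w = y (J w) w := ⟨mk (fun w => y (J w) w) 1 hC, fun _ => rfl⟩
  refine ⟨Stg.mk A f J, rfl, ?_, ?_⟩
  · refine norm_le_of (x := f) zero_le_one fun w => ?_
    rw [hf]
    exact hC w
  · intro j
    ext w
    by_cases hj : J w = j
    · rw [y_apply_pos (t := Stg.mk A f J) hj]
      show f w = y j w
      rw [hf, hj]
    · rw [y_apply_neg (t := Stg.mk A f J) hj]
      by_contra hne
      have hne' : y j w ≠ 0 := fun h => hne h.symm
      have h2 := hJ w ⟨j, hne'⟩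
      rcases hd j (J w) (fun h => hj h.symm) w with h3 | h3
      · exact hne' h3
      · exact h2 h3

end

end Pool.Agent.JO
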