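import Pool.Agent.Lib.JO.Pd
import Pool.Agent.Lib.JO.Blka

/-!
# Stages with prescribed blocks; existence of stages (L3.1, L3.2, L3.3)

PROOFS.
`gd_of_blocks`: the stage of `exists_stg`; rewrite `t.y j = y j`.
`room` (L3.1): classical; for every v ∈ T a finset of pairs `dj_D`; union with G; `B_pairs` gives (b, n); `unit_B hs' (b < g)` with `d := g` (hs : Sys s g):
 a ∈ D s (sc b) ≤ D s g.
`exists_gd` (L3.2): g = ⊥: f = 0 (all y j = 0; `ev` vacuous since b < ⊥ is false). g > ⊥: `Iio g × ℕ` is countable (Om1.cnt) and nonempty; surjection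
 pr : ℕ → {p : W × ℕ // p.1 < g}. Choose y j by strong recursion (e.g. `exists_seq_fin` below) with: y j ∈ D s g, ‖y j‖ = 1, y j ∈ B at pr i for i ≤ j, `Dj (y j) (y i)` for i < j (`room`).
 Then `gd_of_blocks`; ev: (b, n) = pr i, all j ≥ i.
-/

set_option autoImplicit false

open Set Filter Topology

namespace Pool.Agent.JO

variable {W : Type} [LinearOrder W] [WellFoundedLT W] [OrderBot W] {s : W → Stg W}

/-- (L3.3) a good stage with prescribed blocks -/
theorem gd_of_blocks {g : W} {A : Submodule ℝ L} (cl : IsClosed (A : Set L))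
    (sep : TopologicalSpace.IsSeparable (A : Set L)) (ne : A ≠ ⊥) {y : ℕ → F W} (h1 : ∀ j, ‖y j‖ ≤ 1)
    (hd : ∀ i j, i ≠ j → Dj (y i) (y j)) (mem : ∀ j, y j ∈ D s g)
    (ev : ∀ b < g, ∀ n, ∀ᶠ j in atTop, y j ∈ B (s b) b n)
    (lim : Tendsto (fun j => ‖y j‖) atTop (𝓝 1)) :
    ∃ t : Stg W, t.A = A ∧ (∀ j, t.y j = y j) ∧ Gd s g t := by
  obtain ⟨t, hA, hf, hy⟩ := exists_stg A y h1 hd
  refine ⟨t, hA, hy, ?_⟩
  exact
    { cl := by rw [hA]; exact cl
      sep := by rw [hA]; exact sep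
      ne := by rw [hA]; exact ne
      f1 := hf
      mem := fun _ j => by rw [hy]; exact mem j
      ev := fun b hb n => by simpa only [hy] using ev b hb n
      lim := fun _ => by simpa only [hy] using lim }

variable [Om1 W]

/-- (L3.1) -/
theorem room {g : W} (hs : Sys s g) (hg : ⊥ < g) (G : Finset (W × ℕ)) (hG : ∀ p ∈ G, p.1 < g)
    (T : Set (F W)) (hT : T.Finite) (hTD : ∀ v ∈ T, v ∈ D s g) :
    ∃ y ∈ D s g, ‖y‖ = 1 ∧ (∀ p ∈ G, y ∈ B (s p.1) p.1 p.2) ∧ ∀ v ∈ T, Dj y v := by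
  classical
  have key : ∀ v ∈ T, ∃ G : Finset (W × ℕ), (∀ p ∈ G, p.1 < g) ∧
      ∀ x, (∀ p ∈ G, x ∈ B (s p.1) p.1 p.2) → Dj x v := fun v hv => dj_D (hTD v hv)
  choose! Gf hG1 hG2 using key
  obtain ⟨b, hb, n, hH⟩ := B_pairs hs hg (G ∪ hT.toFinset.biUnion Gf) (fun p hp => by
    rcases Finset.mem_union.1 hp with h | h
    · exact hG p h
    · obtain ⟨v, hv, hp'⟩ := Finset.mem_biUnion.1 h
      exact hG1 v (hT.mem_toFinset.1 hv) p hp')
  obtain ⟨a, ha, haB, ha1⟩ := unit_B hs hb n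
  refine ⟨a, D_mono (sc_le_iff.2 hb) ha, ha1, fun p hp => ?_, fun v hv => ?_⟩
  · exact hH p (Finset.mem_union_left _ hp) haB
  · refine hG2 v hv a fun p hp => ?_
    exact hH p (Finset.mem_union_right _
      (Finset.mem_biUnion.2 ⟨v, hT.mem_toFinset.2 hv, hp⟩)) haB

/-- (L3.2) -/
theorem exists_gd {g : W} (hs : Sys s g) {A : Submodule ℝ L} (cl : IsClosed (A : Set L))
    (sep : TopologicalSpace.IsSeparable (A : Set L)) (ne : A ≠ ⊥) :
    ∃ t : Stg W, t.A = A ∧ Gd s g t := by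
  classical
  rcases eq_or_lt_of_le (bot_le (a := g)) with hg | hg
  · refine ⟨{ A := A, f := 0, J := fun _ => 0 }, rfl, ?_⟩
    exact
      { cl := cl
        sep := sep
        ne := ne
        f1 := by simp
        mem := fun h => absurd (hg ▸ h) (lt_irrefl _)
        ev := fun b hb => absurd (hg ▸ hb) not_lt_bot
        lim := fun h => absurd (hg ▸ h) (lt_irrefl _) }
  · have hc : Countable {p : W × ℕ // p.1 < g} := by
      have h1 : ((Iio g) ×ˢ (univ : Set ℕ)).Countable := (Om1.cnt g).prod countable_univ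
      refine (h1.mono ?_).to_subtype (s := {p : W × ℕ | p.1 < g})
      intro p hp
      exact ⟨hp, mem_univ _⟩
    have hn : Nonempty {p : W × ℕ // p.1 < g} := ⟨⟨(⊥, 0), hg⟩⟩
    obtain ⟨pr, hpr⟩ := exists_surjective_nat {p : W × ℕ // p.1 < g}
    obtain ⟨y, hyp, hyr⟩ := exists_seq_fin (α := F W) (fun y => y ∈ D s g ∧ ‖y‖ = 1)
      (fun j T y => (∀ i ≤ j, y ∈ B (s (pr i).1.1) (pr i).1.1 (pr i).1.2) ∧ ∀ v ∈ T, Dj y v)
      (fun n T hT hp => by
        obtain ⟨y, h1, h2, h3, h4⟩ := room hs hg ((Finset.range (n + 1)).image fun i => (pr i).1)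
          (fun p hp => by
            obtain ⟨i, -, rfl⟩ := Finset.mem_image.1 hp
            exact (pr i).2) T hT (fun v hv => (hp v hv).1)
        refine ⟨y, ⟨h1, h2⟩, fun i hi => ?_, h4⟩
        exact h3 _ (Finset.mem_image.2 ⟨i, Finset.mem_range.2 (Nat.lt_succ_of_le hi), rfl⟩))
    have hdj : ∀ i j, i < j → Dj (y j) (y i) := fun i j h => (hyr j).2 (y i) ⟨i, h, rfl⟩
    obtain ⟨t, hA, -, hG⟩ := gd_of_blocks (s := s) (g := g) cl sep ne (fun j => (hyp j).2.le)
      (fun i j h => by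
        rcases lt_or_gt_of_ne h with h | h
        · exact (hdj i j h).symm
        · exact hdj j i h)
      (fun j => (hyp j).1)
      (fun b hb n => by
        obtain ⟨i, hi⟩ := hpr ⟨(b, n), hb⟩
        refine eventually_atTop.2 ⟨i, fun j hj => ?_⟩
        have := (hyr j).1 i hj
        rw [hi] at this
        exact this)
      (tendsto_const_nhds.congr fun j => (hyp j).2.symm)
    exact ⟨t, hA, hG⟩

end Pool.Agent.JO
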