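import Pool.Agent.Lib.JO.Cnda

/-!
# Limits of conditions (L3.4)

PROOFS.
`exists_lm`: r antitone, so `k ≤ l → (r k).d ≤ (r l).d ∧ (r l).s = (r k).s below (r k).d`. Let d := least upper bound of the `(r k).d`
 (`WellFounded.min` of the nonempty set of upper bounds: `Om1.bdd (range ..)`). Every g < d is < some (r k).d (otherwise g is an upper bound). `s g := (r k).s g` for a k
 with g < (r k).d (`if h : ∃ k, g < (r k).d then (r h.choose).s g else (r 0).s g`); it equals (r k).s g for EVERY k with g < (r k).d. Sys s d: at g < (r k).d by `Gd_congr`.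
 D: a generator `e (s b) b c`, b < d, is in D (r k).s (r k).d for b < (r k).d; span induction with `(r l).d` increasing (max of two k's).
`lm`: choice.  `lm_mem`: `D q.s q.d ≥ D (r k).s (r k).d` (congruence + D_mono).
`lm_closure`: X of the limit is contained in the closure of the union of the X's.
-/

set_option autoImplicit false

open Set Filter Topology

namespace Pool.Agent.JO

section
variable {W : Type} [LinearOrder W] [WellFoundedLT W] [OrderBot W] [Om1 W]

theorem exists_lm (r : ℕ → Cond W) (hr : Antitone r) :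
    ∃ q : Cond W, IsLUB (Set.range fun k => (r k).d) q.d ∧ (∀ k, q ≤ r k) ∧
      ∀ x ∈ D q.s q.d, ∃ k, x ∈ D (r k).s (r k).d := by
  classical
  have hne : {b : W | ∀ k, (r k).d ≤ b}.Nonempty := by
    obtain ⟨b, hb⟩ := Om1.bdd (Set.range fun k => (r k).d) (countable_range _)
    exact ⟨b, fun k => (hb _ ⟨k, rfl⟩).le⟩
  obtain ⟨d, hd, hdmin⟩ : ∃ d : W, (∀ k, (r k).d ≤ d) ∧ ∀ b, (∀ k, (r k).d ≤ b) → d ≤ b :=
    ⟨WellFounded.min (wellFounded_lt (α := W)) _ hne, WellFounded.min_mem (wellFounded_lt (α := W)) _ hne,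
      fun b hb => WellFounded.min_le (wellFounded_lt (α := W)) (show b ∈ {b : W | ∀ k, (r k).d ≤ b} from hb)⟩
  have hex : ∀ g < d, ∃ k, g < (r k).d := by
    intro g hg
    by_contra hcon
    push Not at hcon
    exact absurd hg (not_lt.mpr (hdmin g hcon))
  obtain ⟨s, hs⟩ : ∃ s : W → Stg W, ∀ k, ∀ g < (r k).d, s g = (r k).s g := by
    refine ⟨fun g => if h : ∃ k, g < (r k).d then (r h.choose).s g else (r 0).s g, fun k g hg => ?_⟩
    have h : ∃ k, g < (r k).d := ⟨k, hg⟩
    simp only [dif_pos h]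
    have hc := h.choose_spec
    rcases le_total k h.choose with hk | hk
    · exact (hr hk).2 g hg
    · exact ((hr hk).2 g hc).symm
  have hsys : Sys s d := by
    intro g hg
    obtain ⟨k, hk⟩ := hex g hg
    rw [hs k g hk]
    exact Gd_congr (fun b hb => (hs k b (hb.trans hk)).symm) ((r k).gd g hk)
  refine ⟨⟨d, s, (r 0).pos.trans_le (hd 0), hsys⟩, ⟨?_, ?_⟩, fun k => ⟨hd k, hs k⟩, ?_⟩
  · rintro _ ⟨k, rfl⟩
    exact hd k
  · intro b hb
    exact hdmin b fun k => hb ⟨k, rfl⟩
  · intro x hx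
    have hx' : x ∈ Submodule.span ℝ {x | ∃ b < d, ∃ c ∈ V (s b).A b, x = e (s b) b c} := hx
    clear hx
    induction hx' using Submodule.span_induction with
    | mem x hx =>
      obtain ⟨b, hb, c, hc, rfl⟩ := hx
      obtain ⟨k, hk⟩ := hex b hb
      refine ⟨k, ?_⟩
      rw [hs k b hk] at hc ⊢
      exact Submodule.subset_span ⟨b, hk, c, hc, rfl⟩
    | zero => exact ⟨0, Submodule.zero_mem _⟩
    | add x y hx hy h1 h2 =>
      obtain ⟨k, hk⟩ := h1
      obtain ⟨l, hl⟩ := h2
      exact ⟨max k l, Submodule.add_mem _ (D_sub (hr (le_max_left k l)) hk) (D_sub (hr (le_max_right k l)) hl)⟩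
    | smul a x hx h =>
      obtain ⟨k, hk⟩ := h
      exact ⟨k, Submodule.smul_mem _ a hk⟩

open Classical in
/-- the limit of a descending sequence -/
noncomputable def lm (r : ℕ → Cond W) : Cond W := if h : Antitone r then (exists_lm r h).choose else r 0

theorem lm_lub {r : ℕ → Cond W} (hr : Antitone r) : IsLUB (Set.range fun k => (r k).d) (lm r).d := by
  rw [lm, dif_pos hr]; exact (exists_lm r hr).choose_spec.1

theorem lm_le {r : ℕ → Cond W} (hr : Antitone r) (k : ℕ) : lm r ≤ r k := by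
  rw [lm, dif_pos hr]; exact (exists_lm r hr).choose_spec.2.1 k

theorem lm_D {r : ℕ → Cond W} (hr : Antitone r) {x : F W} (hx : x ∈ D (lm r).s (lm r).d) :
    ∃ k, x ∈ D (r k).s (r k).d := by
  rw [lm, dif_pos hr] at hx; exact (exists_lm r hr).choose_spec.2.2 x hx

theorem lm_closure {r : ℕ → Cond W} (hr : Antitone r) :
    (X (lm r).s (lm r).d : Set (F W)) ⊆ closure (⋃ k, (X (r k).s (r k).d : Set (F W))) := by
  have h1 : (X (lm r).s (lm r).d : Set (F W)) = closure (D (lm r).s (lm r).d : Set (F W)) := by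
    unfold X
    exact Submodule.topologicalClosure_coe _
  rw [h1]
  refine closure_mono fun x hx => ?_
  obtain ⟨k, hk⟩ := lm_D hr hx
  exact Set.mem_iUnion.mpr ⟨k, D_le_X _ hk⟩

end

end Pool.Agent.JO
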