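import Pool.Agent.Lib.JO.Blk

/-!
# Conditions: congruence, extensions, restrictions (L3.2, L3.3, L3.6)

PROOFS.
`D_congr`: the generating sets are equal. `Gd_congr`: only `D s g` (congruence) and `s b`, b < g, occur. `Sys_congr`: from `Gd_congr`.
`ext`: `Function.update p.s p.d t` equals `p.s` below `p.d`; Gd at g < sc p.d: g < p.d (`Gd_congr`) or g = p.d (given h).
`exists_ext`: `exists_gd` for g = p.d, `ext`; `ext_s`.
-/

set_option autoImplicit false

open Set Filter Topology

namespace Pool.Agent.JO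

section
variable {W : Type} [LinearOrder W] {s s' : W → Stg W} {g : W}

theorem D_congr (h : ∀ b < g, s b = s' b) : D s g = D s' g := by
  unfold D
  congr 1
  ext x
  constructor
  · rintro ⟨b, hb, c, hc, hx⟩
    rw [h b hb] at hc hx
    exact ⟨b, hb, c, hc, hx⟩
  · rintro ⟨b, hb, c, hc, hx⟩
    rw [← h b hb] at hc hx
    exact ⟨b, hb, c, hc, hx⟩

theorem X_congr (h : ∀ b < g, s b = s' b) : X s g = X s' g := by
  rw [X, X, D_congr h]

theorem Gd_congr [OrderBot W] {t : Stg W} (h : ∀ b < g, s b = s' b) (ht : Gd s g t) : Gd s' g t where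
  cl := ht.cl
  sep := ht.sep
  ne := ht.ne
  f1 := ht.f1
  mem h0 j := D_congr h ▸ ht.mem h0 j
  ev b hb n := h b hb ▸ ht.ev b hb n
  lim := ht.lim

theorem Sys_congr [OrderBot W] (h : ∀ b < g, s b = s' b) (hs : Sys s g) : Sys s' g := by
  intro b hb
  rw [← h b hb]
  exact Gd_congr (fun c hc => h c (hc.trans hb)) (hs b hb)

theorem Sys_mono [OrderBot W] {d : W} (h : g ≤ d) (hs : Sys s d) : Sys s g :=
  fun b hb => hs b (hb.trans_le h)

end

section
variable {W : Type} [LinearOrder W] [OrderBot W]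

theorem X_le {p q : Cond W} (h : q ≤ p) : X q.s p.d = X p.s p.d := X_congr h.2

theorem D_le {p q : Cond W} (h : q ≤ p) : D q.s p.d = D p.s p.d := D_congr h.2

theorem X_le' {p q : Cond W} (h : q ≤ p) {g : W} (hg : g ≤ p.d) : X q.s g = X p.s g :=
  X_congr fun b hb => h.2 b (hb.trans_le hg)

theorem D_le' {p q : Cond W} (h : q ≤ p) {g : W} (hg : g ≤ p.d) : D q.s g = D p.s g :=
  D_congr fun b hb => h.2 b (hb.trans_le hg)

/-- `X p.s p.d` increases when `p` gets stronger -/
theorem X_sub {p q : Cond W} (h : q ≤ p) : X p.s p.d ≤ X q.s q.d := by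
  rw [← X_le h]; exact X_mono h.1

theorem D_sub {p q : Cond W} (h : q ≤ p) : D p.s p.d ≤ D q.s q.d := by
  rw [← D_le h]; exact D_mono h.1

/-- (L3.6) restriction -/
def tr (p : Cond W) (g : W) (h0 : ⊥ < g) (h : g ≤ p.d) : Cond W := ⟨g, p.s, h0, Sys_mono h p.gd⟩

theorem le_tr (p : Cond W) (g : W) (h0 : ⊥ < g) (h : g ≤ p.d) : p ≤ tr p g h0 h :=
  ⟨h, fun _ _ => rfl⟩

/-- a condition below `p` and a condition `q ≥ p` of smaller height are comparable -/
theorem tr_le {p q : Cond W} (hpq : p ≤ q) {g : W} (h0 : ⊥ < g) (h : g ≤ p.d) (hq : q.d ≤ g) : tr p g h0 h ≤ q :=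
  ⟨hq, hpq.2⟩

end

section
variable {W : Type} [LinearOrder W] [WellFoundedLT W] [OrderBot W] [Om1 W]

/-- (L3.3) extension by a good stage -/
noncomputable def ext (p : Cond W) (t : Stg W) (h : Gd p.s p.d t) : Cond W where
  d := sc p.d
  s := Function.update p.s p.d t
  pos := p.pos.trans (lt_sc _)
  gd := by
    intro g hg
    rcases (lt_sc_iff.1 hg).lt_or_eq with h1 | rfl
    · rw [Function.update_of_ne h1.ne]
      exact Gd_congr (fun b hb => (Function.update_of_ne (hb.trans h1).ne _ _).symm) (p.gd g h1)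
    · rw [Function.update_self]
      exact Gd_congr (fun b hb => (Function.update_of_ne hb.ne _ _).symm) h

theorem ext_s (p : Cond W) (t : Stg W) (h : Gd p.s p.d t) : (ext p t h).s p.d = t :=
  Function.update_self _ _ _

theorem ext_le (p : Cond W) (t : Stg W) (h : Gd p.s p.d t) : ext p t h ≤ p :=
  ⟨(lt_sc _).le, fun _ hg => Function.update_of_ne hg.ne _ _⟩

/-- (L3.2) -/
theorem exists_ext (p : Cond W) {A : Submodule ℝ L} (cl : IsClosed (A : Set L))
    (sep : TopologicalSpace.IsSeparable (A : Set L)) (ne : A ≠ ⊥) :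
    ∃ q ≤ p, q.d = sc p.d ∧ (q.s p.d).A = A := by
  obtain ⟨t, ht, h⟩ := exists_gd p.gd cl sep ne
  exact ⟨ext p t h, ext_le p t h, rfl, by rw [ext_s, ht]⟩

end

end Pool.Agent.JO
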