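import Pool.Agent.Lib.JO.Snm

/-!
# Theorem D: the maps (definitions)
-/

set_option autoImplicit false

open Set Filter Topology

namespace Pool.Agent.JO

variable {W : Type} [LinearOrder W]

/-- the noncanonical projection `P' x = P_be x + ∑ j<m s_j x(be, n_j, k_j) y_j` -/
noncomputable def Pp (t : Stg W) (be : W) (m : ℕ) (x : F W) : F W :=
  P t be x + ∑ j ∈ Finset.range m, (ss j * x ⟨be, nn j, kk j⟩) • t.y j

/-- `U c = (1 - P_be) e_η(c)` -/
noncomputable def Uo (t tη : Stg W) (be η : W) (c : F W) : F W := e tη η c - P t be (e tη η c)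

/-- `V y = (P_{η+1} y)|I_η`; `t` is the stage at `η' = η + 1` -/
noncomputable def Vo (t : Stg W) (η η' : W) (y : F W) : F W := R {w | w.g = η} (P t η' y)

open Classical in
/-- the function on `I_η` with row `0` equal to `a` and row `n + 1` equal to row `n` of `v` -/
noncomputable def cns (η : W) (a : L) (v : F W) : F W :=
  mk (fun w => if w.g = η then (if w.n = 0 then a w.k else v ⟨η, w.n - 1, w.k⟩) else 0) (max ‖a‖ ‖v‖)
    (fun w => by
      split_ifs
      · exact (a.norm_coe_le_norm _).trans (le_max_left _ _)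
      · exact (v.norm_coe_le_norm _).trans (le_max_right _ _)
      · rw [abs_zero]; exact (norm_nonneg _).trans (le_max_left _ _))

open Classical in
/-- the function on `I_η` with row `n` equal to row `n + 1` of `v` -/
noncomputable def tl (η : W) (v : F W) : F W :=
  mk (fun w => if w.g = η then v ⟨η, w.n + 1, w.k⟩ else 0) ‖v‖ (fun w => by
      split_ifs
      · exact v.norm_coe_le_norm _
      · rw [abs_zero]; exact norm_nonneg _)

/-- functions on `I_η` with rows in `A` and norms of the rows tending to `0` -/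
def Wk (A : Submodule ℝ L) (η : W) : Submodule ℝ (F W) where
  carrier := {c | (∀ w, w.g ≠ η → c w = 0) ∧ Tendsto (fun n => ‖row η n c‖) atTop (𝓝 0) ∧ ∀ n, row η n c ∈ A}
  add_mem' := by
    rintro c d ⟨h1, h2, h3⟩ ⟨h1', h2', h3'⟩
    refine ⟨fun w hw => by simp [h1 w hw, h1' w hw], ?_, fun n => A.add_mem (h3 n) (h3' n)⟩
    refine squeeze_zero (fun _ => norm_nonneg _) (fun n => ?_) (by simpa using h2.add h2')
    exact norm_add_le (row η n c) (row η n d)
  zero_mem' := ⟨fun _ _ => rfl, by
    have : (fun n => ‖row η n (0 : F W)‖) = fun _ => (0 : ℝ) := by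
      funext n
      have : row η n (0 : F W) = 0 := by ext k; rfl
      rw [this, norm_zero]
    rw [this]; exact tendsto_const_nhds, fun _ => A.zero_mem⟩
  smul_mem' := by
    rintro a c ⟨h1, h2, h3⟩
    refine ⟨fun w hw => by simp [h1 w hw], ?_, fun n => A.smul_mem a (h3 n)⟩
    have : (fun n => ‖row η n (a • c)‖) = fun n => |a| * ‖row η n c‖ := by
      funext n
      have : row η n (a • c) = a • row η n c := by ext k; rfl
      rw [this, norm_smul, Real.norm_eq_abs]
    rw [this]
    simpa using h2.const_mul |a|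

/-- the map `T_k`: `x ↦ y - U V y + U (J z ^ V y)`, `z = P' x`, `y = (1 - P_be) x` -/
noncomputable def Th (J : F W → L) (t tη t' : Stg W) (be η η' : W) (m : ℕ) (x : F W) : F W :=
  (x - P t be x) - Uo t tη be η (Vo t' η η' (x - P t be x)) +
    Uo t tη be η (cns η (J (Pp t be m x)) (Vo t' η η' (x - P t be x)))

end Pool.Agent.JO
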