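import Pool.Agent.Lib.JO.DDf

/-!
# Theorem D: the projection `P'`

PROOFS. `Pp t be m x = P t be x + ∑ j<m (ss j * x ⟨be,..⟩) • t.y j`, t = s be. hb : ⊥ < be < d: `(s be).y j ∈ D s be`.
`Pp_mem`: `P_memX`, y_j ∈ D ≤ X.   `Pp_id`: z ∈ X s be: `P_of_supp` (`X_supp`), z ⟨be, ..⟩ = 0.
`Pp_B`: on {w.g < be}: `x - Pp x = E x - ∑ = R {m ≤ J} (E x)` (`E_split`), in B (s g') g' n' by `tail_mem`; `B_congr` (g' < be).
`Pp_norm`: on be ≤ w.g: x - Pp x = x (P.. = 0, y_j = 0 by D_supp); below be: |R {m ≤ J} (E x) w| ≤ ‖R {w.g = be} x‖ ≤ ‖R {be ≤ w.g} x‖ (`norm_E_le`).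
`Pp_add`, `Pp_smul`: linearity (`Finset.sum_add_distrib`, `Finset.smul_sum`).
`Pp_congr`: Pp depends only on x on {w.g ≤ be}; not needed.
-/

set_option autoImplicit false

open Set Filter Topology

namespace Pool.Agent.JO

section
variable {W : Type} [LinearOrder W]

theorem Pp_add (t : Stg W) (be : W) (m : ℕ) (x y : F W) : Pp t be m (x + y) = Pp t be m x + Pp t be m y := by
  have h : ∑ j ∈ Finset.range m, (ss j * (x + y) ⟨be, nn j, kk j⟩) • t.y j =
      ∑ j ∈ Finset.range m, (ss j * x ⟨be, nn j, kk j⟩) • t.y j +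
        ∑ j ∈ Finset.range m, (ss j * y ⟨be, nn j, kk j⟩) • t.y j := by
    rw [← Finset.sum_add_distrib]
    refine Finset.sum_congr rfl fun j _ => ?_
    rw [BoundedContinuousFunction.add_apply, mul_add, add_smul]
  rw [Pp, Pp, Pp, h, map_add]
  abel

theorem Pp_smul (t : Stg W) (be : W) (m : ℕ) (a : ℝ) (x : F W) : Pp t be m (a • x) = a • Pp t be m x := by
  have h : ∑ j ∈ Finset.range m, (ss j * (a • x) ⟨be, nn j, kk j⟩) • t.y j =
      a • ∑ j ∈ Finset.range m, (ss j * x ⟨be, nn j, kk j⟩) • t.y j := by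
    rw [Finset.smul_sum]
    refine Finset.sum_congr rfl fun j _ => ?_
    rw [smul_smul]
    congr 1
    show ss j * (a * x ⟨be, nn j, kk j⟩) = a * (ss j * x ⟨be, nn j, kk j⟩)
    ring
  rw [Pp, Pp, h, map_smul, smul_add]

end

variable {W : Type} [LinearOrder W] [WellFoundedLT W] [OrderBot W] {s : W → Stg W} {d be : W}

/-- the sum in `Pp` is in `X s be` -/
private theorem sum_mem (hs : Sys s d) (h0 : ⊥ < be) (hb : be < d) (m : ℕ) (x : F W) :
    ∑ j ∈ Finset.range m, (ss j * x ⟨be, nn j, kk j⟩) • (s be).y j ∈ X s be :=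
  Submodule.sum_mem _ fun j _ => Submodule.smul_mem _ _ (D_le_X _ ((hs be hb).mem h0 j))

theorem Pp_mem (hs : Sys s d) (h0 : ⊥ < be) (hb : be < d) (m : ℕ) {x : F W} (hx : x ∈ X s d) :
    Pp (s be) be m x ∈ X s be :=
  Submodule.add_mem _ (P_memX hs hb hb.le le_rfl hx) (sum_mem hs h0 hb m x)

theorem Pp_id (_hs : Sys s d) (_h0 : ⊥ < be) (_hb : be < d) (m : ℕ) {z : F W} (hz : z ∈ X s be) :
    Pp (s be) be m z = z := by
  have h : ∑ j ∈ Finset.range m, (ss j * z ⟨be, nn j, kk j⟩) • (s be).y j = 0 := by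
    refine Finset.sum_eq_zero fun j _ => ?_
    rw [X_supp hz (w := ⟨be, nn j, kk j⟩) le_rfl, mul_zero, zero_smul]
  rw [Pp, h, add_zero, P_of_supp fun w hw => X_supp hz hw]

/-- below `be`, `x - P' x` is the tail of `E x` -/
private theorem sub_Pp_lt (hs : Sys s d) (h0 : ⊥ < be) (hb : be < d) (m : ℕ) (x : F W) {w : Om W} (hw : w.g < be) :
    (x - Pp (s be) be m x) w = R {w | (s be).J w ∈ {j | m ≤ j}} (E (s be) be x) w := by
  have h1 := E_split (t := s be) (g := be) (fun j w hw => D_supp ((hs be hb).mem h0 j) hw) x m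
  have h2 := congrArg (fun v : F W => v w) h1
  simp only [BoundedContinuousFunction.add_apply] at h2
  rw [Pp, BoundedContinuousFunction.sub_apply, BoundedContinuousFunction.add_apply, P_apply_lt hw]
  linarith

private theorem sub_Pp_ge (hs : Sys s d) (h0 : ⊥ < be) (hb : be < d) (m : ℕ) (x : F W) {w : Om W} (hw : be ≤ w.g) :
    (x - Pp (s be) be m x) w = x w := by
  rw [Pp, BoundedContinuousFunction.sub_apply, BoundedContinuousFunction.add_apply, P_apply_ge hw,
    X_supp (sum_mem hs h0 hb m x) hw]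
  ring

theorem Pp_B (hs : Sys s d) (h0 : ⊥ < be) (hb : be < d) {g' : W} (hg' : g' < be) {n' m : ℕ}
    (hm : ∀ j, m ≤ j → (s be).y j ∈ B (s g') g' n') (x : F W) : x - Pp (s be) be m x ∈ B (s g') g' n' := by
  have h1 := tail_mem (tb := s g') hg' {j | m ≤ j} hm x
  refine B_congr (fun w hw => ?_) h1
  exact (sub_Pp_lt hs h0 hb m x (hw.trans_lt hg')).symm

theorem Pp_norm (hs : Sys s d) (h0 : ⊥ < be) (hb : be < d) (m : ℕ) (x : F W) :
    ‖x - Pp (s be) be m x‖ = ‖R {w | be ≤ w.g} x‖ := by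
  apply le_antisymm
  · refine norm_le_of (norm_nonneg _) fun w => ?_
    rcases lt_or_ge w.g be with hw | hw
    · rw [sub_Pp_lt hs h0 hb m x hw]
      refine (abs_le_norm _ _).trans ((norm_R_le _ _).trans ((norm_E_le (hs be hb).f1 be x).trans ?_))
      refine norm_R_mono ?_ x
      intro w hw; exact le_of_eq (Eq.symm hw)
    · rw [sub_Pp_ge hs h0 hb m x hw]
      exact le_norm_R (S := {w | be ≤ w.g}) hw x
  · refine norm_R_le_of (norm_nonneg _) fun w hw => ?_
    rw [← sub_Pp_ge hs h0 hb m x hw]; exact abs_le_norm _ _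

end Pool.Agent.JO
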