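import Pool.Agent.Lib.JO.DTh0

/-!
# Theorem D: the map `T_k` is a linear bijection onto `Y = {w ∈ X s d | P_be w = 0}`

Write `P = P (s be) be`, `y = x - P x`, `z = Pp x`, `U`, `V`. ‖y‖ = ‖R {be ≤ w.g} x‖ (`norm_sub_P`), a‖y‖ ≤ a ‖R {al ≤ w.g} x‖ ≤ N x.
`Th_mem`: y ∈ X s d, P y = 0; V y ∈ Wk; U (..) ∈ X s d with P (U ..) = 0; cns (J z) (V y) ∈ Wk (J z ∈ A).
`Th_add`, `Th_smul`: all maps are linear (J on X s be; Pp x ∈ X s be).
`Th_surj`: w ∈ X s d, P w = 0. δ := V w ∈ Wk; choose z ∈ X s be with J z = row η 0 δ (∈ A). δ' := tl η δ; y := w - U δ + U δ'; x := y + (z - Pp y). P y = 0. P x = z - Pp y (P v = v for v ∈ X s be: `P_of_supp`), so x - P x = y; Pp x = Pp y + z - Pp y = z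
 (`Pp_add`, `Pp_id`). V y = δ - δ + δ' = δ' (`Vo_Uo`). T x = y - U δ' + U (cns (row 0 δ) δ') = y - U δ' + U δ = w.
-/

set_option autoImplicit false

open Set Filter Topology

namespace Pool.Agent.JO

variable {W : Type} [LinearOrder W] [WellFoundedLT W] [OrderBot W] [Om1 W]
variable {s : W → Stg W} {d be η al g' : W} {N : F W → ℝ} {a : ℝ} {n' m : ℕ} {J : F W → L}

theorem Hf.bed (h : Hf s d be η N a al g' n' m J) : be < d := h.hbe.trans_lt ((lt_sc η).trans h.hη)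

theorem Hf.ηd (h : Hf s d be η N a al g' n' m J) : η < d := (lt_sc η).trans h.hη

theorem Hf.y_mem (h : Hf s d be η N a al g' n' m J) {x : F W} (hx : x ∈ X s d) :
    x - P (s be) be x ∈ X s d ∧ P (s be) be (x - P (s be) be x) = 0 :=
  ⟨sub_P_X h.hs h.bed h.bed.le le_rfl hx, by rw [map_sub, P_P, sub_self]⟩

theorem Hf.V_mem (h : Hf s d be η N a al g' n' m J) {x : F W} (hx : x ∈ X s d) :
    Vo (s (sc η)) η (sc η) (x - P (s be) be x) ∈ Wk (s η).A η :=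
  Vo_mem h.hs h.hη (h.y_mem hx).1

theorem Hf.c_mem (h : Hf s d be η N a al g' n' m J) {x : F W} (hx : x ∈ X s d) :
    cns η (J (Pp (s be) be m x)) (Vo (s (sc η)) η (sc η) (x - P (s be) be x)) ∈ Wk (s η).A η :=
  cns_mem (h.Jmem _ (Pp_mem h.hs h.h0 h.bed m hx)) (h.V_mem hx)

theorem Th_mem (h : Hf s d be η N a al g' n' m J) {x : F W} (hx : x ∈ X s d) :
    Th J (s be) (s η) (s (sc η)) be η (sc η) m x ∈ X s d ∧
      P (s be) be (Th J (s be) (s η) (s (sc η)) be η (sc η) m x) = 0 := by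
  obtain ⟨h1, h2⟩ := h.y_mem hx
  obtain ⟨h3, h4⟩ := Uo_mem h.hs h.hbe h.ηd (h.V_mem hx)
  obtain ⟨h5, h6⟩ := Uo_mem h.hs h.hbe h.ηd (h.c_mem hx)
  refine ⟨Submodule.add_mem _ (Submodule.sub_mem _ h1 h3) h5, ?_⟩
  rw [Th, map_add, map_sub, h2, h4, h6, sub_zero, add_zero]

theorem Th_add (h : Hf s d be η N a al g' n' m J) {x y : F W} (hx : x ∈ X s d) (hy : y ∈ X s d) :
    Th J (s be) (s η) (s (sc η)) be η (sc η) m (x + y) =
      Th J (s be) (s η) (s (sc η)) be η (sc η) m x + Th J (s be) (s η) (s (sc η)) be η (sc η) m y := by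
  have e1 : x + y - P (s be) be (x + y) = (x - P (s be) be x) + (y - P (s be) be y) := by
    rw [map_add]; abel
  rw [Th, Th, Th, e1, Vo_add, Pp_add, h.Jadd _ (Pp_mem h.hs h.h0 h.bed m hx) _
    (Pp_mem h.hs h.h0 h.bed m hy), cns_add, Uo_add, Uo_add]
  abel

theorem Th_smul (h : Hf s d be η N a al g' n' m J) (t : ℝ) {x : F W} (hx : x ∈ X s d) :
    Th J (s be) (s η) (s (sc η)) be η (sc η) m (t • x) = t • Th J (s be) (s η) (s (sc η)) be η (sc η) m x := by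
  have e1 : t • x - P (s be) be (t • x) = t • (x - P (s be) be x) := by
    rw [map_smul, smul_sub]
  rw [Th, Th, e1, Vo_smul, Pp_smul, h.Jsmul _ _ (Pp_mem h.hs h.h0 h.bed m hx), cns_smul, Uo_smul,
    Uo_smul, smul_add, smul_sub (t) (x - P (s be) be x)]

theorem Th_surj (h : Hf s d be η N a al g' n' m J) {w : F W} (hw : w ∈ X s d) (hP : P (s be) be w = 0) :
    ∃ x ∈ X s d, Th J (s be) (s η) (s (sc η)) be η (sc η) m x = w := by
  have hδ : Vo (s (sc η)) η (sc η) w ∈ Wk (s η).A η := Vo_mem h.hs h.hη hw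
  set δ := Vo (s (sc η)) η (sc η) w with hδdef
  obtain ⟨z, hz, hJz⟩ := h.Jsurj _ (hδ.2.2 0)
  have hδ' : tl η δ ∈ Wk (s η).A η := tl_mem hδ
  obtain ⟨u1, u2⟩ := Uo_mem h.hs h.hbe h.ηd hδ
  obtain ⟨u3, u4⟩ := Uo_mem h.hs h.hbe h.ηd hδ'
  set y : F W := w - Uo (s be) (s η) be η δ + Uo (s be) (s η) be η (tl η δ) with hy
  have hyX : y ∈ X s d := Submodule.add_mem _ (Submodule.sub_mem _ hw u1) u3
  have hyP : P (s be) be y = 0 := by
    rw [hy, map_add, map_sub, hP, u2, u4, sub_zero, add_zero]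
  have hPpy : Pp (s be) be m y ∈ X s be := Pp_mem h.hs h.h0 h.bed m hyX
  have hXd : X s be ≤ X s d := X_mono h.bed.le
  have hzy : z - Pp (s be) be m y ∈ X s be := Submodule.sub_mem _ hz hPpy
  have hPzy : P (s be) be (z - Pp (s be) be m y) = z - Pp (s be) be m y :=
    P_of_supp fun w hw => X_supp hzy hw
  refine ⟨y + (z - Pp (s be) be m y), Submodule.add_mem _ hyX (hXd hzy), ?_⟩
  have e1 : y + (z - Pp (s be) be m y) - P (s be) be (y + (z - Pp (s be) be m y)) = y := by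
    rw [map_add, hyP, hPzy]; abel
  have e2 : Pp (s be) be m (y + (z - Pp (s be) be m y)) = z := by
    rw [Pp_add, Pp_id h.hs h.h0 h.bed m hzy]; abel
  have e3 : Vo (s (sc η)) η (sc η) y = tl η δ := by
    rw [hy]
    have e4 : w - Uo (s be) (s η) be η δ + Uo (s be) (s η) be η (tl η δ) =
        w + ((-1 : ℝ) • Uo (s be) (s η) be η δ + Uo (s be) (s η) be η (tl η δ)) := by
      have : (-1 : ℝ) • Uo (s be) (s η) be η δ = -Uo (s be) (s η) be η δ := by ext v; simp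
      rw [this]; abel
    rw [e4, Vo_add, Vo_add, Vo_smul, Vo_Uo h.hbe hδ, Vo_Uo h.hbe hδ', ← hδdef]
    have : (-1 : ℝ) • δ = -δ := by ext v; simp
    rw [this]; abel
  rw [Th, e1, e2, e3, hJz, cns_row_tl hδ, hy]
  abel

end Pool.Agent.JO
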