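import Pool.Agent.Lib.JO.DTa

/-!
# Theorem D: estimates for the map `T_k`

Write `P = P (s be) be`, `y = x - P x`, `z = Pp x`, `U`, `V`. ‖y‖ = ‖R {be ≤ w.g} x‖ (`norm_sub_P`), a‖y‖ ≤ a ‖R {al ≤ w.g} x‖ ≤ N x.
`Th_upper`: ‖T x‖ ≤ ‖y‖ + ‖V y‖ + max ‖J z‖ ‖V y‖, ‖V y‖ ≤ 2‖y‖, a‖y‖ ≤ N x, a‖J z‖ = N z ≤ N x + N (x - z) ≤ N x + 2a‖x - z‖ = N x + 2a‖y‖ ≤ 3 N x (`Pp_B`, F2, `Pp_norm`): a‖T x‖ ≤ 6 N x.
`Th_lower`: w := T x. V w = V y - V y + cns (J z) (V y) (`Vo_Uo`) so row 0 of V w is J z (row_norm: ‖J z‖ ≤ ‖V w‖ ≤ 2‖w‖), tl (V w) = V y; y = w + U (V y) - U (V w), so ‖y‖ ≤ ‖w‖ + ‖V y - V w‖ ≤ ‖w‖ + 2‖V w‖ ≤ 5‖w‖ (U (V y) - U (V w) = U (V y - V w), Uo_norm).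
 N x ≤ N z + N (x - z) ≤ a‖J z‖ + 2a‖y‖ ≤ 2a‖w‖ + 10a‖w‖.
-/

set_option autoImplicit false

open Set Filter Topology

namespace Pool.Agent.JO

variable {W : Type} [LinearOrder W] [WellFoundedLT W] [OrderBot W] [Om1 W]
variable {s : W → Stg W} {d be η al g' : W} {N : F W → ℝ} {a : ℝ} {n' m : ℕ} {J : F W → L}

theorem Hf.y_norm (h : Hf s d be η N a al g' n' m J) {x : F W} (hx : x ∈ X s d) :
    a * ‖x - P (s be) be x‖ ≤ N x := by
  rw [norm_sub_P (h.hs be h.bed).f1]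
  refine le_trans (mul_le_mul_of_nonneg_left (norm_R_mono ?_ x) h.ha.le) (h.F1 x hx)
  intro w hw
  exact h.hal.trans hw

theorem Hf.z_norm (h : Hf s d be η N a al g' n' m J) (x : F W) :
    ‖x - Pp (s be) be m x‖ = ‖x - P (s be) be x‖ := by
  rw [norm_sub_P (h.hs be h.bed).f1, Pp_norm h.hs h.h0 h.bed]

theorem Hf.z_mem (h : Hf s d be η N a al g' n' m J) {x : F W} (hx : x ∈ X s d) :
    Pp (s be) be m x ∈ X s d :=
  X_mono h.bed.le (Pp_mem h.hs h.h0 h.bed m hx)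

theorem Hf.N_sub (h : Hf s d be η N a al g' n' m J) {x : F W} (hx : x ∈ X s d) :
    N (x - Pp (s be) be m x) ≤ 2 * a * ‖x - P (s be) be x‖ := by
  rw [← h.z_norm]
  exact h.F2 _ (Submodule.sub_mem _ hx (h.z_mem hx)) (Pp_B h.hs h.h0 h.bed h.hg' h.hm x)

theorem Th_upper (h : Hf s d be η N a al g' n' m J) {x : F W} (hx : x ∈ X s d) :
    a * ‖Th J (s be) (s η) (s (sc η)) be η (sc η) m x‖ ≤ 6 * N x := by
  have ha := h.ha
  have e1 := h.y_norm hx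
  have e2 := h.N_sub hx
  have e3 := Vo_norm h.hs h.hη (x - P (s be) be x)
  have e4 : N (Pp (s be) be m x) ≤ N x + N (x - Pp (s be) be m x) := by
    have := h.hN.le_add (h.z_mem hx) hx
    have h2 : Pp (s be) be m x - x = -(x - Pp (s be) be m x) := by abel
    rw [h2, h.hN.neg (Submodule.sub_mem _ hx (h.z_mem hx))] at this
    exact this
  have e5 := h.Jnorm _ (Pp_mem h.hs h.h0 h.bed m hx)
  have e6 := Uo_norm h.hs h.hbe h.ηd (Vo (s (sc η)) η (sc η) (x - P (s be) be x))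
  have e7 := (Uo_norm h.hs h.hbe h.ηd (cns η (J (Pp (s be) be m x))
    (Vo (s (sc η)) η (sc η) (x - P (s be) be x)))).trans (cns_norm _ _ _)
  set y : F W := x - P (s be) be x with hy
  set z : F W := Pp (s be) be m x with hz
  set v : F W := Vo (s (sc η)) η (sc η) y with hv
  have e8 : ‖Th J (s be) (s η) (s (sc η)) be η (sc η) m x‖ ≤ ‖y‖ + ‖v‖ + max ‖J z‖ ‖v‖ := by
    rw [Th]
    refine (norm_add_le _ _).trans (add_le_add ((norm_sub_le _ _).trans ?_) e7)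
    exact add_le_add_right e6 _
  have e9 : a * ‖v‖ ≤ 2 * N x := by nlinarith
  have e10 : a * max ‖J z‖ ‖v‖ ≤ 3 * N x := by
    have hN0 : 0 ≤ N x := h.hN.nonneg hx
    rcases max_cases ‖J z‖ ‖v‖ with ⟨hm, -⟩ | ⟨hm, -⟩
    · rw [hm, e5]; linarith
    · rw [hm]; linarith
  calc a * ‖Th J (s be) (s η) (s (sc η)) be η (sc η) m x‖
      ≤ a * (‖y‖ + ‖v‖ + max ‖J z‖ ‖v‖) := mul_le_mul_of_nonneg_left e8 ha.le
    _ = a * ‖y‖ + a * ‖v‖ + a * max ‖J z‖ ‖v‖ := by ring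
    _ ≤ 6 * N x := by linarith

theorem Th_lower (h : Hf s d be η N a al g' n' m J) {x : F W} (hx : x ∈ X s d) :
    N x ≤ 12 * a * ‖Th J (s be) (s η) (s (sc η)) be η (sc η) m x‖ := by
  have ha := h.ha
  have hc := h.c_mem hx
  have hvm := h.V_mem hx
  have e2 := h.N_sub hx
  have e4 := h.hN.le_add hx (h.z_mem hx)
  have e5 := h.Jnorm _ (Pp_mem h.hs h.h0 h.bed m hx)
  have hT : Th J (s be) (s η) (s (sc η)) be η (sc η) m x =
    (x - P (s be) be x) - Uo (s be) (s η) be η (Vo (s (sc η)) η (sc η) (x - P (s be) be x)) +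
      Uo (s be) (s η) be η (cns η (J (Pp (s be) be m x))
        (Vo (s (sc η)) η (sc η) (x - P (s be) be x))) := rfl
  set w : F W := Th J (s be) (s η) (s (sc η)) be η (sc η) m x with hw
  set y : F W := x - P (s be) be x with hy
  set z : F W := Pp (s be) be m x with hz
  set v : F W := Vo (s (sc η)) η (sc η) y with hv
  set c : F W := cns η (J z) v with hcdef
  have hneg : ∀ u : F W, (-1 : ℝ) • u = -u := fun u => by ext v; simp
  have hVw : Vo (s (sc η)) η (sc η) w = c := by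
    have e : w = y + ((-1 : ℝ) • Uo (s be) (s η) be η v + Uo (s be) (s η) be η c) := by
      rw [hT, hneg]; abel
    rw [e, Vo_add, Vo_add, Vo_smul, Vo_Uo h.hbe hvm, Vo_Uo h.hbe hc, hneg, ← hv]
    abel
  have e6 : ‖c‖ ≤ 2 * ‖w‖ := by rw [← hVw]; exact Vo_norm h.hs h.hη w
  have e7 : ‖J z‖ ≤ ‖c‖ := by
    rw [← row_cns_zero η (J z) v]; exact row_norm η 0 c
  have e8 : ‖v‖ ≤ ‖c‖ := by
    have : tl η c = v := by
      ext u
      rw [tl_apply]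
      split_ifs with hu
      · rw [hcdef, cns_apply, if_pos rfl, if_neg (Nat.succ_ne_zero _)]
        congr 1
        ext
        · exact hu.symm
        · rfl
        · rfl
      · exact (hvm.1 u hu).symm
    rw [← this]; exact tl_norm η c
  have e9 : ‖y‖ ≤ ‖w‖ + ‖v - c‖ := by
    have : y = w + Uo (s be) (s η) be η (v + (-1 : ℝ) • c) := by
      rw [Uo_add, Uo_smul, hneg, hT]; abel
    have hvc : v - c = v + (-1 : ℝ) • c := by rw [hneg]; abel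
    calc ‖y‖ = ‖w + Uo (s be) (s η) be η (v + (-1 : ℝ) • c)‖ := by rw [← this]
      _ ≤ ‖w‖ + ‖Uo (s be) (s η) be η (v + (-1 : ℝ) • c)‖ := norm_add_le _ _
      _ ≤ ‖w‖ + ‖v - c‖ := by
        rw [hvc]; exact add_le_add_right (Uo_norm h.hs h.hbe h.ηd _) _
  have e10 : ‖v - c‖ ≤ ‖v‖ + ‖c‖ := norm_sub_le _ _
  have e11 : ‖y‖ ≤ 5 * ‖w‖ := by linarith
  have e12 : a * ‖J z‖ ≤ 2 * a * ‖w‖ := by nlinarith
  have e13 : 2 * a * ‖y‖ ≤ 10 * a * ‖w‖ := by nlinarith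
  linarith

end Pool.Agent.JO
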