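import Pool.Agent.Lib.JO.DUa

/-!
# Theorem D: the maps `U`, `V`

PROOFS.
`Wk_approx`: c ∈ Wk A η, ε > 0: m with ‖row n‖ ≤ ε for n ≥ m; c' := R {w | w.g = η ∧ w.n < m} c ∈ V A η, ‖c - c'‖ ≤ ε.
`e_Wk`: c ∈ Wk (s η).A η, η < h: e (s η) η c ∈ X s h: e (s η) η c' ∈ D s h (generator, b = η < h), ‖e c - e c'‖ = ‖R (c - c')‖ ≤ ε (`norm_e`): closure.
`Uo_mem`: e c ∈ X s h, `sub_P_X` (be < d), `P_P`.  `Uo_norm`: `norm_sub_P`, `norm_R_le`, `norm_e`.
`Vo_mem`: y ∈ X s d: P (s η') η' y ∈ X s η' (η' = sc η, `P_memX`). For v ∈ D s (sc η): R {w.g = η} v ∈ V (s η).A η: `D_last`: v = 0, or v = z + e_b(c), b ≤ η (`lt_sc_iff`): b = η: z vanishes at η, R v = R (e_η c) = c; b < η: R v = 0.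
  For v in the closure: R v has support in I_η, rows in A (`row_memX`, hd: η < d), and norms of the rows tend to 0: approximate by v' ∈ D: rows of v' ≥ m vanish, ‖row n v‖ ≤ ‖v - v'‖ for n ≥ m.
`Vo_norm`: `norm_R_le`, `norm_P_le`.
`Vo_Uo` : c ∈ Wk: P_{η'} (e c) = e c (`P_of_supp`: e_apply_gt, sc η ≤ w.g → η < w.g), P_{η'} (P_be v) = P_be v (supported below be ≤ η < η'), so V U c = R {I_η} (e c - P_be (e c)) = R {I_η} (e c) = c (P_be v vanishes at η ≥ be; `e_apply_eq`).
`cns_*`, `tl_*`: pointwise. `cns_mem`: row 0 = a, row (n+1) = row n v.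
-/

set_option autoImplicit false

open Set Filter Topology

namespace Pool.Agent.JO

variable {W : Type} [LinearOrder W] [WellFoundedLT W] [OrderBot W] [Om1 W] {s : W → Stg W} {d be η : W}

omit [WellFoundedLT W] [OrderBot W] [Om1 W] in
/-- truncation of `c ∈ Wk` to finitely many rows -/
private theorem Wk_approx {A : Submodule ℝ L} {c : F W} (hc : c ∈ Wk A η) {ε : ℝ} (hε : 0 < ε) :
    ∃ c' ∈ V A η, ‖c - c'‖ ≤ ε := by
  obtain ⟨h1, h2, h3⟩ := hc
  obtain ⟨m, hm⟩ := eventually_atTop.1 (h2.eventually (gt_mem_nhds hε))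
  refine ⟨R {w | w.g = η ∧ w.n < m} c, ⟨fun w hw => ?_, ⟨m, fun n hn k => ?_⟩, fun n => ?_⟩, ?_⟩
  · exact R_not_mem (S := {w | w.g = η ∧ w.n < m}) (fun h => hw h.1) c
  · exact R_not_mem (S := {w | w.g = η ∧ w.n < m}) (fun h => absurd h.2 (not_lt.2 hn)) c
  · rcases lt_or_ge n m with hn | hn
    · have : row η n (R {w | w.g = η ∧ w.n < m} c) = row η n c := by
        ext k
        exact R_mem (S := {w | w.g = η ∧ w.n < m}) (w := ⟨η, n, k⟩) ⟨rfl, hn⟩ c
      rw [this]; exact h3 n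
    · have : row η n (R {w | w.g = η ∧ w.n < m} c) = 0 := by
        ext k
        exact R_not_mem (S := {w | w.g = η ∧ w.n < m}) (w := ⟨η, n, k⟩) (fun h => absurd h.2 (not_lt.2 hn)) c
      rw [this]; exact A.zero_mem
  · refine norm_le_of hε.le fun w => ?_
    rw [BoundedContinuousFunction.sub_apply]
    by_cases hg : w.g = η
    · by_cases hn : w.n < m
      · rw [R_mem (S := {w | w.g = η ∧ w.n < m}) ⟨hg, hn⟩, sub_self, abs_zero]; exact hε.le
      · rw [R_not_mem (S := {w | w.g = η ∧ w.n < m}) (fun h => hn h.2), sub_zero]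
        have h4 := (hm w.n (not_lt.1 hn)).le
        have h5 : |c w| ≤ ‖row η w.n c‖ := by
          have := (row η w.n c).norm_coe_le_norm w.k
          rw [row_apply] at this
          have h6 : (⟨η, w.n, w.k⟩ : Om W) = w := by rw [← hg]
          rwa [h6] at this
        exact h5.trans h4
    · rw [R_not_mem (S := {w | w.g = η ∧ w.n < m}) (fun h => hg h.1), h1 w hg]
      simpa using hε.le

private theorem e_Wk (hs : Sys s d) {h : W} (hη : η < h) (hd : h ≤ d) {c : F W} (hc : c ∈ Wk (s η).A η) :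
    e (s η) η c ∈ X s h := by
  have hf := (hs η (hη.trans_le hd)).f1
  show e (s η) η c ∈ ((D s h).topologicalClosure : Set (F W))
  rw [Submodule.topologicalClosure_coe, Metric.mem_closure_iff]
  intro ε hε
  obtain ⟨c', hc', hcc⟩ := Wk_approx hc (half_pos hε)
  refine ⟨e (s η) η c', D_mono (sc_le_iff.2 hη) (e_mem hc'), ?_⟩
  rw [dist_eq_norm, ← map_sub, norm_e hf]
  exact ((norm_R_le _ _).trans hcc).trans_lt (half_lt_self hε)

theorem Uo_mem (hs : Sys s d) (hbe : be ≤ η) (hη : η < d) {c : F W} (hc : c ∈ Wk (s η).A η) :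
    Uo (s be) (s η) be η c ∈ X s d ∧ P (s be) be (Uo (s be) (s η) be η c) = 0 := by
  refine ⟨?_, ?_⟩
  · exact sub_P_X hs (hbe.trans_lt hη) (hbe.trans hη.le) le_rfl (e_Wk hs hη le_rfl hc)
  · rw [Uo, map_sub, P_P, sub_self]

theorem Uo_norm (hs : Sys s d) (hbe : be ≤ η) (hη : η < d) (c : F W) : ‖Uo (s be) (s η) be η c‖ ≤ ‖c‖ := by
  rw [Uo, norm_sub_P (hs be (hbe.trans_lt hη)).f1]
  refine (norm_R_le _ _).trans ?_
  rw [norm_e (hs η hη).f1]
  exact norm_R_le _ _

/-- the restriction to `I_η` of an element of `D s (sc η)` -/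
private theorem R_D {v : F W} (hv : v ∈ D s (sc η)) : R {w | w.g = η} v ∈ V (s η).A η := by
  rcases D_last hv with rfl | ⟨b, hb, z, hz, c, hc, rfl⟩
  · rw [map_zero]; exact Submodule.zero_mem _
  · rw [lt_sc_iff] at hb
    rcases eq_or_lt_of_le hb with rfl | hb
    · have : R {w | w.g = b} (z + e (s b) b c) = c := by
        ext w
        by_cases hw : w.g = b
        · rw [R_mem (S := {w | w.g = b}) hw, BoundedContinuousFunction.add_apply, D_supp hz hw.ge, e_apply_eq hw,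
            zero_add]
        · rw [R_not_mem (S := {w | w.g = b}) hw, hc.1 w hw]
      rw [this]; exact hc
    · have : R {w | w.g = η} (z + e (s b) b c) = 0 := by
        refine R_eq_zero fun w hw => ?_
        have hw' : w.g = η := hw
        rw [BoundedContinuousFunction.add_apply, D_supp hz (hb.le.trans hw'.ge), e_apply_gt (hb.trans_eq hw'.symm),
          zero_add]
      rw [this]; exact Submodule.zero_mem _

theorem Vo_mem (hs : Sys s d) (hη : sc η < d) {y : F W} (hy : y ∈ X s d) :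
    Vo (s (sc η)) η (sc η) y ∈ Wk (s η).A η := by
  have hv : P (s (sc η)) (sc η) y ∈ X s (sc η) := P_memX hs hη hη.le le_rfl hy
  rw [Vo]
  generalize P (s (sc η)) (sc η) y = v at hv
  have hηd : η < d := (lt_sc _).trans hη
  refine ⟨fun w hw => R_not_mem (S := {w | w.g = η}) hw v, ?_, fun n => ?_⟩
  · rw [Metric.tendsto_atTop]
    intro ε hε
    have hv' : v ∈ closure (D s (sc η) : Set (F W)) := by
      rw [← Submodule.topologicalClosure_coe]; exact hv
    obtain ⟨v', hv'D, hvv⟩ := Metric.mem_closure_iff.1 hv' ε hε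
    obtain ⟨-, ⟨m, hm⟩, -⟩ := R_D hv'D
    refine ⟨m, fun n hn => ?_⟩
    rw [Real.dist_eq, sub_zero, abs_of_nonneg (norm_nonneg _)]
    rw [dist_eq_norm] at hvv
    refine lt_of_le_of_lt ?_ hvv
    refine (BoundedContinuousFunction.norm_le (norm_nonneg _)).2 fun k => ?_
    rw [row_apply, R_mem (S := {w | w.g = η}) (w := ⟨η, n, k⟩) rfl]
    have h1 := hm n hn k
    rw [R_mem (S := {w | w.g = η}) (w := ⟨η, n, k⟩) rfl] at h1
    have h2 := abs_le_norm (v - v') ⟨η, n, k⟩
    rw [BoundedContinuousFunction.sub_apply, h1, sub_zero] at h2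
    exact h2
  · have h1 := row_memX hs hηd hη.le hv n
    have : row η n (R {w | w.g = η} v) = row η n v := by
      ext k
      exact R_mem (S := {w | w.g = η}) (w := ⟨η, n, k⟩) rfl v
    rw [this]; exact h1

theorem Vo_norm (hs : Sys s d) (hη : sc η < d) (y : F W) : ‖Vo (s (sc η)) η (sc η) y‖ ≤ 2 * ‖y‖ := by
  rw [Vo]
  exact (norm_R_le _ _).trans (norm_P_le (hs _ hη).f1)

theorem Vo_Uo (hbe : be ≤ η) {c : F W} (hc : c ∈ Wk (s η).A η) :
    Vo (s (sc η)) η (sc η) (Uo (s be) (s η) be η c) = c := by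
  have h1 : P (s (sc η)) (sc η) (Uo (s be) (s η) be η c) = Uo (s be) (s η) be η c := by
    refine P_of_supp fun w hw => ?_
    have hw' : η < w.g := (lt_sc _).trans_le hw
    rw [Uo, BoundedContinuousFunction.sub_apply, e_apply_gt hw', P_apply_ge (hbe.trans hw'.le), sub_zero]
  rw [Vo, h1]
  ext w
  by_cases hw : w.g = η
  · rw [R_mem (S := {w | w.g = η}) hw, Uo, BoundedContinuousFunction.sub_apply, e_apply_eq hw,
      P_apply_ge (hbe.trans hw.ge), sub_zero]
  · rw [R_not_mem (S := {w | w.g = η}) hw, hc.1 w hw]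

end Pool.Agent.JO
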