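import Pool.Agent.Lib.JO.DPp
import Pool.Agent.Lib.JO.DUV

/-!
# Theorem D: the assumptions for one map
-/

set_option autoImplicit false

open Set Filter Topology

namespace Pool.Agent.JO

variable {W : Type} [LinearOrder W] [WellFoundedLT W] [OrderBot W] [Om1 W]

/-- the assumptions for one map `T_k` -/
structure Hf (s : W → Stg W) (d be η : W) (N : F W → ℝ) (a : ℝ) (al g' : W) (n' m : ℕ) (J : F W → L) : Prop where
  hs : Sys s d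
  h0 : ⊥ < be
  hbe : be ≤ η
  hη : sc η < d
  hN : Sn (X s d) N
  ha : 0 < a
  hal : al ≤ be
  F1 : ∀ x ∈ X s d, a * ‖R {w | al ≤ w.g} x‖ ≤ N x
  hg' : g' < be
  F2 : ∀ y ∈ X s d, y ∈ B (s g') g' n' → N y ≤ 2 * a * ‖y‖
  hm : ∀ j, m ≤ j → (s be).y j ∈ B (s g') g' n'
  Jadd : ∀ x ∈ X s be, ∀ y ∈ X s be, J (x + y) = J x + J y
  Jsmul : ∀ (t : ℝ), ∀ x ∈ X s be, J (t • x) = t • J x
  Jnorm : ∀ x ∈ X s be, a * ‖J x‖ = N x
  Jmem : ∀ x ∈ X s be, J x ∈ (s η).A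
  Jsurj : ∀ v ∈ (s η).A, ∃ x ∈ X s be, J x = v

end Pool.Agent.JO
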