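import Pool.Agent.Lib.JO.DDf

/-!
# Theorem D: `cns`, `tl`, linearity of `U`, `V`

PROOFS.
`Wk_approx`: c ∈ Wk A η, ε > 0: m with ‖row n‖ ≤ ε for n ≥ m; c' := R {w | w.g = η ∧ w.n < m} c ∈ V A η, ‖c - c'‖ ≤ ε. (not needed here)
`cns_*`, `tl_*`: pointwise. `cns_mem`: row 0 = a, row (n+1) = row n v (`tendsto_add_atTop_iff_nat 1`).
-/

set_option autoImplicit false

open Set Filter Topology

namespace Pool.Agent.JO

section
variable {W : Type} [LinearOrder W]

theorem cns_apply (η : W) (a : L) (v : F W) (w : Om W) :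
    cns η a v w = if w.g = η then (if w.n = 0 then a w.k else v ⟨η, w.n - 1, w.k⟩) else 0 := rfl

theorem tl_apply (η : W) (v : F W) (w : Om W) :
    tl η v w = if w.g = η then v ⟨η, w.n + 1, w.k⟩ else 0 := rfl

theorem row_cns_zero (η : W) (a : L) (v : F W) : row η 0 (cns η a v) = a := by
  ext k
  rw [row_apply, cns_apply, if_pos rfl, if_pos rfl]

theorem row_cns_succ (η : W) (a : L) (v : F W) (n : ℕ) : row η (n + 1) (cns η a v) = row η n v := by
  ext k
  rw [row_apply, cns_apply, if_pos rfl, if_neg (Nat.succ_ne_zero n), row_apply]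
  rfl

theorem row_tl (η : W) (v : F W) (n : ℕ) : row η n (tl η v) = row η (n + 1) v := by
  ext k
  rw [row_apply, tl_apply, if_pos rfl, row_apply]

theorem cns_mem {A : Submodule ℝ L} {η : W} {a : L} {v : F W} (ha : a ∈ A) (hv : v ∈ Wk A η) : cns η a v ∈ Wk A η := by
  obtain ⟨h1, h2, h3⟩ := hv
  refine ⟨fun w hw => by rw [cns_apply, if_neg hw], ?_, fun n => ?_⟩
  · rw [← tendsto_add_atTop_iff_nat 1]
    simpa only [row_cns_succ] using h2
  · cases n with
    | zero => rw [row_cns_zero]; exact ha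
    | succ n => rw [row_cns_succ]; exact h3 n

theorem tl_mem {A : Submodule ℝ L} {η : W} {v : F W} (hv : v ∈ Wk A η) : tl η v ∈ Wk A η := by
  obtain ⟨h1, h2, h3⟩ := hv
  refine ⟨fun w hw => by rw [tl_apply, if_neg hw], ?_, fun n => ?_⟩
  · simp only [row_tl]
    exact (tendsto_add_atTop_iff_nat (f := fun n => ‖row η n v‖) 1).2 h2
  · rw [row_tl]; exact h3 _

theorem cns_row_tl {A : Submodule ℝ L} {η : W} {v : F W} (hv : v ∈ Wk A η) : cns η (row η 0 v) (tl η v) = v := by
  obtain ⟨h1, -, -⟩ := hv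
  ext w
  rw [cns_apply]
  split_ifs with hg hn
  · rw [row_apply]
    congr 1
    ext
    · exact hg.symm
    · exact hn.symm
    · rfl
  · rw [tl_apply, if_pos rfl]
    congr 1
    ext
    · exact hg.symm
    · show w.n - 1 + 1 = w.n
      omega
    · rfl
  · exact (h1 w hg).symm

theorem cns_norm (η : W) (a : L) (v : F W) : ‖cns η a v‖ ≤ max ‖a‖ ‖v‖ := by
  refine norm_le_of ((norm_nonneg _).trans (le_max_left _ _)) fun w => ?_
  rw [cns_apply]
  split_ifs
  · exact (a.norm_coe_le_norm _).trans (le_max_left _ _)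
  · exact (v.norm_coe_le_norm _).trans (le_max_right _ _)
  · rw [abs_zero]; exact (norm_nonneg _).trans (le_max_left _ _)

theorem tl_norm (η : W) (v : F W) : ‖tl η v‖ ≤ ‖v‖ := by
  refine norm_le_of (norm_nonneg _) fun w => ?_
  rw [tl_apply]
  split_ifs
  · exact v.norm_coe_le_norm _
  · rw [abs_zero]; exact norm_nonneg _

theorem row_norm (η : W) (n : ℕ) (v : F W) : ‖row η n v‖ ≤ ‖v‖ := by
  refine (BoundedContinuousFunction.norm_le (norm_nonneg _)).2 fun k => ?_
  exact v.norm_coe_le_norm _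

theorem cns_add (η : W) (a b : L) (v u : F W) : cns η (a + b) (v + u) = cns η a v + cns η b u := by
  ext w
  rw [BoundedContinuousFunction.add_apply, cns_apply, cns_apply, cns_apply]
  split_ifs
  · rfl
  · rfl
  · rw [add_zero]

theorem cns_smul (η : W) (r : ℝ) (a : L) (v : F W) : cns η (r • a) (r • v) = r • cns η a v := by
  ext w
  rw [BoundedContinuousFunction.smul_apply, cns_apply, cns_apply]
  split_ifs
  · rfl
  · rfl
  · rw [smul_zero]

theorem Uo_add (t tη : Stg W) (be η : W) (c c' : F W) : Uo t tη be η (c + c') = Uo t tη be η c + Uo t tη be η c' := by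
  rw [Uo, Uo, Uo, map_add, map_add]; abel

theorem Uo_smul (t tη : Stg W) (be η : W) (r : ℝ) (c : F W) : Uo t tη be η (r • c) = r • Uo t tη be η c := by
  rw [Uo, Uo, map_smul, map_smul, smul_sub]

theorem Vo_add (t : Stg W) (η η' : W) (x y : F W) : Vo t η η' (x + y) = Vo t η η' x + Vo t η η' y := by
  rw [Vo, Vo, Vo, map_add, map_add]

theorem Vo_smul (t : Stg W) (η η' : W) (r : ℝ) (x : F W) : Vo t η η' (r • x) = r • Vo t η η' x := by
  rw [Vo, Vo, map_smul, map_smul]

end

end Pool.Agent.JO
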