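import Mathlib

/-!
# Systems (MP_76005e_an, Part I): definitions

`W` is a well order of type `ω₁`. Everything happens in the space `F W` of bounded functions on
`Om W = W × ℕ × ℕ` with the sup norm. A *stage* consists of a closed separable subspace `A ≠ 0` of
`ℓ_∞(ℕ)` and a sequence `y j` of disjointly supported elements of `F W`, coded by one function `f` and
the index function `J` (`y j = f` on `{J = j}`, `0` elsewhere). A *system* `s : W → Stg W` gives the
subspaces `D s g` (algebraic) and `X s g` (their closures).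
-/

set_option autoImplicit false

open Set Filter Topology BoundedContinuousFunction

namespace Pool.Agent.JO

/-- together with `LinearOrder W`, `WellFoundedLT W`: `W` is a well order of type `ω₁` -/
class Om1 (W : Type) [LinearOrder W] : Prop where
  cnt : ∀ a : W, (Iio a).Countable
  bdd : ∀ s : Set W, s.Countable → ∃ b, ∀ x ∈ s, x < b

/-- the set of coordinates: stage `g`, row `n`, column `k` -/
@[ext] structure Om (W : Type) where
  g : W
  n : ℕ
  k : ℕ

instance (W : Type) : TopologicalSpace (Om W) := ⊥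
instance (W : Type) : DiscreteTopology (Om W) := ⟨rfl⟩

/-- bounded functions on `Om W` -/
abbrev F (W : Type) : Type := Om W →ᵇ ℝ

/-- bounded sequences -/
abbrev L : Type := ℕ →ᵇ ℝ

/-- the bounded function given by `f`, `|f| ≤ C` -/
def mk {α : Type} [TopologicalSpace α] [DiscreteTopology α] (f : α → ℝ) (C : ℝ)
    (h : ∀ w, |f w| ≤ C) : α →ᵇ ℝ :=
  BoundedContinuousFunction.ofNormedAddCommGroupDiscrete f C h

@[simp] theorem mk_apply {α : Type} [TopologicalSpace α] [DiscreteTopology α] (f : α → ℝ) (C : ℝ)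
    (h : ∀ w, |f w| ≤ C) (w : α) : mk f C h w = f w := rfl

/-! ### The enumeration -/

/-- every element of `ℕ × ℕ × Bool` is `ix j` for infinitely many `j` -/
def ix (j : ℕ) : ℕ × ℕ × Bool :=
  (Encodable.decode (α := ℕ × ℕ × Bool) (Nat.unpair j).1).getD (0, 0, true)

def nn (j : ℕ) : ℕ := (ix j).1
def kk (j : ℕ) : ℕ := (ix j).2.1
def ss (j : ℕ) : ℝ := if (ix j).2.2 then 1 else -1

theorem abs_ss (j : ℕ) : |ss j| = 1 := by
  unfold ss; split_ifs <;> simp

/-! ### Weighted compositions -/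

section
variable {W : Type}

/-- `x ↦ φ · (x ∘ ρ)` -/
noncomputable def wc (φ : F W) (ρ : Om W → Om W) : F W →L[ℝ] F W :=
  LinearMap.mkContinuous
    { toFun := fun x => φ * x.compContinuous ⟨ρ, continuous_of_discreteTopology⟩
      map_add' := fun x y => by ext w; simp [mul_add]
      map_smul' := fun c x => by ext w; simp; ring }
    ‖φ‖ (fun x => by
      refine (norm_mul_le _ _).trans ?_
      refine mul_le_mul_of_nonneg_left ?_ (norm_nonneg _)
      exact (BoundedContinuousFunction.norm_le (norm_nonneg _)).2 fun w => x.norm_coe_le_norm _)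

theorem wc_apply (φ : F W) (ρ : Om W → Om W) (x : F W) (w : Om W) :
    wc φ ρ x w = φ w * x (ρ w) := rfl

open Classical in
/-- the indicator function of `S` -/
noncomputable def ind (S : Set (Om W)) : F W :=
  mk (fun w => if w ∈ S then 1 else 0) 1 (fun w => by split_ifs <;> simp)

/-- restriction to `S` -/
noncomputable def R (S : Set (Om W)) : F W →L[ℝ] F W := wc (ind S) id

open Classical in
theorem R_apply (S : Set (Om W)) (x : F W) (w : Om W) : R S x w = if w ∈ S then x w else 0 := by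
  rw [R, wc_apply, ind, mk_apply]; split_ifs <;> simp

/-- a stage: the space `A`, the blocks `y j = f` on `{J = j}` -/
structure Stg (W : Type) where
  A : Submodule ℝ L
  f : F W
  J : Om W → ℕ

/-- the blocks -/
noncomputable def Stg.y (t : Stg W) (j : ℕ) : F W := R {w | t.J w = j} t.f

variable [LinearOrder W]

open Classical in
/-- `E_g(c) = ∑ j, ss j * c (g, nn j, kk j) * y j` (pointwise), on the coordinates `< g` -/
noncomputable def E (t : Stg W) (g : W) : F W →L[ℝ] F W :=
  wc (mk (fun w => if w.g < g then ss (t.J w) * t.f w else 0) ‖t.f‖ (fun w => by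
    split_ifs
    · rw [abs_mul, abs_ss, one_mul]; exact t.f.norm_coe_le_norm w
    · simp)) (fun w => ⟨g, nn (t.J w), kk (t.J w)⟩)

open Classical in
theorem E_apply (t : Stg W) (g : W) (c : F W) (w : Om W) :
    E t g c w = if w.g < g then ss (t.J w) * t.f w * c ⟨g, nn (t.J w), kk (t.J w)⟩ else 0 := by
  rw [E, wc_apply, mk_apply]; split_ifs <;> simp

/-- `e_g(c) = c|I_g + E_g(c)` -/
noncomputable def e (t : Stg W) (g : W) : F W →L[ℝ] F W := R {w | w.g = g} + E t g

/-- `P_g x = x|_{<g} - E_g(x)` -/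
noncomputable def P (t : Stg W) (g : W) : F W →L[ℝ] F W := R {w | w.g < g} - E t g

/-- the `n`-th row of `x` at `g` -/
noncomputable def row (g : W) (n : ℕ) (x : F W) : L :=
  mk (fun k => x ⟨g, n, k⟩) ‖x‖ (fun _ => x.norm_coe_le_norm _)

omit [LinearOrder W] in
@[simp] theorem row_apply (g : W) (n : ℕ) (x : F W) (k : ℕ) : row g n x k = x ⟨g, n, k⟩ := rfl

/-- functions on `I_g` with finitely many nonzero rows, all of them in `A` -/
def V (A : Submodule ℝ L) (g : W) : Submodule ℝ (F W) where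
  carrier := {c | (∀ w, w.g ≠ g → c w = 0) ∧ (∃ m, ∀ n, m ≤ n → ∀ k, c ⟨g, n, k⟩ = 0) ∧
    ∀ n, row g n c ∈ A}
  add_mem' := by
    rintro c d ⟨h1, ⟨m, hm⟩, h3⟩ ⟨h1', ⟨m', hm'⟩, h3'⟩
    refine ⟨fun w hw => ?_, ⟨max m m', fun n hn k => ?_⟩, fun n => ?_⟩
    · simp [h1 w hw, h1' w hw]
    · simp [hm n (le_of_max_le_left hn) k, hm' n (le_of_max_le_right hn) k]
    · exact A.add_mem (h3 n) (h3' n)
  zero_mem' := ⟨fun _ _ => rfl, ⟨0, fun _ _ _ => rfl⟩, fun _ => A.zero_mem⟩
  smul_mem' := by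
    rintro a c ⟨h1, ⟨m, hm⟩, h3⟩
    refine ⟨fun w hw => ?_, ⟨m, fun n hn k => ?_⟩, fun n => ?_⟩
    · simp [h1 w hw]
    · simp [hm n hn k]
    · exact A.smul_mem a (h3 n)

/-- the algebraic span of `e_b(V_b)`, `b < g` -/
noncomputable def D (s : W → Stg W) (g : W) : Submodule ℝ (F W) :=
  Submodule.span ℝ {x | ∃ b < g, ∃ c ∈ V (s b).A b, x = e (s b) b c}

/-- the space of the system at `g` -/
noncomputable def X (s : W → Stg W) (g : W) : Submodule ℝ (F W) := (D s g).topologicalClosure

/-- the `x` with `P_g x = 0` and rows `< n` at `g` equal to zero -/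
def B (t : Stg W) (g : W) (n : ℕ) : Submodule ℝ (F W) where
  carrier := {x | P t g x = 0 ∧ ∀ m < n, ∀ k, x ⟨g, m, k⟩ = 0}
  add_mem' := by
    rintro x y ⟨h1, h2⟩ ⟨h1', h2'⟩
    exact ⟨by rw [map_add, h1, h1', add_zero], fun m hm k => by simp [h2 m hm k, h2' m hm k]⟩
  zero_mem' := ⟨map_zero _, fun _ _ _ => rfl⟩
  smul_mem' := by
    rintro a x ⟨h1, h2⟩
    exact ⟨by rw [map_smul, h1, smul_zero], fun m hm k => by simp [h2 m hm k]⟩

/-- disjoint supports -/
def Dj (x y : F W) : Prop := ∀ w, x w = 0 ∨ y w = 0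

/-- `t` is a good stage at `g` over the system `s` (only `s b`, `b < g`, matter) -/
structure Gd [OrderBot W] (s : W → Stg W) (g : W) (t : Stg W) : Prop where
  cl : IsClosed (t.A : Set L)
  sep : TopologicalSpace.IsSeparable (t.A : Set L)
  ne : t.A ≠ ⊥
  f1 : ‖t.f‖ ≤ 1
  mem : ⊥ < g → ∀ j, t.y j ∈ D s g
  ev : ∀ b < g, ∀ n, ∀ᶠ j in atTop, t.y j ∈ B (s b) b n
  lim : ⊥ < g → Tendsto (fun j => ‖t.y j‖) atTop (𝓝 1)

/-- successors in `W` -/
noncomputable def sc [WellFoundedLT W] [Om1 W] (g : W) : W :=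
  WellFounded.min (wellFounded_lt (α := W)) (Ioi g)
    (by obtain ⟨b, hb⟩ := Om1.bdd {g} (countable_singleton g); exact ⟨b, hb g rfl⟩)

theorem lt_sc [WellFoundedLT W] [Om1 W] (g : W) : g < sc g :=
  WellFounded.min_mem (wellFounded_lt (α := W)) (Ioi g) _

theorem sc_le_iff [WellFoundedLT W] [Om1 W] {g h : W} : sc g ≤ h ↔ g < h :=
  ⟨fun H => (lt_sc g).trans_le H, fun H => WellFounded.min_le (wellFounded_lt (α := W)) H⟩

theorem lt_sc_iff [WellFoundedLT W] [Om1 W] {g h : W} : h < sc g ↔ h ≤ g := by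
  rw [← not_le, sc_le_iff, not_lt]

/-- the system is good below `d` -/
def Sys [OrderBot W] (s : W → Stg W) (d : W) : Prop := ∀ g < d, Gd s g (s g)

/-- a condition: a countable good system -/
structure Cond (W : Type) [LinearOrder W] [OrderBot W] where
  d : W
  s : W → Stg W
  pos : ⊥ < d
  gd : Sys s d

instance [OrderBot W] : Preorder (Cond W) where
  le q p := p.d ≤ q.d ∧ ∀ g < p.d, q.s g = p.s g
  le_refl p := ⟨le_rfl, fun _ _ => rfl⟩
  le_trans r q p h1 h2 := ⟨h2.1.trans h1.1, fun g hg => (h1.2 g (hg.trans_le h2.1)).trans (h2.2 g hg)⟩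

end

end Pool.Agent.JO
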