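import Pool.Agent.Lib.JO.Op

/-!
# Disjointness (L2.2, L2.7)

PROOFS.
`dj_e`: pointwise at w. `w.g < g`: `x w = E t g x w = ss f x⟨g, nn J, kk J⟩` (`B_apply_lt`), `e t g c w = ss f c⟨g, nn J, kk J⟩`;
 if `nn J < n` the first is 0 (`hx.2`), otherwise the second. `w.g = g`, w = ⟨g, m, k⟩: `x w = 0` if `m < n`, `e t g c w = c w = 0` if `n ≤ m`.
 `g < w.g`: `e_apply_gt`.
`dj_D`: `Submodule.span_induction`. Generator `e (s b) b c`, `c ∈ V`, rows `≥ m` zero: G = {(b, m)}, `dj_e`. Zero: G = ∅. Sum: union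
 (`Dj.add_right`). Smul: same G. (DecidableEq: `classical`.)
`dj_ev`: from `dj_D`: a finite conjunction of eventual statements.
-/

set_option autoImplicit false

open Set Filter Topology

namespace Pool.Agent.JO

section
variable {W : Type}

theorem Dj.symm {x y : F W} (h : Dj x y) : Dj y x := fun w => (h w).symm

theorem Dj.add_right {x y z : F W} (h : Dj x y) (h' : Dj x z) : Dj x (y + z) := by
  intro w
  rcases h w with h1 | h1
  · exact Or.inl h1
  · rcases h' w with h2 | h2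
    · exact Or.inl h2
    · refine Or.inr ?_
      rw [BoundedContinuousFunction.add_apply, h1, h2, add_zero]

theorem Dj.smul_right {x y : F W} (h : Dj x y) (a : ℝ) : Dj x (a • y) := by
  intro w
  rcases h w with h1 | h1
  · exact Or.inl h1
  · refine Or.inr ?_
    rw [BoundedContinuousFunction.smul_apply, h1, smul_zero]

theorem Dj.zero_right (x : F W) : Dj x 0 := fun _ => Or.inr rfl

end

variable {W : Type} [LinearOrder W]

theorem dj_e {t : Stg W} {g : W} {n : ℕ} {x c : F W} (hx : x ∈ B t g n)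
    (hc : ∀ m, n ≤ m → ∀ k, c ⟨g, m, k⟩ = 0) : Dj x (e t g c) := by
  intro w
  rcases lt_trichotomy w.g g with hw | hw | hw
  · by_cases hn : nn (t.J w) < n
    · refine Or.inl ?_
      rw [B_apply_lt hx hw, E_apply_lt hw, hx.2 _ hn, mul_zero]
    · refine Or.inr ?_
      rw [e_apply_lt hw, hc _ (not_lt.1 hn), mul_zero]
  · obtain ⟨a, m, k⟩ := w
    simp only at hw
    subst hw
    by_cases hn : m < n
    · exact Or.inl (hx.2 m hn k)
    · refine Or.inr ?_
      rw [e_apply_eq (w := ⟨a, m, k⟩) rfl]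
      exact hc m (not_lt.1 hn) k
  · exact Or.inr (e_apply_gt hw)

theorem dj_D {s : W → Stg W} {g : W} {v : F W} (hv : v ∈ D s g) :
    ∃ G : Finset (W × ℕ), (∀ p ∈ G, p.1 < g) ∧ ∀ x, (∀ p ∈ G, x ∈ B (s p.1) p.1 p.2) → Dj x v := by
  classical
  unfold D at hv
  induction hv using Submodule.span_induction with
  | mem v hv =>
    obtain ⟨b, hb, c, hc, rfl⟩ := hv
    obtain ⟨-, ⟨m, hm⟩, -⟩ := hc
    refine ⟨{(b, m)}, ?_, fun x hx => ?_⟩
    · intro p hp
      rw [Finset.mem_singleton.1 hp]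
      exact hb
    · exact dj_e (hx (b, m) (Finset.mem_singleton_self _)) hm
  | zero => exact ⟨∅, fun p hp => absurd hp (Finset.notMem_empty p), fun x _ => Dj.zero_right x⟩
  | add v v' _ _ h1 h2 =>
    obtain ⟨G, hG, hG'⟩ := h1
    obtain ⟨H, hH, hH'⟩ := h2
    refine ⟨G ∪ H, fun p hp => ?_, fun x hx => ?_⟩
    · rcases Finset.mem_union.1 hp with h | h
      · exact hG p h
      · exact hH p h
    · exact (hG' x fun p hp => hx p (Finset.mem_union_left _ hp)).add_right
        (hH' x fun p hp => hx p (Finset.mem_union_right _ hp))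
  | smul a v _ h =>
    obtain ⟨G, hG, hG'⟩ := h
    exact ⟨G, hG, fun x hx => (hG' x hx).smul_right a⟩

theorem dj_ev {s : W → Stg W} {g : W} {v : F W} (hv : v ∈ D s g) {y : ℕ → F W}
    (hy : ∀ b < g, ∀ n, ∀ᶠ j in atTop, y j ∈ B (s b) b n) : ∀ᶠ j in atTop, Dj (y j) v := by
  obtain ⟨G, hG, hG'⟩ := dj_D hv
  have h1 : ∀ᶠ j in atTop, ∀ p ∈ G, y j ∈ B (s p.1) p.1 p.2 := by
    rw [Filter.eventually_all_finset]
    exact fun p hp => hy p.1 (hG p hp) p.2
  exact h1.mono fun j hj => hG' _ hj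

/-- different blocks of a stage are disjoint -/
theorem y_dj (t : Stg W) {i j : ℕ} (h : i ≠ j) : Dj (t.y i) (t.y j) := by
  intro w
  by_cases hw : t.J w = i
  · exact Or.inr (y_apply_neg fun hj => h (hw.symm.trans hj))
  · exact Or.inl (y_apply_neg hw)

end Pool.Agent.JO
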