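import Pool.Agent.Lib.JO.Snm

/-!
# Isometric embedding of a separable space into `ℓ_∞(ℕ)`

PROOF. Y ≠ ∅ separable: a sequence (x_k) in Y, dense in Y (e.g. `TopologicalSpace.IsSeparable` → countable dense subset of Y; Y nonempty). For each k a linear functional f_k on Y (or on the span) with
 f_k (x_k) = N x_k and |f_k x| ≤ N x for x ∈ Y: Hahn-Banach for the sublinear functional N on the vector space Y: `exists_extension_of_le_sublinear` (start with the functional t x_k ↦ t N x_k on the line;
 or use the normed space Y with the norm N: construct `SeminormedAddCommGroup` from N and `exists_dual_vector''`); f_k x ≤ N x and f_k (-x) ≤ N (-x) = N x.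
 J x := mk (fun k => f_k x) (N x) _ for x ∈ Y (0 outside Y). ‖J x‖ ≤ N x, and ‖J x‖ ≥ |f_k x| ≥ f_k x_k - |f_k (x_k - x)| ≥ N x_k - N (x_k - x) ≥ N x - 2 N (x - x_k), N (x - x_k) ≤ C ‖x - x_k‖ → 0.
 A := image of Y (Submodule.map of a linear map Y → L, or by hand). Separable: J is Lipschitz on Y (‖J x - J y‖ = N (x - y) ≤ C ‖x - y‖): image of a separable set under a continuous map on Y.
 Closed: complete: if J x_n → v then (x_n) is Cauchy (c ‖x_n - x_m‖ ≤ N (x_n - x_m) = ‖J x_n - J x_m‖), x_n → x ∈ Y (Y closed in the complete space F), J x = v.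
-/

set_option autoImplicit false

open Set Filter Topology

namespace Pool.Agent.JO

private theorem Emb_functional {E : Type} [AddCommGroup E] [Module ℝ E] (N : E → ℝ)
    (Nadd : ∀ x y, N (x + y) ≤ N x + N y) (Nsmul : ∀ (t : ℝ) x, N (t • x) = |t| * N x)
    (Nnn : ∀ x, 0 ≤ N x) (y : E) : ∃ f : E →ₗ[ℝ] ℝ, f y = N y ∧ ∀ x, |f x| ≤ N x := by
  have habs : ∀ f : E →ₗ[ℝ] ℝ, (∀ x, f x ≤ N x) → ∀ x, |f x| ≤ N x := by
    intro f hf x
    rw [abs_le]
    refine ⟨?_, hf x⟩
    have h1 := hf (-x)
    have h2 : N (-x) = N x := by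
      have := Nsmul (-1) x
      rw [neg_one_smul, abs_neg, abs_one, one_mul] at this
      exact this
    rw [map_neg, h2] at h1
    linarith
  by_cases hy : y = 0
  · refine ⟨0, ?_, fun x => by simpa using Nnn x⟩
    have := Nsmul 0 y
    rw [zero_smul, abs_zero, zero_mul] at this
    rw [hy, this]
    simp
  · set f : E →ₗ.[ℝ] ℝ := LinearPMap.mkSpanSingleton y (N y) hy with hf
    obtain ⟨g, hg1, hg2⟩ := exists_extension_of_le_sublinear f N
      (fun t ht x => by rw [Nsmul, abs_of_pos ht]) Nadd (by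
        rintro ⟨x, hx⟩
        have hx' : x ∈ Submodule.span ℝ {y} := hx
        obtain ⟨t, rfl⟩ := Submodule.mem_span_singleton.1 hx'
        have h1 : f ⟨t • y, hx⟩ = t • N y :=
          LinearPMap.mkSpanSingleton'_apply y (N y) _ t hx
        rw [h1, Nsmul, smul_eq_mul]
        exact mul_le_mul_of_nonneg_right (le_abs_self t) (Nnn y))
    refine ⟨g, ?_, habs g hg2⟩
    have h2 := hg1 ⟨y, Submodule.mem_span_singleton_self y⟩
    exact h2.trans (LinearPMap.mkSpanSingleton'_apply_self y (N y) _ _)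

theorem exists_emb {F : Type} [NormedAddCommGroup F] [NormedSpace ℝ F] [CompleteSpace F] {Y : Submodule ℝ F}
    (cl : IsClosed (Y : Set F)) (sep : TopologicalSpace.IsSeparable (Y : Set F)) {N : F → ℝ} (hN : Sn Y N)
    {c C : ℝ} (hc : 0 < c) (h1 : ∀ x ∈ Y, c * ‖x‖ ≤ N x) (h2 : ∀ x ∈ Y, N x ≤ C * ‖x‖) :
    ∃ (J : F → L) (A : Submodule ℝ L), IsClosed (A : Set L) ∧ TopologicalSpace.IsSeparable (A : Set L) ∧
      (∀ x ∈ Y, ∀ y ∈ Y, J (x + y) = J x + J y) ∧ (∀ (t : ℝ), ∀ x ∈ Y, J (t • x) = t • J x) ∧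
      (∀ x ∈ Y, ‖J x‖ = N x) ∧ (∀ x ∈ Y, J x ∈ A) ∧ ∀ v ∈ A, ∃ x ∈ Y, J x = v := by
  classical
  have : TopologicalSpace.SeparableSpace Y := sep.separableSpace
  have : CompleteSpace Y := cl.completeSpace_coe
  set M : Y → ℝ := fun x => N (x : F) with hM
  have Madd : ∀ x y : Y, M (x + y) ≤ M x + M y := fun x y => hN.add x x.2 y y.2
  have Msmul : ∀ (t : ℝ) (x : Y), M (t • x) = |t| * M x := fun t x => hN.smul t x x.2
  have Mnn : ∀ x : Y, 0 ≤ M x := fun x => hN.nonneg x.2
  have Mneg : ∀ x y : Y, M (x - y) = M (y - x) := by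
    intro x y
    have := Msmul (-1) (y - x)
    rw [neg_one_smul, neg_sub, abs_neg, abs_one, one_mul] at this
    exact this
  set u : ℕ → Y := TopologicalSpace.denseSeq Y with hu
  have hdense : DenseRange u := TopologicalSpace.denseRange_denseSeq Y
  choose f hf1 hf2 using fun k => Emb_functional M Madd Msmul Mnn (u k)
  set Jl : Y →ₗ[ℝ] L :=
    { toFun := fun x => mk (fun k => f k x) (M x) (fun k => hf2 k x)
      map_add' := fun x y => by ext k; simp
      map_smul' := fun t x => by ext k; simp } with hJl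
  have Jap : ∀ (x : Y) (k : ℕ), Jl x k = f k x := fun x k => rfl
  have hnorm : ∀ x : Y, ‖Jl x‖ = M x := by
    intro x
    apply le_antisymm
    · exact (BoundedContinuousFunction.norm_le (Mnn x)).2 (fun k => hf2 k x)
    · refine le_of_forall_pos_le_add (fun ε hε => ?_)
      have hpos : 0 < ε / (2 * (|C| + 1)) := by positivity
      obtain ⟨k, hk⟩ := hdense.exists_dist_lt x hpos
      have e1 : |f k x| ≤ ‖Jl x‖ := by
        have := (Jl x).norm_coe_le_norm k
        rwa [Jap] at this
      have e2 : M (x - u k) ≤ ε / 2 := by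
        have h3 := h2 ((x - u k : Y) : F) (x - u k : Y).2
        have h4 : ‖((x - u k : Y) : F)‖ = dist x (u k) := by
          rw [dist_eq_norm]
          rfl
        rw [h4] at h3
        have h5 : C * dist x (u k) ≤ (|C| + 1) * (ε / (2 * (|C| + 1))) := by
          refine mul_le_mul (by linarith [le_abs_self C]) hk.le dist_nonneg (by positivity)
        have h6 : (|C| + 1) * (ε / (2 * (|C| + 1))) = ε / 2 := by
          have : (|C| + 1) ≠ 0 := by positivity
          field_simp
        linarith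
      have e3 : M x ≤ M (u k) + M (x - u k) := by
        have := Madd (u k) (x - u k)
        rwa [add_sub_cancel] at this
      have e4 : f k (u k) = f k x + f k (u k - x) := by
        rw [map_sub]
        ring
      have e5 : f k (u k - x) ≤ M (x - u k) := by
        rw [Mneg]
        exact (le_abs_self _).trans (hf2 k _)
      have e6 := le_abs_self (f k x)
      rw [hf1] at e4
      linarith
  set Jc : Y →L[ℝ] L := Jl.mkContinuous C (fun x => by
    rw [hnorm]
    exact h2 x x.2) with hJc
  have hJcJl : ∀ x, Jc x = Jl x := fun x => rfl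
  have hanti : AntilipschitzWith ⟨c⁻¹, by positivity⟩ Jc := by
    refine AddMonoidHomClass.antilipschitz_of_bound Jc (fun x => ?_)
    rw [hJcJl, hnorm]
    have h3 := h1 x x.2
    have h4 : ‖(x : F)‖ = ‖x‖ := rfl
    rw [h4] at h3
    change ‖x‖ ≤ c⁻¹ * M x
    rw [inv_mul_eq_div, le_div_iff₀ hc, mul_comm]
    exact h3
  refine ⟨fun x => if h : x ∈ Y then Jl ⟨x, h⟩ else 0, LinearMap.range Jl, ?_, ?_, ?_, ?_, ?_, ?_, ?_⟩
  · have : (LinearMap.range Jl : Set L) = Set.range Jc := by
      ext v
      simp [hJcJl]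
    rw [this]
    exact hanti.isClosed_range Jc.uniformContinuous
  · have : (LinearMap.range Jl : Set L) = Set.range Jc := by
      ext v
      simp [hJcJl]
    rw [this]
    exact TopologicalSpace.isSeparable_range Jc.continuous
  · intro x hx y hy
    simp only [dif_pos hx, dif_pos hy, dif_pos (Y.add_mem hx hy)]
    rw [← map_add]
    rfl
  · intro t x hx
    simp only [dif_pos hx, dif_pos (Y.smul_mem t hx)]
    rw [← map_smul]
    rfl
  · intro x hx
    simp only [dif_pos hx]
    exact hnorm ⟨x, hx⟩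
  · intro x hx
    simp only [dif_pos hx]
    exact ⟨_, rfl⟩
  · rintro v ⟨x, rfl⟩
    refine ⟨x, x.2, ?_⟩
    simp only [dif_pos x.2]

end Pool.Agent.JO
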