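import Pool.Agent.Lib.JO.Defs

/-!
# The enumeration `ix`

Every value of `ix` is taken infinitely often: `ix (Nat.pair (Encodable.encode v) N) = v`, and
`N ≤ Nat.pair a N` (`Nat.right_le_pair`).
-/

set_option autoImplicit false

open Set Filter Topology

namespace Pool.Agent.JO

theorem ix_freq (v : ℕ × ℕ × Bool) : ∃ᶠ j in atTop, ix j = v := by
  rw [frequently_atTop]
  intro N
  refine ⟨Nat.pair (Encodable.encode v) N, Nat.right_le_pair _ _, ?_⟩
  simp [ix]

theorem ss_cases (j : ℕ) : ss j = 1 ∨ ss j = -1 := by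
  unfold ss; split_ifs <;> simp

theorem ss_mul_ss (j : ℕ) : ss j * ss j = 1 := by
  rcases ss_cases j with h | h <;> rw [h] <;> norm_num

/-- `(n, k)` with the sign making `ss j * t` nonnegative is frequent -/
theorem nks_abs (n k : ℕ) (t : ℝ) : ∃ᶠ j in atTop, nn j = n ∧ kk j = k ∧ ss j * t = |t| := by
  rcases le_total 0 t with h | h
  · refine (ix_freq (n, k, true)).mono fun j hj => ⟨by simp [nn, hj], by simp [kk, hj], ?_⟩
    simp [ss, hj, abs_of_nonneg h]
  · refine (ix_freq (n, k, false)).mono fun j hj => ⟨by simp [nn, hj], by simp [kk, hj], ?_⟩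
    simp [ss, hj, abs_of_nonpos h]

theorem nks_neg (n k : ℕ) (t : ℝ) : ∃ᶠ j in atTop, nn j = n ∧ kk j = k ∧ ss j * t = -|t| := by
  refine (nks_abs n k (-t)).mono fun j hj => ⟨hj.1, hj.2.1, ?_⟩
  have := hj.2.2
  rw [abs_neg] at this
  linarith

/-- an eventual property of `j` holds as soon as `nn j` is large -/
theorem ev_nn {p : ℕ → Prop} (h : ∀ᶠ j in atTop, p j) : ∃ m, ∀ j, m ≤ nn j → p j := by
  obtain ⟨N, hN⟩ := eventually_atTop.1 h
  refine ⟨(Finset.range N).sup nn + 1, fun j hj => hN j ?_⟩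
  by_contra hlt
  have := Finset.le_sup (f := nn) (Finset.mem_range.2 (not_le.1 hlt))
  omega

end Pool.Agent.JO
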