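import Pool.Agent.Lib.JO.Cnd

/-!
# Fusion (A4)

PROOF.
`fusion`: recursion on states (p, H, T, y): p ∈ DD, p ≤ p1, H : Finset W with all elements < p.d, T : Set (F W) finite, contained in D p.s p.d, y : F W. Step i: `h p i (H.image (fun b => (b, i))) T` gives q, y';
 new state (q, insert p.d H, insert y' T, y'). `r i` = first component of state i, `y i` = last component of state i+1. So H_i ∋ (r l).d and T_i ∋ y l for all l < i. Antitone by `antitone_nat_of_succ_le`.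
 Last claim: b < (lm r).d. There is l with b < (r l).d =: g (`lm_lub`). g < (r (l+1)).d ≤ (lm r).d, so `B_nest` at the stage g of (lm r).s gives m with `B ((lm r).s g) g m ≤ B ((lm r).s b) b n`. For j ≥ max (l+1) m:
 (g, j) ∈ G_j, so `y j ∈ B ((r j).s g) g j = B ((lm r).s g) g j ≤ B ((lm r).s g) g m` (g < (r j).d; (lm r).s = (r j).s below (r j).d; `B_anti`).
 Disjointness: i < j: y i ∈ T_j, so Dj (y j) (y i).
-/

set_option autoImplicit false

open Set Filter Topology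

namespace Pool.Agent.JO

variable {W : Type} [LinearOrder W] [WellFoundedLT W] [OrderBot W] [Om1 W]

/-- the states of the recursion -/
private structure FS (DD : Set (Cond W)) (p1 : Cond W) where
  p : Cond W
  H : Finset W
  T : Set (F W)
  y : F W
  hp : p ∈ DD
  hle : p ≤ p1
  hH : ∀ b ∈ H, b < p.d
  hT : T.Finite
  hTD : ∀ v ∈ T, v ∈ D p.s p.d

theorem fusion {DD : Set (Cond W)} {p1 : Cond W} (hp1 : p1 ∈ DD) (St : Cond W → ℕ → Cond W → F W → Prop)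
    (h : ∀ p ∈ DD, p ≤ p1 → ∀ (i : ℕ) (G : Finset (W × ℕ)), (∀ b ∈ G, b.1 < p.d) →
      ∀ T : Set (F W), T.Finite → (∀ v ∈ T, v ∈ D p.s p.d) →
        ∃ q ∈ DD, q ≤ p ∧ p.d < q.d ∧ ∃ y ∈ D q.s q.d, ‖y‖ ≤ 1 ∧ (∀ b ∈ G, y ∈ B (p.s b.1) b.1 b.2) ∧
          (∀ v ∈ T, Dj y v) ∧ St p i q y) :
    ∃ (r : ℕ → Cond W) (y : ℕ → F W), Antitone r ∧ r 0 = p1 ∧ (∀ i, r i ∈ DD) ∧
      (∀ i, (r i).d < (r (i + 1)).d) ∧ (∀ i, y i ∈ D (r (i + 1)).s (r (i + 1)).d) ∧ (∀ i, ‖y i‖ ≤ 1) ∧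
      (∀ i j, i ≠ j → Dj (y i) (y j)) ∧ (∀ i, St (r i) i (r (i + 1)) (y i)) ∧
      ∀ b < (lm r).d, ∀ n, ∀ᶠ j in atTop, y j ∈ B ((lm r).s b) b n := by
  classical
  have step : ∀ (σ : FS DD p1) (i : ℕ), ∃ τ : FS DD p1, τ.p ≤ σ.p ∧ σ.p.d < τ.p.d ∧
      τ.y ∈ D τ.p.s τ.p.d ∧ ‖τ.y‖ ≤ 1 ∧ (∀ b ∈ σ.H, τ.y ∈ B (σ.p.s b) b i) ∧
      (∀ v ∈ σ.T, Dj τ.y v) ∧ St σ.p i τ.p τ.y ∧ τ.H = insert σ.p.d σ.H ∧
      τ.T = insert τ.y σ.T := by
    intro σ i
    obtain ⟨q, hq, hqp, hlt, y, hy, hy1, hyB, hyT, hSt⟩ := h σ.p σ.hp σ.hle i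
      (σ.H.image fun b => (b, i)) (fun b hb => by
        obtain ⟨a, ha, rfl⟩ := Finset.mem_image.1 hb
        exact σ.hH a ha) σ.T σ.hT σ.hTD
    refine ⟨⟨q, insert σ.p.d σ.H, insert y σ.T, y, hq, hqp.trans σ.hle, ?_, σ.hT.insert y, ?_⟩,
      hqp, hlt, hy, hy1, fun b hb => ?_, hyT, hSt, rfl, rfl⟩
    · intro b hb
      rcases Finset.mem_insert.1 hb with h1 | h1
      · rw [h1]; exact hlt
      · exact (σ.hH b h1).trans hlt
    · intro v hv
      rcases hv with h1 | h1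
      · rw [h1]; exact hy
      · exact D_sub hqp (σ.hTD v h1)
    · exact hyB (b, i) (Finset.mem_image.2 ⟨b, hb, rfl⟩)
  choose f hf1 hf2 hf3 hf4 hf5 hf6 hf7 hf8 hf9 using step
  let σ : ℕ → FS DD p1 := fun n => Nat.rec
    ⟨p1, ∅, ∅, 0, hp1, le_rfl, fun b hb => absurd hb (Finset.notMem_empty b), Set.finite_empty,
      fun v hv => absurd hv (Set.notMem_empty v)⟩ (fun n τ => f τ n) n
  have hσ : ∀ n, σ (n + 1) = f (σ n) n := fun n => rfl
  have hr : Antitone fun i => (σ i).p := antitone_nat_of_succ_le fun n => by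
    rw [hσ]; exact hf1 _ _
  have hH : ∀ i l, l < i → (σ l).p.d ∈ (σ i).H := by
    intro i
    induction i with
    | zero => intro l hl; omega
    | succ i ih =>
      intro l hl
      rw [hσ, hf8]
      rcases Nat.lt_succ_iff_lt_or_eq.1 hl with h1 | h1
      · exact Finset.mem_insert_of_mem (ih l h1)
      · rw [h1]; exact Finset.mem_insert_self _ _
  have hT : ∀ i l, l < i → (σ (l + 1)).y ∈ (σ i).T := by
    intro i
    induction i with
    | zero => intro l hl; omega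
    | succ i ih =>
      intro l hl
      rw [hσ i, hf9]
      rcases Nat.lt_succ_iff_lt_or_eq.1 hl with h1 | h1
      · exact Set.mem_insert_of_mem _ (ih l h1)
      · rw [h1]; exact Set.mem_insert _ _
  have hdj : ∀ i j, i < j → Dj (σ (j + 1)).y (σ (i + 1)).y := fun i j hij => by
    rw [hσ j]
    exact hf6 _ _ _ (hT j i hij)
  refine ⟨fun i => (σ i).p, fun i => (σ (i + 1)).y, hr, rfl, fun i => (σ i).hp, fun i => ?_,
    fun i => ?_, fun i => ?_, fun i j hij => ?_, fun i => ?_, fun b hb n => ?_⟩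
  · exact hf2 _ _
  · exact hf3 _ _
  · exact hf4 _ _
  · rcases lt_or_gt_of_ne hij with h1 | h1
    · exact (hdj i j h1).symm
    · exact hdj j i h1
  · exact hf7 _ _
  · obtain ⟨g, ⟨l, rfl⟩, hbg⟩ := (lt_isLUB_iff (lm_lub hr)).1 hb
    simp only at hbg
    have h1 : (σ l).p.d < (σ (l + 1)).p.d := hf2 _ _
    have h2 : (σ l).p.d < (lm fun i => (σ i).p).d := h1.trans_le (lm_le hr (l + 1)).1
    obtain ⟨m, hm⟩ := B_nest ((lm fun i => (σ i).p).gd _ h2) hbg n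
    refine eventually_atTop.2 ⟨max (l + 1) m, fun j hj => ?_⟩
    have hj1 : l + 1 ≤ j := le_of_max_le_left hj
    have hj2 : m ≤ j := le_of_max_le_right hj
    have h3 : (σ (j + 1)).y ∈ B ((σ j).p.s (σ l).p.d) (σ l).p.d j :=
      hf5 _ _ _ (hH j l (Nat.lt_of_succ_le hj1))
    have h4 : (lm fun i => (σ i).p).s (σ l).p.d = (σ j).p.s (σ l).p.d :=
      (lm_le hr j).2 _ (h1.trans_le (hr hj1).1)
    apply hm
    rw [h4]
    exact B_anti hj2 h3

end Pool.Agent.JO
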