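import Mathlib

/-!
# The interface between Part I (combinatorics) and Part II (Boolean valued model)
-/

set_option autoImplicit false

namespace Pool.Agent.JO

open scoped BoundedContinuousFunction

section
variable {P : Type} [Preorder P]

/-- a `σ`-closed system of closed separable subspaces of `ℓ_∞` -/
structure IsSys (S : P → Submodule ℝ (ℕ →ᵇ ℝ)) (lim : (ℕ → P) → P) : Prop where
  mono : ∀ p q, q ≤ p → S p ≤ S q
  closed : ∀ p, IsClosed (S p : Set (ℕ →ᵇ ℝ))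
  sep : ∀ p, TopologicalSpace.IsSeparable (S p : Set (ℕ →ᵇ ℝ))
  lim_le : ∀ r : ℕ → P, Antitone r → ∀ k, lim r ≤ r k
  lim_S : ∀ r : ℕ → P, Antitone r →
    (S (lim r) : Set (ℕ →ᵇ ℝ)) ⊆ closure (⋃ k, (S (r k) : Set (ℕ →ᵇ ℝ)))
  ext : ∀ p, ∃ q ≤ p, ∃ x ∈ S q, ∀ z ∈ S p, 1 ≤ ‖x - z‖

/-- `D` is a set of conditions `≤ p₀`, dense below `p₀` and closed under limits -/
structure IsDom (lim : (ℕ → P) → P) (p₀ : P) (D : Set P) : Prop where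
  le : ∀ p ∈ D, p ≤ p₀
  dense : ∀ p ≤ p₀, ∃ q ≤ p, q ∈ D
  lim : ∀ r : ℕ → P, Antitone r → (∀ k, r k ∈ D) → lim r ∈ D

/-- a coherent family of norms, equivalent to the norm of `ℓ_∞`, on the spaces `S p`, `p ∈ D` -/
structure IsFam {F : Type} [NormedAddCommGroup F] [NormedSpace ℝ F] (S : P → Submodule ℝ F) (D : Set P) (c C : ℝ)
    (N : P → F → ℝ) : Prop where
  add : ∀ p ∈ D, ∀ x ∈ S p, ∀ y ∈ S p, N p (x + y) ≤ N p x + N p y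
  smul : ∀ p ∈ D, ∀ (t : ℝ), ∀ x ∈ S p, N p (t • x) = |t| * N p x
  lower : ∀ p ∈ D, ∀ x ∈ S p, c * ‖x‖ ≤ N p x
  upper : ∀ p ∈ D, ∀ x ∈ S p, N p x ≤ C * ‖x‖
  coh : ∀ p ∈ D, ∀ q ∈ D, q ≤ p → ∀ x ∈ S p, N q x = N p x

/-- a coherent family of linear bijections of the spaces `S r`, `r ∈ D`, `r ≤ q` -/
structure IsBijFam {F : Type} [NormedAddCommGroup F] [NormedSpace ℝ F] (S : P → Submodule ℝ F) (D : Set P) (q : P)
    (T : P → F → F) : Prop where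
  maps : ∀ r ∈ D, r ≤ q → ∀ x ∈ S r, T r x ∈ S r
  add : ∀ r ∈ D, r ≤ q → ∀ x ∈ S r, ∀ y ∈ S r, T r (x + y) = T r x + T r y
  smul : ∀ r ∈ D, r ≤ q → ∀ (t : ℝ), ∀ x ∈ S r, T r (t • x) = t • T r x
  inj : ∀ r ∈ D, r ≤ q → ∀ x ∈ S r, ∀ y ∈ S r, T r x = T r y → x = y
  surj : ∀ r ∈ D, r ≤ q → ∀ y ∈ S r, ∃ x ∈ S r, T r x = y
  coh : ∀ r ∈ D, r ≤ q → ∀ r' ∈ D, r' ≤ r → ∀ x ∈ S r, T r' x = T r x

/-- the main property, with the constant `K` -/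
def MainProp {F : Type} [NormedAddCommGroup F] [NormedSpace ℝ F] (S : P → Submodule ℝ F) (lim : (ℕ → P) → P)
    (K : ℝ) : Prop :=
  ∀ (p₀ : P) (D : Set P), IsDom lim p₀ D → ∀ c C : ℝ, 0 < c → ∀ N N' : P → F → ℝ,
    IsFam S D c C N → IsFam S D c C N' → ∃ q ∈ D, ∃ T : P → F → F, IsBijFam S D q T ∧
      ∀ r ∈ D, r ≤ q → ∀ x ∈ S r, N r x ≤ N' r (T r x) ∧ N' r (T r x) ≤ K * N r x

end

/-- **Part I** -/
def PartI (K : ℝ) : Prop :=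
  ∃ (P : Type) (_ : Preorder P) (_ : Nonempty P) (S : P → Submodule ℝ (ℕ →ᵇ ℝ)) (lim : (ℕ → P) → P),
    IsSys S lim ∧ MainProp S lim K

end Pool.Agent.JO
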