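import Pool.Agent.Lib.JO.Pd

/-!
# Restriction to the first stage is isometric (L2.8, L2.9)

PROOFS.
`norm_add_E` (L2.8): by `norm_R_le_of` fix w = ⟨g, n, k⟩ and show `|c w| ≤ ‖z + E c‖`. Let 0 < ε. Frequently in j: nn j = n, kk j = k (`ix_freq`);
 eventually `Dj ((s g).y j) z` (`dj_ev`, `(hs g hg).ev`) and `1 - ε < ‖(s g).y j‖` (`.lim`). Take such a j and v with `1 - ε < |(s g).y j v|`
 (`exists_lt_abs`; if 1 - ε < 0 use max). Then `y j v ≠ 0`, so z v = 0, `(s g).J v = j` (`y_apply_neg`), `v.g < g` (`D_supp`, `.mem`), `(z + E c) v = ss j * f v * c ⟨g, n, k⟩`,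
 so `(1 - ε) |c w| ≤ ‖z + E c‖`. ε → 0 (`le_of_forall_...`, or ε := (‖..‖-difference)/...; any argument).
`norm_stage`: x ∈ D s h, ⊥ < g: `‖R {w | w.g = g} x‖ ≤ ‖R {w | w.g < g} x‖`: if h ≤ g: x|I_g = 0 (`D_supp`, `R_eq_zero`). If g < h: `R {w.g < g} x = P (s g) g x + E (s g) g x`
 (definition of P), `P_mem`, `norm_add_E`.
`norm_bot_D`: for all g: `‖R {w | w.g = g} x‖ ≤ ‖R {w | w.g = ⊥} x‖` by strong induction on g (⊥: trivial; otherwise `norm_stage` and `norm_R_le_of`); so `‖x‖ ≤ ..`.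
`norm_bot`: closure: `{x | ‖R .. x‖ = ‖x‖}` is closed.
`norm_le_dist`: X_h ∋ x: `‖R {w | g ≤ w.g} x‖`... not needed here.
-/

set_option autoImplicit false

open Set Filter Topology

namespace Pool.Agent.JO

variable {W : Type} [LinearOrder W] [WellFoundedLT W] [OrderBot W] {s : W → Stg W} {d : W}

theorem norm_add_E (hs : Sys s d) {g : W} (hg : g < d) (h0 : ⊥ < g) {z : F W} (hz : z ∈ D s g) (c : F W) :
    ‖R {w | w.g = g} c‖ ≤ ‖z + E (s g) g c‖ := by
  refine norm_R_le_of (norm_nonneg _) fun w hw => ?_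
  by_contra hcon
  rw [not_le] at hcon
  set C := ‖z + E (s g) g c‖ with hC
  have hC0 : 0 ≤ C := norm_nonneg _
  have hcw : 0 < |c w| := lt_of_le_of_lt hC0 hcon
  have hr0 : 0 ≤ C / |c w| := div_nonneg hC0 hcw.le
  have hr1 : C / |c w| < 1 := (div_lt_one hcw).mpr hcon
  have hgd := hs g hg
  have hev1 : ∀ᶠ j in atTop, C / |c w| < ‖(s g).y j‖ := (hgd.lim h0).eventually (lt_mem_nhds hr1)
  have hev2 : ∀ᶠ j in atTop, Dj ((s g).y j) z := dj_ev hz hgd.ev
  obtain ⟨j, hj, hj1, hj2⟩ := ((ix_freq (w.n, w.k, true)).and_eventually (hev1.and hev2)).exists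
  obtain ⟨v, hv⟩ := exists_lt_abs hr0 hj1
  have hyv : (s g).y j v ≠ 0 := by
    intro h
    rw [h, abs_zero] at hv
    exact absurd hr0 (not_le.mpr hv)
  have hzv : z v = 0 := (hj2 v).resolve_left hyv
  have hJ : (s g).J v = j := by
    by_contra hne
    exact hyv (y_apply_neg hne)
  have hvg : v.g < g := by
    by_contra hge
    exact hyv (D_supp (hgd.mem h0 j) (not_lt.mp hge))
  have hw' : w = ⟨g, nn ((s g).J v), kk ((s g).J v)⟩ := by
    ext
    · exact hw
    · rw [hJ]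
      simp [nn, hj]
    · rw [hJ]
      simp [kk, hj]
  have hval : (z + E (s g) g c) v = ss ((s g).J v) * (s g).f v * c w := by
    rw [BoundedContinuousFunction.add_apply, hzv, zero_add, E_apply_lt hvg, ← hw']
  have h1 : |(z + E (s g) g c) v| ≤ C := abs_le_norm _ _
  rw [hval, abs_mul, abs_mul, abs_ss, one_mul] at h1
  rw [y_apply_pos hJ] at hv
  have h2 : C < |(s g).f v| * |c w| := (div_lt_iff₀ hcw).mp hv
  exact absurd h1 (not_le.mpr h2)

private theorem norm_bot_D (hs : Sys s d) {h : W} (hd : h ≤ d) {x : F W} (hx : x ∈ D s h) (g : W) :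
    ‖R {w | w.g = g} x‖ ≤ ‖R {w | w.g = ⊥} x‖ := by
  induction g using WellFoundedLT.induction with
  | ind g ih =>
    rcases eq_or_ne g ⊥ with rfl | hg0
    · exact le_rfl
    have h0 : ⊥ < g := bot_lt_iff_ne_bot.mpr hg0
    rcases le_or_gt h g with hgh | hgh
    · have h1 : R {w : Om W | w.g = g} x = 0 := R_eq_zero fun w hw => D_supp hx (by rw [show w.g = g from hw]; exact hgh)
      rw [h1, norm_zero]
      exact norm_nonneg _
    · have h2 : R {w : Om W | w.g < g} x = P (s g) g x + E (s g) g x := by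
        rw [P, _root_.sub_apply, sub_add_cancel]
      have h3 := norm_add_E hs (hgh.trans_le hd) h0 (P_mem hs (hgh.trans_le hd) hgh.le hd hx) x
      rw [← h2] at h3
      refine h3.trans (norm_R_le_of (norm_nonneg _) fun w hw => ?_)
      exact (le_norm_R (S := {w' : Om W | w'.g = w.g}) rfl x).trans (ih w.g hw)

theorem norm_bot (hs : Sys s d) {h : W} (hd : h ≤ d) {x : F W} (hx : x ∈ X s h) :
    ‖R {w | w.g = ⊥} x‖ = ‖x‖ := by
  have hcl : IsClosed {x : F W | ‖R {w : Om W | w.g = ⊥} x‖ = ‖x‖} := by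
    have hc : Continuous fun x : F W => ‖R {w : Om W | w.g = ⊥} x‖ := (R {w : Om W | w.g = ⊥}).continuous.norm
    exact isClosed_eq hc continuous_norm
  have hx' : x ∈ closure (D s h : Set (F W)) := by
    have h1 : x ∈ (D s h).topologicalClosure := hx
    rwa [← SetLike.mem_coe, Submodule.topologicalClosure_coe] at h1
  refine closure_minimal (fun y hy => ?_) hcl hx'
  refine le_antisymm (norm_R_le _ _) (norm_le_of (norm_nonneg _) fun w => ?_)
  exact (le_norm_R (S := {w' : Om W | w'.g = w.g}) rfl y).trans (norm_bot_D hs hd hy w.g)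

end Pool.Agent.JO
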