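import Pool.Agent.Lib.JO.Snm

/-!
# Key Lemma, base case

θ v := ‖R {w | a ≤ w.g} v‖, x := z + e (s a) a c, z ∈ D s a.
 b = a: θ x = ‖R {w.g = a} c‖ =: r (on a ≤ w.g: x = c on I_a, 0 above). If r ≤ ε trivial. Else choose v = ⟨a, n, k⟩ with `r - ε/8 < |c v|` (`exists_lt_abs_R`); frequently in i `nn i = n ∧ kk i = k ∧ ss i * c v = |c v|`
   (`nks_abs`). Put κ := |c v| and z' := κ • y_i (y_i = (s a).y i; here z' depends on i, so do it directly): `‖2κ y_i - e_a(c)‖ ≤ r`: on {J = i}, w.g < a: `2κ f w - κ f w = κ f w`; elsewhere below a: |E c w| ≤ r; on I_a: |c| ≤ r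
   (y_i = 0 there); above: 0. So `q i x ≥ 2κ q i y_i - q i z - ‖2κ y_i - e_a c‖ ≥ 2κ q i y_i - q i z - r → 2κ - r ≥ r - ε/4`, frequently ≥ r - ε.
-/

set_option autoImplicit false

open Set Filter Topology

namespace Pool.Agent.JO

variable {W : Type} [LinearOrder W] [WellFoundedLT W] [OrderBot W] {s : W → Stg W} {d a : W}

theorem key_base (hs : Sys s d) (ha : ⊥ < a) (had : a < d) {q : ℕ → F W → ℝ} (hq : ∀ i, Sn (D s d) (q i))
    (h1 : ∀ i, ∀ x ∈ D s d, q i x ≤ ‖x‖) (h2 : ∀ z ∈ D s a, Tendsto (fun i => q i z) atTop (𝓝 0))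
    (h3 : Tendsto (fun i => q i ((s a).y i)) atTop (𝓝 1)) {z c : F W} (hz : z ∈ D s a) (hc : c ∈ V (s a).A a)
    {ε : ℝ} (hε : 0 < ε) :
    ∃ᶠ i in atTop, ‖R {w | a ≤ w.g} (z + e (s a) a c)‖ - ε ≤ q i (z + e (s a) a c) := by
  have hG := hs a had
  set r := ‖R {w : Om W | w.g = a} c‖ with hr
  have hθ : ‖R {w | a ≤ w.g} (z + e (s a) a c)‖ ≤ r := by
    refine norm_R_le_of (norm_nonneg _) fun w hw => ?_
    have hw' : a ≤ w.g := hw
    rw [BoundedContinuousFunction.add_apply, D_supp hz hw', zero_add]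
    rcases eq_or_lt_of_le hw' with h | h
    · rw [e_apply_eq h.symm]; exact le_norm_R (S := {w : Om W | w.g = a}) h.symm c
    · rw [e_apply_gt h, abs_zero]; exact norm_nonneg _
  have hzd : z ∈ D s d := D_mono had.le hz
  have hed : e (s a) a c ∈ D s d := Submodule.subset_span ⟨a, had, c, hc, rfl⟩
  have hxd : z + e (s a) a c ∈ D s d := Submodule.add_mem _ hzd hed
  by_cases hrε : r ≤ ε
  · refine Eventually.frequently (Eventually.of_forall fun i => ?_)
    have := (hq i).nonneg hxd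
    linarith
  rw [not_le] at hrε
  obtain ⟨w, hw, hcw⟩ := exists_lt_abs_R (S := {w : Om W | w.g = a}) (x := c) (r := r - ε / 8)
    (by linarith) (by linarith)
  have hw' : w.g = a := hw
  set κ := |c w| with hκ
  have hκr : κ ≤ r := le_norm_R hw c
  have hκ0 : 0 ≤ κ := abs_nonneg _
  set δ := ε / (16 * (κ + 1)) with hδ
  have hδ0 : 0 < δ := by positivity
  have hκδ : 2 * κ * δ ≤ ε / 8 := by
    rw [hδ]
    have : 2 * κ * (ε / (16 * (κ + 1))) = ε / 8 * (κ / (κ + 1)) := by field_simp; ring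
    rw [this]
    have h1 : κ / (κ + 1) ≤ 1 := by rw [div_le_one (by positivity)]; linarith
    nlinarith
  have f := nks_abs w.n w.k (c w)
  have g1 : ∀ᶠ i in atTop, 1 - δ < q i ((s a).y i) := h3.eventually_const_lt (by linarith)
  have g2 : ∀ᶠ i in atTop, q i z < ε / 8 := (h2 z hz).eventually_lt_const (by positivity)
  refine (f.and_eventually (g1.and g2)).mono ?_
  rintro i ⟨⟨hn, hk, hs'⟩, hq1, hq2⟩
  have hya := hG.mem ha i
  have hy : (s a).y i ∈ D s d := D_mono had.le hya
  have hb : ‖(2 * κ) • (s a).y i - e (s a) a c‖ ≤ r := by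
    refine norm_le_of (norm_nonneg _) fun v => ?_
    rw [BoundedContinuousFunction.sub_apply, BoundedContinuousFunction.smul_apply, smul_eq_mul]
    rcases lt_trichotomy v.g a with hv | hv | hv
    · by_cases hJ : (s a).J v = i
      · rw [e_apply_lt hv, y_apply_pos hJ, hJ, hn, hk]
        have hwe : (⟨a, w.n, w.k⟩ : Om W) = w := by
          ext
          · exact hw'.symm
          · rfl
          · rfl
        rw [hwe]
        have : 2 * κ * (s a).f v - ss i * (s a).f v * c w = κ * (s a).f v := by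
          have : ss i * (s a).f v * c w = (ss i * c w) * (s a).f v := by ring
          rw [this, hs']; ring
        rw [this, abs_mul, hκ, abs_abs]
        calc |c w| * |(s a).f v| ≤ |c w| * 1 :=
              mul_le_mul_of_nonneg_left ((abs_le_norm _ _).trans hG.f1) (abs_nonneg _)
          _ ≤ r := by rw [mul_one]; exact hκr
      · rw [y_apply_neg hJ, mul_zero, zero_sub, abs_neg, e_apply_lt' hv]
        exact (abs_le_norm _ _).trans (norm_E_le hG.f1 a c)
    · rw [e_apply_eq hv, D_supp hya hv.ge, mul_zero, zero_sub, abs_neg]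
      exact le_norm_R (S := {w : Om W | w.g = a}) hv c
    · rw [e_apply_gt hv, D_supp hya hv.le, mul_zero, sub_zero, abs_zero]
      exact norm_nonneg _
  have hyk : (2 * κ) • (s a).y i ∈ D s d := Submodule.smul_mem _ _ hy
  have e1 := (hq i).smul (2 * κ) _ hy
  have e2 := (hq i).le_add hyk hxd
  have e3 := (hq i).sub (Submodule.sub_mem _ hyk hed) hzd
  have e4 := h1 i _ (Submodule.sub_mem _ hyk hed)
  have e5 : (2 * κ) • (s a).y i - (z + e (s a) a c) = (2 * κ) • (s a).y i - e (s a) a c - z := by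
    abel
  rw [e5] at e2
  rw [abs_of_nonneg (by positivity)] at e1
  have e6 : 2 * κ * (1 - δ) ≤ 2 * κ * q i ((s a).y i) :=
    mul_le_mul_of_nonneg_left hq1.le (by positivity)
  linarith

end Pool.Agent.JO
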