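import Pool.Agent.Lib.JO.Keya
import Pool.Agent.Lib.JO.Keyb

/-!
# The Key Lemma (section 4)

Write `θ v := ‖R {w | a ≤ w.g} v‖` (a seminorm in v).
(UB) for v ∈ D s d and δ > 0: eventually `q i v ≤ θ v + δ`: `v = P v + (v - P v)`, `P = P (s a) a`, `P v ∈ D s a` (`P_mem`), `v - P v ∈ D s d`, `q i (v - P v) ≤ ‖v - P v‖ = θ v` (`norm_sub_P`),
 `q i (P v) → 0`.
(REFLECTION) if x, z' ∈ D s d, `θ (2 • z' - x) ≤ r`, and frequently `t ≤ q i z'`, then for δ > 0 frequently `2 t - r - δ ≤ q i x`  [q i x ≥ 2 q i z' - q i (2 • z' - x), (UB)].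
`key_D`: strong induction on h ≤ d: the claim for all x ∈ D s h. By `D_last`: x = 0 (θ 0 = 0, q i 0 = 0), or x = z + e (s b) b c, b < h, z ∈ D s b, c ∈ V (s b).A b.
 b < a: x ∈ D s a, so θ x = 0 (`D_supp`) and q i x ≥ 0.
 b = a: `key_base`.
 b > a: `key`: closure: X s d ∋ x, x' ∈ D s d with ‖x - x'‖ < ε/4 (q i is 1-Lipschitz on X s d).
-/

set_option autoImplicit false

open Set Filter Topology

namespace Pool.Agent.JO

variable {W : Type} [LinearOrder W] [WellFoundedLT W] [OrderBot W] {s : W → Stg W} {d a : W}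

theorem key_D (hs : Sys s d) (ha : ⊥ < a) (had : a < d) {q : ℕ → F W → ℝ} (hq : ∀ i, Sn (D s d) (q i))
    (h1 : ∀ i, ∀ x ∈ D s d, q i x ≤ ‖x‖) (h2 : ∀ z ∈ D s a, Tendsto (fun i => q i z) atTop (𝓝 0))
    (h3 : Tendsto (fun i => q i ((s a).y i)) atTop (𝓝 1)) {x : F W} (hx : x ∈ D s d)
    {ε : ℝ} (hε : 0 < ε) : ∃ᶠ i in atTop, ‖R {w | a ≤ w.g} x‖ - ε ≤ q i x := by
  have UB : ∀ v ∈ D s d, ∀ δ > 0, ∀ᶠ i in atTop, q i v ≤ ‖R {w | a ≤ w.g} v‖ + δ := by
    intro v hv δ hδ
    have hP : P (s a) a v ∈ D s a := P_mem hs had had.le le_rfl hv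
    have hPd : P (s a) a v ∈ D s d := D_mono had.le hP
    filter_upwards [(h2 _ hP).eventually_lt_const hδ] with i hi
    have e1 := (hq i).le_add hv hPd
    have e2 := h1 i (v - P (s a) a v) (Submodule.sub_mem _ hv hPd)
    rw [norm_sub_P (hs a had).f1] at e2
    linarith
  have main : ∀ h, h ≤ d → ∀ x ∈ D s h, ∀ ε > 0, ∃ᶠ i in atTop, ‖R {w | a ≤ w.g} x‖ - ε ≤ q i x := by
    intro h
    induction h using WellFoundedLT.induction with
    | ind h ih =>
      intro hd x hx ε hε
      have hxd : x ∈ D s d := D_mono hd hx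
      rcases D_last hx with rfl | ⟨b, hb, z, hz, c, hc, rfl⟩
      · refine Eventually.frequently (Eventually.of_forall fun i => ?_)
        rw [(hq i).zero, map_zero, norm_zero]
        linarith
      · rcases lt_trichotomy b a with hba | rfl | hab
        · refine Eventually.frequently (Eventually.of_forall fun i => ?_)
          have e0 : R {w : Om W | a ≤ w.g} (z + e (s b) b c) = 0 := by
            refine R_eq_zero fun w hw => ?_
            have hw' : b < w.g := hba.trans_le hw
            rw [BoundedContinuousFunction.add_apply, D_supp hz hw'.le, e_apply_gt hw', add_zero]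
          rw [e0, norm_zero]
          have := (hq i).nonneg hxd
          linarith
        · exact key_base hs ha had hq h1 h2 h3 hz hc hε
        · obtain ⟨z', hz', hθ, hdj⟩ := key_approx hs ha hab (hb.trans_le hd) hz hc
            (ε := ε / 4) (by positivity)
          set x : F W := z + e (s b) b c with hxdef
          have hz'd : z' ∈ D s d := D_mono (hb.le.trans hd) hz'
          have hr : ‖R {w | a ≤ w.g} ((2 : ℝ) • z' - x)‖ ≤ ‖R {w | a ≤ w.g} x‖ := by
            refine norm_R_le_of (norm_nonneg _) fun w hw => ?_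
            refine le_trans (le_of_eq ?_) (le_norm_R hw x)
            rcases hdj w with h | h
            · rw [BoundedContinuousFunction.sub_apply, BoundedContinuousFunction.smul_apply, h,
                smul_zero, zero_sub, abs_neg]
            · rw [BoundedContinuousFunction.sub_apply] at h
              rw [BoundedContinuousFunction.sub_apply, BoundedContinuousFunction.smul_apply,
                smul_eq_mul]
              have : x w = z' w := by linarith
              rw [this]; congr 1; ring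
          have f1 := ih b hb (hb.le.trans hd) z' hz' (ε / 8) (by positivity)
          have f2 := UB ((2 : ℝ) • z' - x)
            (Submodule.sub_mem _ (Submodule.smul_mem _ _ hz'd) hxd) (ε / 8) (by positivity)
          refine (f1.and_eventually f2).mono ?_
          rintro i ⟨g1, g2⟩
          have e1 := (hq i).smul 2 z' hz'd
          have e2 := (hq i).le_add (Submodule.smul_mem (D s d) (2 : ℝ) hz'd) hxd
          rw [abs_of_pos (by norm_num : (0 : ℝ) < 2)] at e1
          linarith
  exact main d le_rfl x hx ε hε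

theorem key (hs : Sys s d) (ha : ⊥ < a) (had : a < d) {q : ℕ → F W → ℝ} (hq : ∀ i, Sn (X s d) (q i))
    (h1 : ∀ i, ∀ x ∈ X s d, q i x ≤ ‖x‖) (h2 : ∀ z ∈ D s a, Tendsto (fun i => q i z) atTop (𝓝 0))
    (h3 : Tendsto (fun i => q i ((s a).y i)) atTop (𝓝 1)) {x : F W} (hx : x ∈ X s d)
    {ε : ℝ} (hε : 0 < ε) : ∃ᶠ i in atTop, ‖R {w | a ≤ w.g} x‖ - ε ≤ q i x := by
  have hx' : x ∈ closure (D s d : Set (F W)) := hx
  obtain ⟨x', hx', hd⟩ := Metric.mem_closure_iff.1 hx' (ε / 4) (by positivity)
  have hxX : x' ∈ X s d := D_le_X d hx'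
  have f := key_D hs ha had (fun i => (hq i).mono (D_le_X d)) (fun i x hx => h1 i x (D_le_X d hx))
    h2 h3 hx' (ε := ε / 4) (by positivity)
  refine f.mono fun i hi => ?_
  have e1 := (hq i).lip (C := 1) (fun x hx => by rw [one_mul]; exact h1 i x hx) hx hxX
  have e2 : ‖R {w : Om W | a ≤ w.g} x‖ ≤ ‖R {w : Om W | a ≤ w.g} x'‖ + ‖x - x'‖ := by
    have : R {w : Om W | a ≤ w.g} x = R {w : Om W | a ≤ w.g} x' + R {w : Om W | a ≤ w.g} (x - x') := by
      rw [← map_add]; congr 1; abel
    rw [this]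
    exact (norm_add_le _ _).trans (add_le_add_right (norm_R_le _ _) _)
  rw [one_mul] at e1
  rw [dist_eq_norm] at hd
  have e3 := abs_le.1 e1
  linarith [e3.1, e3.2]

end Pool.Agent.JO
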