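import Pool.Agent.Lib.JO.Snm

/-!
# Key Lemma, approximation

θ v := ‖R {w | a ≤ w.g} v‖, x := z + e (s b) b c.
`approx` below gives z' ∈ D s b with `θ z' ≥ θ x - ε/4` and `∀ w, |(2 • z' - x) w| = |x w|` (z' and x - z' disjoint), so `θ (2 • z' - x) = θ x`; the induction hypothesis for b < h
   gives frequently `q i z' ≥ θ z' - ε/8`; reflection: `q i x ≥ 2 (θ x - ε/4 - ε/8) - θ x - ε/8 ≥ θ x - ε`.
`approx`: z' := z + ∑ j<m (ss j * c ⟨b, nn j, kk j⟩) • (s b).y j ∈ D s b; for m large (j ≥ m): y_j disjoint from z (`dj_ev`), so `x - z' = R {I_b} c + R {m ≤ J} (E c)` (`E_split`) is disjoint from z' (on I_b: z' = 0 by D_supp;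
   below b, at J w ≥ m: z' w = z w, and either f w = 0, or y_J(w) ≠ 0 and z w = 0). θ x = max over a ≤ w.g. If `θ x - ε ≥ 0` choose w with a ≤ w.g, |x w| > θ x - ε/2 (w.g ≤ b). If w.g < b: take m > J w: z' w = x w.
   If w.g = b, w = ⟨b,n,k⟩: |c w| > θ x - ε/2; choose j ≥ m0 with nn j = n, kk j = k, ‖y_j‖ > 1 - δ, y_j ∈ B (s a) a 0 (so ‖y_j‖ = θ y_j, `norm_B`), and m := j + 1; on the support of y_j: z' = ss j c(w) y_j; so
   θ z' ≥ |c w| (1 - δ) ≥ θ x - ε.

-/

set_option autoImplicit false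

open Set Filter Topology

namespace Pool.Agent.JO

variable {W : Type} [LinearOrder W] [WellFoundedLT W] [OrderBot W] {s : W → Stg W} {d a : W}

theorem key_approx (hs : Sys s d) {b : W} (ha : ⊥ < a) (hab : a < b) (hb : b < d) {z c : F W} (hz : z ∈ D s b)
    (hc : c ∈ V (s b).A b) {ε : ℝ} (hε : 0 < ε) :
    ∃ z' ∈ D s b, ‖R {w | a ≤ w.g} (z + e (s b) b c)‖ - ε ≤ ‖R {w | a ≤ w.g} z'‖ ∧
      Dj z' (z + e (s b) b c - z') := by
  have hG := hs b hb
  have h0 : ⊥ < b := ha.trans hab
  set t := s b with ht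
  set x := z + e t b c with hx
  set S : ℕ → F W := fun m => ∑ j ∈ Finset.range m, (ss j * c ⟨b, nn j, kk j⟩) • t.y j with hSdef
  have hS : ∀ m, S m ∈ D s b := fun m =>
    Submodule.sum_mem _ fun j _ => Submodule.smul_mem _ _ (hG.mem h0 j)
  obtain ⟨m0, hm0⟩ := eventually_atTop.1 (dj_ev hz hG.ev)
  have hy0 : ∀ j w, b ≤ w.g → t.y j w = 0 := fun j w hw => D_supp (hG.mem h0 j) hw
  have hxw : ∀ w, x w = z w + e t b c w := fun _ => rfl
  have hzS : ∀ m w, (z + S m) w = z w + S m w := fun _ _ => rfl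
  -- the difference below `b`
  have hdiff : ∀ m, ∀ w : Om W, w.g < b → (x - (z + S m)) w =
      if m ≤ t.J w then E t b c w else 0 := by
    intro m w hw
    have h1 := E_split (g := b) hy0 c m
    have h2 : E t b c w = S m w + R {w | t.J w ∈ {j | m ≤ j}} (E t b c) w := by
      conv_lhs => rw [h1]
      rfl
    rw [BoundedContinuousFunction.sub_apply, hzS, hxw, e_apply_lt' hw]
    by_cases hm : m ≤ t.J w
    · rw [if_pos hm]
      rw [R_mem (S := {w | t.J w ∈ {j | m ≤ j}}) hm] at h2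
      linarith
    · rw [if_neg hm]
      rw [R_not_mem (S := {w | t.J w ∈ {j | m ≤ j}}) hm] at h2
      linarith
  have hdj : ∀ m, m0 ≤ m → Dj (z + S m) (x - (z + S m)) := by
    intro m hm w
    rcases lt_or_ge w.g b with hw | hw
    · rw [hdiff m w hw]
      by_cases hJ : m ≤ t.J w
      · rw [if_pos hJ]
        by_cases hf : t.f w = 0
        · right; rw [E_apply_lt hw, hf, mul_zero, zero_mul]
        · left
          have h1 := hm0 (t.J w) (hm.trans hJ) w
          rw [y_apply_pos rfl] at h1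
          have hzw : z w = 0 := h1.resolve_left hf
          have h2 := hdiff m w hw
          rw [if_pos hJ, BoundedContinuousFunction.sub_apply, hxw, e_apply_lt' hw, hzw] at h2
          linarith
      · rw [if_neg hJ]; right; rfl
    · left
      rw [BoundedContinuousFunction.add_apply, D_supp hz hw, D_supp (hS m) hw, add_zero]
  have hmem : ∀ m, z + S m ∈ D s b := fun m => Submodule.add_mem _ hz (hS m)
  by_cases hθ : ‖R {w : Om W | a ≤ w.g} x‖ ≤ ε
  · refine ⟨z + S m0, hmem m0, ?_, hdj m0 le_rfl⟩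
    have := norm_nonneg (R {w : Om W | a ≤ w.g} (z + S m0))
    linarith
  rw [not_le] at hθ
  obtain ⟨w, hw, hxw1⟩ := exists_lt_abs_R (S := {w : Om W | a ≤ w.g}) (x := x)
    (r := ‖R {w : Om W | a ≤ w.g} x‖ - ε / 2) (by linarith) (by linarith)
  rcases lt_trichotomy w.g b with hwb | hwb | hwb
  · refine ⟨z + S (max m0 (t.J w + 1)), hmem _, ?_, hdj _ (le_max_left _ _)⟩
    have h1 := hdiff (max m0 (t.J w + 1)) w hwb
    rw [if_neg (by
      intro h
      have := (le_max_right m0 (t.J w + 1)).trans h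
      omega), BoundedContinuousFunction.sub_apply] at h1
    have h2 : x w = (z + S (max m0 (t.J w + 1))) w := by linarith
    have h3 := le_norm_R hw (z + S (max m0 (t.J w + 1)))
    rw [← h2] at h3
    linarith
  · have hxc : x w = c w := by
      rw [hx, BoundedContinuousFunction.add_apply, D_supp hz hwb.ge, e_apply_eq hwb, zero_add]
    rw [hxc] at hxw1
    set κ := |c w| with hκ
    have hκ0 : 0 ≤ κ := abs_nonneg _
    set δ := ε / (2 * (κ + ε)) with hδ
    have hδ0 : 0 < δ := by positivity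
    have hδ1 : δ ≤ 1 := by rw [hδ, div_le_one (by positivity)]; linarith
    have hκδ : κ * δ ≤ ε / 2 := by
      rw [hδ]
      have : κ * (ε / (2 * (κ + ε))) = ε / 2 * (κ / (κ + ε)) := by field_simp
      rw [this]
      have h1 : κ / (κ + ε) ≤ 1 := by rw [div_le_one (by positivity)]; linarith
      nlinarith
    have f := nks_abs w.n w.k (c w)
    have g1 : ∀ᶠ j in atTop, 1 - δ < ‖t.y j‖ := (hG.lim h0).eventually_const_lt (by linarith)
    have g2 : ∀ᶠ j in atTop, t.y j ∈ B (s a) a 0 := hG.ev a hab 0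
    obtain ⟨j, ⟨hn, hk, -⟩, hj1, hj2, hj3⟩ :=
      (f.and_eventually (g1.and (g2.and (eventually_ge_atTop m0)))).exists
    rw [norm_B (hs a (hab.trans hb)).f1 hj2] at hj1
    obtain ⟨v, hv, hyv⟩ := exists_lt_abs_R (by linarith) hj1
    have hyv0 : t.y j v ≠ 0 := by
      intro h
      rw [h, abs_zero] at hyv
      linarith
    have hJv : t.J v = j := by
      by_contra h
      exact hyv0 (y_apply_neg h)
    have hvb : v.g < b := by
      by_contra h
      exact hyv0 (hy0 j v (not_lt.1 h))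
    have hzv : z v = 0 := (hm0 j hj3 v).resolve_left hyv0
    refine ⟨z + S (j + 1), hmem _, ?_, hdj _ (by omega)⟩
    have h1 := hdiff (j + 1) v hvb
    rw [if_neg (by omega), BoundedContinuousFunction.sub_apply] at h1
    have h2 : (z + S (j + 1)) v = x v := by linarith
    have hwe : (⟨b, w.n, w.k⟩ : Om W) = w := by
      ext
      · exact hwb.symm
      · rfl
      · rfl
    have h3 : x v = ss j * t.f v * c w := by
      rw [hxw, hzv, e_apply_lt hvb, zero_add, hJv, hn, hk, hwe]
    have h4 : |x v| = |t.y j v| * κ := by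
      rw [h3, abs_mul, abs_mul, abs_ss, one_mul, y_apply_pos hJv]
    have h5 := le_norm_R hv (z + S (j + 1))
    rw [h2, h4] at h5
    have h6 : (1 - δ) * κ ≤ |t.y j v| * κ := mul_le_mul_of_nonneg_right hyv.le hκ0
    nlinarith
  · exfalso
    have : x w = 0 := by
      rw [hxw, D_supp hz hwb.le, e_apply_gt hwb, zero_add]
    rw [this, abs_zero] at hxw1
    linarith

end Pool.Agent.JO
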