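import Pool.Agent.Lib.JO.Defs

/-!
# A well order of type `ω₁`

`exists_Om1`: W := (Cardinal.aleph 1).ord.ToType (or `Ordinal.toType (ω₁)`): LinearOrder, WellFoundedLT, OrderBot (from nonempty), initial segments: `Cardinal.mk_Iio_ord_toType`-type lemma: #(Iio a) < ℵ₁, so countable (`Cardinal.lt_aleph_one_iff..`/`countable_iff_lt_aleph_one`);
 bounded: a countable set is bounded: cofinality of ω₁ (`Cardinal.IsRegular`, `Ordinal.cof`), or: otherwise W is a countable union of the countable sets Iic x, so countable, contradiction to #W = ℵ₁ (uses no max: a set s unbounded: ∀ b, ∃ x ∈ s, b ≤ x).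
-/

set_option autoImplicit false

open Set Filter Topology

namespace Pool.Agent.JO

theorem exists_Om1 : ∃ (W : Type) (_ : LinearOrder W) (_ : WellFoundedLT W) (_ : OrderBot W), Om1 W := by
  let W : Type := (Cardinal.aleph 1).ord.ToType
  have hcard : Cardinal.mk W = Cardinal.aleph 1 := Cardinal.mk_ord_toType _
  have hcount : ∀ a : W, (Iio a).Countable := by
    intro a
    have h1 : Cardinal.mk (Iio a) < Cardinal.aleph 1 := Cardinal.mk_Iio_toType_ord_lt a
    have h2 : Cardinal.mk (Iio a) < Order.succ Cardinal.aleph0 := by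
      have h3 : Order.succ Cardinal.aleph0 = Cardinal.aleph 1 := Cardinal.succ_aleph0
      exact lt_of_lt_of_eq h1 h3.symm
    rw [← Cardinal.le_aleph0_iff_set_countable]
    exact Order.lt_succ_iff.mp h2
  have hne : Nonempty W := by
    rw [← Cardinal.mk_ne_zero_iff, hcard]
    exact (Cardinal.aleph_pos 1).ne'
  have hunc : ¬ (Set.univ : Set W).Countable := by
    intro h
    rw [← Cardinal.le_aleph0_iff_set_countable, Cardinal.mk_univ, hcard] at h
    exact absurd h (not_le.mpr Cardinal.aleph0_lt_aleph_one)
  let bt : W := WellFounded.min (wellFounded_lt (α := W)) Set.univ ⟨hne.some, trivial⟩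
  let ob : OrderBot W :=
    { bot := bt
      bot_le := fun a => WellFounded.min_le (wellFounded_lt (α := W)) (Set.mem_univ a) }
  refine ⟨W, inferInstance, inferInstance, ob, ⟨hcount, fun s hs => ?_⟩⟩
  by_contra hcon
  push Not at hcon
  apply hunc
  have hsub : (Set.univ : Set W) ⊆ ⋃ x ∈ s, Iic x := by
    intro b _
    obtain ⟨x, hx, hbx⟩ := hcon b
    exact Set.mem_biUnion hx hbx
  refine (hs.biUnion fun x _ => ?_).mono hsub
  rw [← Iio_insert]
  exact (hcount x).insert x

end Pool.Agent.JO
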