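import Pool.Agent.Lib.JO.Enm

/-!
# The operators `R`, `E`, `e`, `P`, `Q` and the subspaces `B` (L2.1)
-/

set_option autoImplicit false

open Set Filter Topology

namespace Pool.Agent.JO

section basic
variable {W : Type}

theorem abs_le_norm (x : F W) (w : Om W) : |x w| ≤ ‖x‖ := x.norm_coe_le_norm w

theorem norm_le_of {x : F W} {C : ℝ} (hC : 0 ≤ C) (h : ∀ w, |x w| ≤ C) : ‖x‖ ≤ C :=
  (BoundedContinuousFunction.norm_le hC).2 h

theorem exists_lt_abs {x : F W} {r : ℝ} (h0 : 0 ≤ r) (h : r < ‖x‖) : ∃ w, r < |x w| := by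
  by_contra hc
  push Not at hc
  exact absurd (norm_le_of h0 hc) (not_le.2 h)

theorem R_mem {S : Set (Om W)} {w : Om W} (h : w ∈ S) (x : F W) : R S x w = x w := by
  rw [R_apply, if_pos h]

theorem R_not_mem {S : Set (Om W)} {w : Om W} (h : w ∉ S) (x : F W) : R S x w = 0 := by
  rw [R_apply, if_neg h]

theorem norm_R_le_of {S : Set (Om W)} {x : F W} {C : ℝ} (hC : 0 ≤ C) (h : ∀ w ∈ S, |x w| ≤ C) :
    ‖R S x‖ ≤ C := by
  refine norm_le_of hC fun w => ?_
  by_cases hw : w ∈ S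
  · rw [R_mem hw]; exact h w hw
  · rw [R_not_mem hw, abs_zero]; exact hC

theorem norm_R_le (S : Set (Om W)) (x : F W) : ‖R S x‖ ≤ ‖x‖ :=
  norm_R_le_of (norm_nonneg _) fun w _ => abs_le_norm x w

theorem le_norm_R {S : Set (Om W)} {w : Om W} (h : w ∈ S) (x : F W) : |x w| ≤ ‖R S x‖ := by
  have := abs_le_norm (R S x) w
  rwa [R_mem h] at this

theorem norm_R_mono {S T : Set (Om W)} (h : S ⊆ T) (x : F W) : ‖R S x‖ ≤ ‖R T x‖ :=
  norm_R_le_of (norm_nonneg _) fun _ hw => le_norm_R (h hw) x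

theorem R_R (S T : Set (Om W)) (x : F W) : R S (R T x) = R (S ∩ T) x := by
  ext w
  by_cases hS : w ∈ S
  · by_cases hT : w ∈ T
    · rw [R_mem hS, R_mem hT, R_mem (show w ∈ S ∩ T from ⟨hS, hT⟩)]
    · rw [R_mem hS, R_not_mem hT, R_not_mem (fun h => hT h.2)]
  · rw [R_not_mem hS, R_not_mem (fun h => hS h.1)]

theorem R_eq_self {S : Set (Om W)} {x : F W} (h : ∀ w, w ∉ S → x w = 0) : R S x = x := by
  ext w
  by_cases hS : w ∈ S
  · rw [R_mem hS]
  · rw [R_not_mem hS, h w hS]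

theorem R_eq_zero {S : Set (Om W)} {x : F W} (h : ∀ w ∈ S, x w = 0) : R S x = 0 := by
  ext w
  by_cases hS : w ∈ S
  · rw [R_mem hS, h w hS]; rfl
  · rw [R_not_mem hS]; rfl

theorem exists_lt_abs_R {S : Set (Om W)} {x : F W} {r : ℝ} (h0 : 0 ≤ r) (h : r < ‖R S x‖) :
    ∃ w ∈ S, r < |x w| := by
  obtain ⟨w, hw⟩ := exists_lt_abs h0 h
  by_cases hS : w ∈ S
  · rw [R_mem hS] at hw; exact ⟨w, hS, hw⟩
  · rw [R_not_mem hS, abs_zero] at hw; exact absurd hw (not_lt.2 h0)

/-- the blocks of a stage -/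
theorem y_apply_pos {t : Stg W} {j : ℕ} {w : Om W} (h : t.J w = j) : t.y j w = t.f w :=
  R_mem (S := {w | t.J w = j}) h _

theorem y_apply_neg {t : Stg W} {j : ℕ} {w : Om W} (h : t.J w ≠ j) : t.y j w = 0 :=
  R_not_mem (S := {w | t.J w = j}) h _

theorem norm_y_le {t : Stg W} (h : ‖t.f‖ ≤ 1) (j : ℕ) : ‖t.y j‖ ≤ 1 := (norm_R_le _ _).trans h

end basic

section order
variable {W : Type} [LinearOrder W] {t : Stg W} {g : W} {x x' c : F W} {w : Om W}

theorem E_apply_lt (h : w.g < g) :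
    E t g c w = ss (t.J w) * t.f w * c ⟨g, nn (t.J w), kk (t.J w)⟩ := by
  rw [E_apply, if_pos h]

theorem E_apply_ge (h : g ≤ w.g) : E t g c w = 0 := by
  rw [E_apply, if_neg (not_lt.2 h)]

theorem E_congr (h : ∀ w : Om W, w.g = g → x w = x' w) : E t g x = E t g x' := by
  ext w
  rcases lt_or_ge w.g g with hw | hw
  · rw [E_apply_lt hw, E_apply_lt hw, h _ rfl]
  · rw [E_apply_ge hw, E_apply_ge hw]

theorem E_eq_zero (h : ∀ w : Om W, w.g = g → x w = 0) : E t g x = 0 := by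
  rw [E_congr (x' := 0) (by simpa using h), map_zero]

theorem norm_E_le (hf : ‖t.f‖ ≤ 1) (g : W) (c : F W) : ‖E t g c‖ ≤ ‖R {w | w.g = g} c‖ := by
  refine norm_le_of (norm_nonneg _) fun w => ?_
  rcases lt_or_ge w.g g with hw | hw
  · rw [E_apply_lt hw, abs_mul, abs_mul, abs_ss, one_mul]
    refine (mul_le_of_le_one_left (abs_nonneg _) ((abs_le_norm _ _).trans hf)).trans ?_
    exact le_norm_R (S := {w | w.g = g}) (w := ⟨g, nn (t.J w), kk (t.J w)⟩) rfl c
  · rw [E_apply_ge hw, abs_zero]; exact norm_nonneg _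

theorem e_apply_lt (h : w.g < g) : e t g c w = ss (t.J w) * t.f w * c ⟨g, nn (t.J w), kk (t.J w)⟩ := by
  rw [e, _root_.add_apply, BoundedContinuousFunction.add_apply,
    R_not_mem (S := {w | w.g = g}) h.ne, zero_add, E_apply_lt h]

theorem e_apply_lt' (h : w.g < g) : e t g c w = E t g c w := by
  rw [e_apply_lt h, E_apply_lt h]

theorem e_apply_eq (h : w.g = g) : e t g c w = c w := by
  rw [e, _root_.add_apply, BoundedContinuousFunction.add_apply,
    R_mem (S := {w | w.g = g}) h, E_apply_ge h.ge, add_zero]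

theorem e_apply_gt (h : g < w.g) : e t g c w = 0 := by
  rw [e, _root_.add_apply, BoundedContinuousFunction.add_apply,
    R_not_mem (S := {w | w.g = g}) h.ne', E_apply_ge h.le, add_zero]

theorem e_congr (h : ∀ w : Om W, w.g = g → x w = x' w) : e t g x = e t g x' := by
  ext w
  rcases lt_trichotomy w.g g with hw | hw | hw
  · rw [e_apply_lt hw, e_apply_lt hw, h _ rfl]
  · rw [e_apply_eq hw, e_apply_eq hw, h w hw]
  · rw [e_apply_gt hw, e_apply_gt hw]

theorem norm_e (hf : ‖t.f‖ ≤ 1) (g : W) (c : F W) : ‖e t g c‖ = ‖R {w | w.g = g} c‖ := by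
  apply le_antisymm
  · refine norm_le_of (norm_nonneg _) fun w => ?_
    rcases lt_trichotomy w.g g with hw | hw | hw
    · rw [e_apply_lt' hw]; exact (abs_le_norm _ _).trans (norm_E_le hf g c)
    · rw [e_apply_eq hw]; exact le_norm_R (S := {w | w.g = g}) hw c
    · rw [e_apply_gt hw, abs_zero]; exact norm_nonneg _
  · refine norm_R_le_of (norm_nonneg _) fun w hw => ?_
    rw [← e_apply_eq (t := t) hw]; exact abs_le_norm _ _

theorem P_apply_lt (h : w.g < g) : P t g x w = x w - E t g x w := by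
  rw [P, _root_.sub_apply, BoundedContinuousFunction.sub_apply,
    R_mem (S := {w | w.g < g}) h]

theorem P_apply_ge (h : g ≤ w.g) : P t g x w = 0 := by
  rw [P, _root_.sub_apply, BoundedContinuousFunction.sub_apply,
    R_not_mem (S := {w | w.g < g}) (not_lt.2 h), E_apply_ge h, sub_zero]

theorem P_congr (h : ∀ w : Om W, w.g ≤ g → x w = x' w) : P t g x = P t g x' := by
  ext w
  rcases lt_or_ge w.g g with hw | hw
  · rw [P_apply_lt hw, P_apply_lt hw, h w hw.le, E_congr fun w hw => h w hw.le]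
  · rw [P_apply_ge hw, P_apply_ge hw]

theorem P_eq_zero_of (h : ∀ w : Om W, w.g ≤ g → x w = 0) : P t g x = 0 := by
  rw [P_congr (x' := 0) (by simpa using h), map_zero]

/-- `P_g` is the identity on functions supported below `g` -/
theorem P_of_supp (h : ∀ w : Om W, g ≤ w.g → x w = 0) : P t g x = x := by
  ext w
  rcases lt_or_ge w.g g with hw | hw
  · rw [P_apply_lt hw, E_eq_zero fun w hw => h w hw.ge]; simp
  · rw [P_apply_ge hw, h w hw]

theorem P_P : P t g (P t g x) = P t g x := P_of_supp fun _ hw => P_apply_ge hw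

theorem P_e : P t g (e t g c) = 0 := by
  ext w
  rcases lt_or_ge w.g g with hw | hw
  · rw [P_apply_lt hw, e_apply_lt' hw, E_congr (x' := c) fun w hw => e_apply_eq hw, sub_self]; rfl
  · rw [P_apply_ge hw]; rfl

theorem norm_P_le (hf : ‖t.f‖ ≤ 1) : ‖P t g x‖ ≤ 2 * ‖x‖ := by
  rw [P, _root_.sub_apply]
  refine (norm_sub_le _ _).trans ?_
  have h1 := norm_R_le {w : Om W | w.g < g} x
  have h2 := (norm_E_le hf g x).trans (norm_R_le _ x)
  linarith

theorem sub_P_apply_lt (h : w.g < g) : (x - P t g x) w = E t g x w := by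
  rw [BoundedContinuousFunction.sub_apply, P_apply_lt h]; ring

theorem sub_P_apply_ge (h : g ≤ w.g) : (x - P t g x) w = x w := by
  rw [BoundedContinuousFunction.sub_apply, P_apply_ge h, sub_zero]

theorem norm_sub_P (hf : ‖t.f‖ ≤ 1) (g : W) (x : F W) : ‖x - P t g x‖ = ‖R {w | g ≤ w.g} x‖ := by
  apply le_antisymm
  · refine norm_le_of (norm_nonneg _) fun w => ?_
    rcases lt_or_ge w.g g with hw | hw
    · rw [sub_P_apply_lt hw]
      refine (abs_le_norm _ _).trans ((norm_E_le hf g x).trans (norm_R_mono ?_ x))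
      intro w hw; exact le_of_eq (Eq.symm hw)
    · rw [sub_P_apply_ge hw]; exact le_norm_R (S := {w | g ≤ w.g}) hw x
  · refine norm_R_le_of (norm_nonneg _) fun w hw => ?_
    rw [← sub_P_apply_ge (t := t) hw]; exact abs_le_norm _ _

theorem mem_B {n : ℕ} : x ∈ B t g n ↔ P t g x = 0 ∧ ∀ m < n, ∀ k, x ⟨g, m, k⟩ = 0 := Iff.rfl

theorem B_anti {n m : ℕ} (h : n ≤ m) : B t g m ≤ B t g n :=
  fun _ hx => ⟨hx.1, fun i hi k => hx.2 i (hi.trans_le h) k⟩

/-- membership in `B t g n` depends only on the coordinates `≤ g` -/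
theorem B_congr {n : ℕ} (h : ∀ w : Om W, w.g ≤ g → x w = x' w) (hx : x ∈ B t g n) :
    x' ∈ B t g n :=
  ⟨by rw [← P_congr h]; exact hx.1, fun m hm k => by
    rw [← h ⟨g, m, k⟩ le_rfl]; exact hx.2 m hm k⟩

theorem B_apply_lt {n : ℕ} (hx : x ∈ B t g n) (h : w.g < g) : x w = E t g x w := by
  have := congrArg (fun z : F W => z w) hx.1
  simp only [P_apply_lt h] at this
  exact sub_eq_zero.1 this

theorem norm_B (hf : ‖t.f‖ ≤ 1) {n : ℕ} (hx : x ∈ B t g n) : ‖x‖ = ‖R {w | g ≤ w.g} x‖ := by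
  rw [← norm_sub_P hf, hx.1, sub_zero]

theorem B_closed (t : Stg W) (g : W) (n : ℕ) : IsClosed (B t g n : Set (F W)) := by
  have : (B t g n : Set (F W)) = {x | P t g x = 0} ∩ ⋂ m < n, ⋂ k : ℕ, {x : F W | x ⟨g, m, k⟩ = 0} := by
    ext x; simp [mem_B]
  rw [this]
  refine (isClosed_eq (P t g).continuous continuous_const).inter ?_
  refine isClosed_iInter fun m => isClosed_iInter fun _ => isClosed_iInter fun k => ?_
  exact isClosed_eq (continuous_eval_const (F := F W) _) continuous_const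

/-- reduction into `B t g n`: `x ↦ (1 - P_g) x - e_g (x on the rows < n of I_g)` (L2.11) -/
noncomputable def Q (t : Stg W) (g : W) (n : ℕ) : F W →L[ℝ] F W :=
  ContinuousLinearMap.id ℝ (F W) - P t g - (e t g).comp (R {w | w.g = g ∧ w.n < n})

theorem Q_def (n : ℕ) : Q t g n x = x - P t g x - e t g (R {w | w.g = g ∧ w.n < n} x) := rfl

theorem Q_B (n : ℕ) : Q t g n x ∈ B t g n := by
  refine ⟨?_, fun m hm k => ?_⟩
  · rw [Q_def, map_sub, map_sub, P_P, P_e, sub_self, sub_zero]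
  · have h1 : (x - P t g x) (⟨g, m, k⟩ : Om W) = x ⟨g, m, k⟩ := sub_P_apply_ge (w := ⟨g, m, k⟩) le_rfl
    have h2 : e t g (R {w | w.g = g ∧ w.n < n} x) (⟨g, m, k⟩ : Om W) = x ⟨g, m, k⟩ := by
      rw [e_apply_eq (w := ⟨g, m, k⟩) rfl, R_mem (S := {w | w.g = g ∧ w.n < n}) ⟨rfl, hm⟩]
    rw [Q_def, BoundedContinuousFunction.sub_apply, h1, h2, sub_self]

theorem Q_apply_gt {n : ℕ} (h : g < w.g) : Q t g n x w = x w := by
  rw [Q_def, BoundedContinuousFunction.sub_apply, sub_P_apply_ge h.le, e_apply_gt h, sub_zero]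

theorem Q_norm (hf : ‖t.f‖ ≤ 1) (n : ℕ) (x : F W) : ‖Q t g n x‖ ≤ ‖R {w | g ≤ w.g} x‖ := by
  rw [norm_B hf (Q_B n)]
  refine norm_R_le_of (norm_nonneg _) fun w hw => ?_
  rcases eq_or_lt_of_le (show g ≤ w.g from hw) with h | h
  · rw [Q_def, BoundedContinuousFunction.sub_apply, sub_P_apply_ge hw, e_apply_eq h.symm]
    by_cases hn : w.n < n
    · rw [R_mem (S := {w | w.g = g ∧ w.n < n}) (show _ ∧ _ from ⟨h.symm, hn⟩), sub_self, abs_zero]
      exact norm_nonneg _
    · rw [R_not_mem (S := {w | w.g = g ∧ w.n < n}) (fun hh => hn hh.2), sub_zero]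
      exact le_norm_R (S := {w | g ≤ w.g}) hw x
  · rw [Q_apply_gt h]; exact le_norm_R (S := {w | g ≤ w.g}) hw x

theorem Q_of_B {n : ℕ} (hx : x ∈ B t g n) : Q t g n x = x := by
  rw [Q_def, hx.1, sub_zero, R_eq_zero, map_zero, sub_zero]
  rintro ⟨a, m, k⟩ ⟨h1, h2⟩
  simp only at h1 h2
  subst h1
  exact hx.2 m h2 k

end order

end Pool.Agent.JO
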