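import Pool.Agent.Lib.JO.Pdb

/-!
# Reduction, density (L2.10, L2.11, L2.13)

PROOFS.
`e_mem`: `c ∈ V A g → e (s g) g c ∈ D s (sc g)`: generator.
`Q_D`: `x - Q x = P x + e_g(R {rows < n} x)`; P x ∈ D s g ≤ D s (sc g); `R {..} x ∈ V (s g).A g` (rows < n of x in A by `row_mem`, the others 0), so e_g(..) ∈ D s (sc g);
   `Q x = x - (..) ∈ D s h`, since sc g ≤ h.
`Q_X`: closure (Q continuous; `x - Q x` too).
`B_dense` (L2.10): x ∈ X s h ∩ B, ε > 0: v0 ∈ D s h with ‖v0 - x‖ < ε / 4 (closure), v := Q v0; ‖v - x‖ = ‖Q (v0 - x)‖ ≤ ‖v0 - x‖ (`Q_of_B`, `Q_norm`, `norm_R_le`).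
`unit_B` (L2.13): A ≠ ⊥: choose a ∈ A, a ≠ 0, normalise; c := function with c ⟨b, n, k⟩ = a k, 0 elsewhere (`mk`), c ∈ V; y := e (s b) b c ∈ D s (sc b); `‖y‖ = ‖R {w | w.g = b} c‖ = ‖a‖ = 1`
   (`norm_e`); `y ∈ B (s b) b n`: `P_e`, rows m < n of y at b are rows of c: 0.

-/

set_option autoImplicit false

open Set Filter Topology

namespace Pool.Agent.JO

section
variable {W : Type} [LinearOrder W] [WellFoundedLT W] [OrderBot W] {s : W → Stg W} {d : W}

variable [Om1 W]

theorem e_mem {g : W} {c : F W} (hc : c ∈ V (s g).A g) : e (s g) g c ∈ D s (sc g) :=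
  Submodule.subset_span ⟨g, lt_sc g, c, hc, rfl⟩

theorem Q_D (hs : Sys s d) {g h : W} (gh : g < h) (hd : h ≤ d) (n : ℕ) {x : F W} (hx : x ∈ D s h) :
    Q (s g) g n x ∈ D s h ∧ x - Q (s g) g n x ∈ D s (sc g) := by
  have hgd : g < d := gh.trans_le hd
  have h1 : P (s g) g x ∈ D s (sc g) :=
    D_mono (lt_sc g).le (P_mem hs hgd gh.le hd hx)
  have h2 : R {w | w.g = g ∧ w.n < n} x ∈ V (s g).A g := by
    refine ⟨fun w hw => R_not_mem (S := {w | w.g = g ∧ w.n < n}) (fun hh => hw hh.1) x,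
      ⟨n, fun m hm k => R_not_mem (S := {w | w.g = g ∧ w.n < n})
        (fun hh => absurd hh.2 (not_lt.2 hm)) x⟩, fun m => ?_⟩
    by_cases hm : m < n
    · have : row g m (R {w | w.g = g ∧ w.n < n} x) = row g m x := by
        ext k
        rw [row_apply, row_apply]
        exact R_mem (S := {w | w.g = g ∧ w.n < n}) (w := ⟨g, m, k⟩) ⟨rfl, hm⟩ x
      rw [this]
      exact row_mem hs hgd hd hx m
    · have : row g m (R {w | w.g = g ∧ w.n < n} x) = 0 := by
        ext k
        rw [row_apply]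
        exact R_not_mem (S := {w | w.g = g ∧ w.n < n}) (w := ⟨g, m, k⟩) (fun hh => hm hh.2) x
      rw [this]
      exact Submodule.zero_mem _
  have h3 : x - Q (s g) g n x ∈ D s (sc g) := by
    have : x - Q (s g) g n x = P (s g) g x + e (s g) g (R {w | w.g = g ∧ w.n < n} x) := by
      rw [Q_def]
      abel
    rw [this]
    exact Submodule.add_mem _ h1 (e_mem h2)
  refine ⟨?_, h3⟩
  have h4 : Q (s g) g n x = x - (x - Q (s g) g n x) := by abel
  rw [h4]
  exact Submodule.sub_mem _ hx (D_mono (sc_le_iff.2 gh) h3)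

theorem Q_X (hs : Sys s d) {g h : W} (gh : g < h) (hd : h ≤ d) (n : ℕ) {x : F W} (hx : x ∈ X s h) :
    Q (s g) g n x ∈ X s h ∧ x - Q (s g) g n x ∈ X s (sc g) := by
  have hx' : x ∈ closure (D s h : Set (F W)) := hx
  constructor
  · exact map_mem_closure (Q (s g) g n).continuous hx' (fun y hy => (Q_D hs gh hd n hy).1)
  · exact map_mem_closure (f := fun y => y - Q (s g) g n y)
      (continuous_id.sub (Q (s g) g n).continuous) hx' (fun y hy => (Q_D hs gh hd n hy).2)

theorem B_dense (hs : Sys s d) {g h : W} (gh : g < h) (hd : h ≤ d) {n : ℕ} {x : F W} (hx : x ∈ X s h)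
    (hB : x ∈ B (s g) g n) {ε : ℝ} (hε : 0 < ε) : ∃ v ∈ D s h, v ∈ B (s g) g n ∧ ‖v - x‖ < ε := by
  have hx' : x ∈ closure (D s h : Set (F W)) := hx
  obtain ⟨v0, hv0, hd0⟩ := Metric.mem_closure_iff.1 hx' ε hε
  refine ⟨Q (s g) g n v0, (Q_D hs gh hd n hv0).1, Q_B n, ?_⟩
  have h1 : Q (s g) g n v0 - x = Q (s g) g n (v0 - x) := by
    rw [map_sub, Q_of_B hB]
  rw [h1]
  refine ((Q_norm (hs g (gh.trans_le hd)).f1 n _).trans (norm_R_le _ _)).trans_lt ?_
  rw [dist_comm, dist_eq_norm] at hd0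
  exact hd0

theorem unit_B (hs : Sys s d) {b : W} (hb : b < d) (n : ℕ) :
    ∃ a ∈ D s (sc b), a ∈ B (s b) b n ∧ ‖a‖ = 1 := by
  classical
  obtain ⟨a0, ha0, hne⟩ := Submodule.exists_mem_ne_zero_of_ne_bot (hs b hb).ne
  set a : L := ‖a0‖⁻¹ • a0 with ha
  have haA : a ∈ (s b).A := Submodule.smul_mem _ _ ha0
  have hna : ‖a‖ = 1 := by
    rw [ha, norm_smul, norm_inv, norm_norm, inv_mul_cancel₀ (norm_ne_zero_iff.2 hne)]
  set c : F W := mk (fun w => if w.g = b ∧ w.n = n then a w.k else 0) ‖a‖ (fun w => by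
    split_ifs
    · exact a.norm_coe_le_norm _
    · simp) with hc
  have hcV : c ∈ V (s b).A b := by
    refine ⟨fun w hw => ?_, ⟨n + 1, fun m hm k => ?_⟩, fun m => ?_⟩
    · rw [hc, mk_apply, if_neg (fun hh => hw hh.1)]
    · rw [hc, mk_apply, if_neg]
      rintro ⟨-, h2⟩
      simp only at h2
      omega
    · by_cases hm : m = n
      · have : row b m c = a := by
          ext k
          rw [row_apply, hc, mk_apply, if_pos ⟨rfl, hm⟩]
        rw [this]
        exact haA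
      · have : row b m c = 0 := by
          ext k
          rw [row_apply, hc, mk_apply, if_neg (fun hh => hm hh.2)]
          rfl
        rw [this]
        exact Submodule.zero_mem _
  refine ⟨e (s b) b c, e_mem hcV, ⟨P_e, fun m hm k => ?_⟩, ?_⟩
  · rw [e_apply_eq (w := ⟨b, m, k⟩) rfl, hc, mk_apply, if_neg]
    rintro ⟨-, h2⟩
    simp only at h2
    omega
  · rw [norm_e (hs b hb).f1, ← hna]
    apply le_antisymm
    · refine norm_R_le_of (norm_nonneg _) (fun w _ => ?_)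
      rw [hc, mk_apply]
      split_ifs
      · exact a.norm_coe_le_norm _
      · rw [abs_zero]
        exact norm_nonneg _
    · refine (BoundedContinuousFunction.norm_le (norm_nonneg _)).2 (fun k => ?_)
      have h1 := le_norm_R (S := {w : Om W | w.g = b}) (w := ⟨b, n, k⟩) rfl c
      have h2 : c ⟨b, n, k⟩ = a k := by
        rw [hc, mk_apply, if_pos ⟨rfl, rfl⟩]
      rw [h2] at h1
      exact h1

end


end Pool.Agent.JO
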