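import Pool.Agent.Lib.JO.Tl
import Pool.Agent.Lib.JO.Dsj

/-!
# The spaces `D`, `X` (basics)

PROOFS.
`D_supp`: span induction; `e (s b) b c`, `b < g ≤ w.g`: `e_apply_gt`.  `X_supp`: closure (evaluation is continuous).
`D_mono`: `Submodule.span_mono`.
`E_split`: pointwise; at w with w.g < g: exactly the index j = J w contributes (`y_apply_pos`, `y_apply_neg`), ss j * ss j is not needed: (ss j * c ⟨g, nn j, kk j⟩) * f w = E t g c w if J w < m; at g ≤ w.g both sides are 0.
-/

set_option autoImplicit false

open Set Filter Topology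

namespace Pool.Agent.JO


section
variable {W : Type} [LinearOrder W] {s : W → Stg W}

theorem D_supp {g : W} {x : F W} (hx : x ∈ D s g) {w : Om W} (hw : g ≤ w.g) : x w = 0 := by
  unfold D at hx
  induction hx using Submodule.span_induction with
  | mem x hx =>
    obtain ⟨b, hb, c, -, rfl⟩ := hx
    exact e_apply_gt (hb.trans_le hw)
  | zero => rfl
  | add x y _ _ h1 h2 => rw [BoundedContinuousFunction.add_apply, h1, h2, add_zero]
  | smul a x _ h => rw [BoundedContinuousFunction.smul_apply, h, smul_zero]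

theorem D_mono {b g : W} (h : b ≤ g) : D s b ≤ D s g := by
  unfold D
  refine Submodule.span_mono ?_
  rintro x ⟨c, hc, r⟩
  exact ⟨c, hc.trans_le h, r⟩

theorem X_mono {b g : W} (h : b ≤ g) : X s b ≤ X s g := by
  exact Submodule.topologicalClosure_mono (D_mono h)

theorem D_le_X (g : W) : D s g ≤ X s g := by
  exact Submodule.le_topologicalClosure _

theorem X_supp {g : W} {x : F W} (hx : x ∈ X s g) {w : Om W} (hw : g ≤ w.g) : x w = 0 := by
  have hcl : IsClosed {x : F W | x w = 0} := by
    have hc : Continuous fun x : F W => x w := (BoundedContinuousFunction.evalCLM ℝ w).continuous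
    exact isClosed_eq hc continuous_const
  have hx' : x ∈ closure (D s g : Set (F W)) := by
    have h1 : x ∈ (D s g).topologicalClosure := hx
    rwa [← SetLike.mem_coe, Submodule.topologicalClosure_coe] at h1
  exact closure_minimal (fun y hy => D_supp hy hw) hcl hx'

/-- every element of `D s h` is `0` or has a last stage -/
theorem D_last {h : W} {x : F W} (hx : x ∈ D s h) :
    x = 0 ∨ ∃ b < h, ∃ z ∈ D s b, ∃ c ∈ V (s b).A b, x = z + e (s b) b c := by
  unfold D at hx
  induction hx using Submodule.span_induction with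
  | mem x hx =>
    obtain ⟨b, hb, c, hc, rfl⟩ := hx
    exact Or.inr ⟨b, hb, 0, Submodule.zero_mem _, c, hc, (zero_add _).symm⟩
  | zero => exact Or.inl rfl
  | add x y _ _ h1 h2 =>
    rcases h1 with rfl | ⟨b, hb, z, hz, c, hc, rfl⟩
    · rw [zero_add]
      exact h2
    rcases h2 with rfl | ⟨b', hb', z', hz', c', hc', rfl⟩
    · rw [add_zero]
      exact Or.inr ⟨b, hb, z, hz, c, hc, rfl⟩
    right
    have hgen : ∀ {a a' : W} {d : F W}, a < a' → d ∈ V (s a).A a → e (s a) a d ∈ D s a' := by
      intro a a' d ha hd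
      exact Submodule.subset_span ⟨a, ha, d, hd, rfl⟩
    rcases lt_trichotomy b b' with hbb | hbb | hbb
    · refine ⟨b', hb', z + e (s b) b c + z', ?_, c', hc', by abel⟩
      exact Submodule.add_mem _ (Submodule.add_mem _ (D_mono hbb.le hz) (hgen hbb hc)) hz'
    · subst hbb
      refine ⟨b, hb, z + z', Submodule.add_mem _ hz hz', c + c', Submodule.add_mem _ hc hc', ?_⟩
      rw [map_add]
      abel
    · refine ⟨b, hb, z + (z' + e (s b') b' c'), ?_, c, hc, by abel⟩
      exact Submodule.add_mem _ hz (Submodule.add_mem _ (D_mono hbb.le hz') (hgen hbb hc'))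
  | smul a x _ h =>
    rcases h with rfl | ⟨b, hb, z, hz, c, hc, rfl⟩
    · left
      rw [smul_zero]
    · exact Or.inr ⟨b, hb, a • z, Submodule.smul_mem _ a hz, a • c, Submodule.smul_mem _ a hc, by
        rw [smul_add, map_smul]⟩

/-- splitting `E_g(c)` into the first `m` blocks and a tail -/
theorem E_split {t : Stg W} {g : W} (ht : ∀ j w, g ≤ w.g → t.y j w = 0) (c : F W) (m : ℕ) :
    E t g c = (∑ j ∈ Finset.range m, (ss j * c ⟨g, nn j, kk j⟩) • t.y j) +
      R {w | t.J w ∈ {j | m ≤ j}} (E t g c) := by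
  ext w
  rw [BoundedContinuousFunction.add_apply, BoundedContinuousFunction.coe_sum, Finset.sum_apply]
  have hterm : ∀ j, ((ss j * c ⟨g, nn j, kk j⟩) • t.y j) w = (ss j * c ⟨g, nn j, kk j⟩) * t.y j w := by
    intro j
    rw [BoundedContinuousFunction.smul_apply, smul_eq_mul]
  rw [Finset.sum_congr rfl fun j _ => hterm j]
  rcases lt_or_ge w.g g with hw | hw
  · rw [E_apply_lt hw]
    by_cases hJ : t.J w < m
    · rw [R_not_mem (S := {w | t.J w ∈ {j | m ≤ j}}) (show ¬ (m ≤ t.J w) from not_le.mpr hJ), add_zero,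
        Finset.sum_eq_single (t.J w)]
      · rw [y_apply_pos rfl]
        ring
      · intro j _ hj
        rw [y_apply_neg (Ne.symm hj), mul_zero]
      · intro hn
        exact absurd (Finset.mem_range.mpr hJ) hn
    · rw [R_mem (S := {w | t.J w ∈ {j | m ≤ j}}) (show m ≤ t.J w from not_lt.mp hJ), E_apply_lt hw,
        Finset.sum_eq_zero, zero_add]
      intro j hj
      rw [y_apply_neg (fun h => hJ (h ▸ Finset.mem_range.mp hj)), mul_zero]
  · rw [E_apply_ge hw, Finset.sum_eq_zero (fun j _ => by rw [ht j w hw, mul_zero]), zero_add, R_apply]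
    split_ifs
    · rw [E_apply_ge hw]
    · rfl

end

end Pool.Agent.JO
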