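import Pool.Agent.Lib.JO.Pda

/-!
# The projections (L2.5, L2.6, L2.12)

PROOFS.
`P_mem`: strong induction on `h` (for all x ∈ D s h, h ≤ d); span induction for x, generator `x = e (s b) b c`, `b < h`, `c ∈ V`:
   b < g: x supported below g (`e_apply_gt`), `P_of_supp`, and x ∈ D s g.   b = g: `P_e`.
   g < b: `P (s g) g x = P (s g) g (E (s b) b c)` (`P_congr`; x = E.. on w.g ≤ g < b). By (g2) and `eventually_atTop` there is m with
   `(s b).y j ∈ B (s g) g 0` for all `j ≥ m`. `E (s b) b c = ∑ j<m, (ss j * c ⟨b, nn j, kk j⟩) • (s b).y j + R {w | (s b).J w ∈ {j | m ≤ j}} (E (s b) b c)`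
   (pointwise; lemma `E_split` below, needs that the y j vanish on `b ≤ w.g`, `D_supp`). The last term is killed by P_g (`tail_mem`); the first is a finite
   sum with `P (s g) g ((s b).y j) ∈ D s g` by the induction hypothesis for b < h (`(s b).y j ∈ D s b`, b > g ≥ ⊥).
`row_mem`: same induction: b < g: the row is 0; b = g: `row g n x = row g n c ∈ A` (`e_apply_eq`); g < b: take m with `(s b).y j ∈ B (s g) g (n+1)` for
   `j ≥ m`; the row n of the tail is 0, the rest is a finite sum of rows of `(s b).y j` (in A by induction). b > g. (h ≤ g: rows are 0: `D_supp`.)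
   (`row g n` is additive and homogeneous: prove `row_add`, `row_smul`, `row_sum`.)
`P_memX`, `row_memX`: closure (`Submodule.topologicalClosure`, `map_mem_closure` with continuity of P resp. of `row g n` (it is 1-Lipschitz), A closed).
`sub_P_X`: x - P x ∈ X s h, by P_memX and X_mono.
`dist_X` (L2.12): at w with g ≤ w.g: z w = 0 (`X_supp`).
-/

set_option autoImplicit false

open Set Filter Topology

namespace Pool.Agent.JO

section
variable {W : Type} [LinearOrder W] [WellFoundedLT W] [OrderBot W] {s : W → Stg W} {d : W}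

/-- the rows as a continuous linear map -/
private noncomputable def rowL (g : W) (n : ℕ) : F W →L[ℝ] L :=
  LinearMap.mkContinuous
    { toFun := fun x => row g n x
      map_add' := fun x y => by ext k; rfl
      map_smul' := fun a x => by ext k; rfl }
    1 (fun x => by
      rw [one_mul]
      exact (BoundedContinuousFunction.norm_le (norm_nonneg _)).2 fun k => x.norm_coe_le_norm _)

omit [WellFoundedLT W] [OrderBot W] in
private theorem rowL_apply (g : W) (n : ℕ) (x : F W) : rowL g n x = row g n x := rfl

private theorem gen_P (hs : Sys s d) {g b : W} (gb : g < b) (hb : b < d)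
    (IH : ∀ x ∈ D s b, P (s g) g x ∈ D s g) (c : F W) : P (s g) g (e (s b) b c) ∈ D s g := by
  have hG := hs b hb
  have hpos : ⊥ < b := bot_le.trans_lt gb
  have h1 : P (s g) g (e (s b) b c) = P (s g) g (E (s b) b c) :=
    P_congr fun w hw => e_apply_lt' (hw.trans_lt gb)
  obtain ⟨m, hm⟩ := eventually_atTop.1 (hG.ev g gb 0)
  have h2 : P (s g) g (R {w | (s b).J w ∈ {j | m ≤ j}} (E (s b) b c)) = 0 :=
    (tail_mem gb {j | m ≤ j} (fun j hj => hm j hj) c).1
  rw [h1, E_split (fun j w hw => D_supp (hG.mem hpos j) hw) c m, map_add, h2, add_zero, map_sum]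
  refine Submodule.sum_mem _ fun j _ => ?_
  rw [map_smul]
  exact Submodule.smul_mem _ _ (IH _ (hG.mem hpos j))

private theorem gen_row (hs : Sys s d) {g b : W} (gb : g < b) (hb : b < d) (n : ℕ)
    (IH : ∀ x ∈ D s b, rowL g n x ∈ (s g).A) (c : F W) : rowL g n (e (s b) b c) ∈ (s g).A := by
  have hG := hs b hb
  have hpos : ⊥ < b := bot_le.trans_lt gb
  have h1 : rowL g n (e (s b) b c) = rowL g n (E (s b) b c) := by
    ext k
    exact e_apply_lt' (w := ⟨g, n, k⟩) gb
  obtain ⟨m, hm⟩ := eventually_atTop.1 (hG.ev g gb (n + 1))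
  have h2 : rowL g n (R {w | (s b).J w ∈ {j | m ≤ j}} (E (s b) b c)) = 0 := by
    ext k
    exact (tail_mem gb {j | m ≤ j} (fun j hj => hm j hj) c).2 n (Nat.lt_succ_self n) k
  rw [h1, E_split (fun j w hw => D_supp (hG.mem hpos j) hw) c m, map_add, h2, add_zero, map_sum]
  refine Submodule.sum_mem _ fun j _ => ?_
  rw [map_smul]
  exact Submodule.smul_mem _ _ (IH _ (hG.mem hpos j))

theorem P_mem (hs : Sys s d) {g h : W} (hg : g < d) (gh : g ≤ h) (hd : h ≤ d) {x : F W} (hx : x ∈ D s h) :
    P (s g) g x ∈ D s g := by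
  induction h using WellFoundedLT.induction generalizing x with
  | ind h IH =>
    unfold D at hx
    induction hx using Submodule.span_induction with
    | mem x hx =>
      obtain ⟨b, hb, c, hc, rfl⟩ := hx
      rcases lt_trichotomy b g with h1 | h1 | h1
      · rw [P_of_supp fun w hw => e_apply_gt (h1.trans_le hw)]
        exact Submodule.subset_span ⟨b, h1, c, hc, rfl⟩
      · subst h1
        rw [P_e]
        exact Submodule.zero_mem _
      · exact gen_P hs h1 (hb.trans_le hd) (fun x hx => IH b hb h1.le (hb.le.trans hd) hx) c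
    | zero => rw [map_zero]; exact Submodule.zero_mem _
    | add x y _ _ hx hy => rw [map_add]; exact Submodule.add_mem _ hx hy
    | smul a x _ hx => rw [map_smul]; exact Submodule.smul_mem _ _ hx

theorem row_mem (hs : Sys s d) {g h : W} (hg : g < d) (hd : h ≤ d) {x : F W} (hx : x ∈ D s h) (n : ℕ) :
    row g n x ∈ (s g).A := by
  rw [← rowL_apply]
  induction h using WellFoundedLT.induction generalizing x with
  | ind h IH =>
    unfold D at hx
    induction hx using Submodule.span_induction with
    | mem x hx =>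
      obtain ⟨b, hb, c, hc, rfl⟩ := hx
      rcases lt_trichotomy b g with h1 | h1 | h1
      · have h2 : rowL g n (e (s b) b c) = 0 := by
          ext k
          exact e_apply_gt (w := ⟨g, n, k⟩) h1
        rw [h2]
        exact Submodule.zero_mem _
      · subst h1
        have h2 : rowL b n (e (s b) b c) = row b n c := by
          ext k
          exact e_apply_eq (w := ⟨b, n, k⟩) rfl
        rw [h2]
        exact hc.2.2 n
      · exact gen_row hs h1 (hb.trans_le hd) n (fun x hx => IH b hb (hb.le.trans hd) hx) c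
    | zero => rw [map_zero]; exact Submodule.zero_mem _
    | add x y _ _ hx hy => rw [map_add]; exact Submodule.add_mem _ hx hy
    | smul a x _ hx => rw [map_smul]; exact Submodule.smul_mem _ _ hx

theorem P_memX (hs : Sys s d) {g h : W} (hg : g < d) (gh : g ≤ h) (hd : h ≤ d) {x : F W} (hx : x ∈ X s h) :
    P (s g) g x ∈ X s g :=
  map_mem_closure (P (s g) g).continuous hx fun _ hy => P_mem hs hg gh hd hy

theorem row_memX (hs : Sys s d) {g h : W} (hg : g < d) (hd : h ≤ d) {x : F W} (hx : x ∈ X s h) (n : ℕ) :
    row g n x ∈ (s g).A := by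
  have h1 : rowL g n x ∈ closure ((s g).A : Set L) :=
    map_mem_closure (rowL g n).continuous hx fun _ hy => row_mem hs hg hd hy n
  rw [(hs g hg).cl.closure_eq] at h1
  exact h1

theorem sub_P_X (hs : Sys s d) {g h : W} (hg : g < d) (gh : g ≤ h) (hd : h ≤ d) {x : F W} (hx : x ∈ X s h) :
    x - P (s g) g x ∈ X s h :=
  Submodule.sub_mem _ hx (X_mono gh (P_memX hs hg gh hd hx))

theorem dist_X {g : W} {x z : F W} (hz : z ∈ X s g) : ‖R {w | g ≤ w.g} x‖ ≤ ‖x - z‖ := by
  refine norm_R_le_of (norm_nonneg _) fun w hw => ?_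
  have h1 := abs_le_norm (x - z) w
  rwa [BoundedContinuousFunction.sub_apply, X_supp hz hw, sub_zero] at h1

end

end Pool.Agent.JO
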