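import Pool.Agent.Lib.JO.Sx
import Pool.Agent.Lib.JO.Ifc

/-!
# Seminorms on subspaces, quotient seminorms, families

PROOFS: elementary (`Real.sInf_le_iff`, `csInf_le`, `exists_lt_of_csInf_lt`); the set `(fun z => N (x + z)) '' Y` is nonempty and bounded below by 0.
`dN_sn`: add: for z, z' ∈ Y: `dN (x + y) ≤ N (x + y + (z + z')) ≤ N (x + z) + N (y + z')`; smul: t = 0: `dN 0 = 0`; t ≠ 0: `N (t x + z) = |t| N (x + t⁻¹ z)`, both inequalities.
`fam_lower`: `c * ‖R {g ≤ w.g} x‖ ≤ c * ‖x + z‖ ≤ N (x + z)` for z ∈ X s g (`dist_X`).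
-/

set_option autoImplicit false

open Set Filter Topology

namespace Pool.Agent.JO

section
variable {F : Type} [NormedAddCommGroup F] [NormedSpace ℝ F]

/-- `N` is a seminorm on the subspace `Y` -/
structure Sn (Y : Submodule ℝ F) (N : F → ℝ) : Prop where
  add : ∀ x ∈ Y, ∀ y ∈ Y, N (x + y) ≤ N x + N y
  smul : ∀ (t : ℝ), ∀ x ∈ Y, N (t • x) = |t| * N x

/-- the quotient seminorm, the distance to `Y` -/
noncomputable def dN (N : F → ℝ) (Y : Submodule ℝ F) (x : F) : ℝ := sInf ((fun z => N (x + z)) '' (Y : Set F))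

variable {X Y Y' : Submodule ℝ F} {N N' : F → ℝ}

theorem Sn.mono (h : Sn X N) (hY : Y ≤ X) : Sn Y N :=
  ⟨fun x hx y hy => h.add x (hY hx) y (hY hy), fun t x hx => h.smul t x (hY hx)⟩

theorem Sn.zero (h : Sn X N) : N 0 = 0 := by
  have := h.smul 0 0 X.zero_mem
  simpa using this

theorem Sn.neg (h : Sn X N) {x : F} (hx : x ∈ X) : N (-x) = N x := by
  have := h.smul (-1) x hx
  simpa using this

theorem Sn.nonneg (h : Sn X N) {x : F} (hx : x ∈ X) : 0 ≤ N x := by
  have h1 := h.add x hx (-x) (X.neg_mem hx)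
  rw [h.neg hx, add_neg_cancel, h.zero] at h1
  linarith

theorem Sn.sub (h : Sn X N) {x y : F} (hx : x ∈ X) (hy : y ∈ X) : N (x - y) ≤ N x + N y := by
  have h1 := h.add x hx (-y) (X.neg_mem hy)
  rwa [h.neg hy, ← sub_eq_add_neg] at h1

theorem Sn.le_add (h : Sn X N) {x y : F} (hx : x ∈ X) (hy : y ∈ X) : N x ≤ N y + N (x - y) := by
  have h1 := h.add y hy (x - y) (X.sub_mem hx hy)
  rwa [add_sub_cancel] at h1

/-- a seminorm bounded by `C ‖·‖` is Lipschitz -/
theorem Sn.lip (h : Sn X N) {C : ℝ} (hC : ∀ x ∈ X, N x ≤ C * ‖x‖) {x y : F} (hx : x ∈ X) (hy : y ∈ X) :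
    |N x - N y| ≤ C * ‖x - y‖ := by
  have h1 := h.le_add hx hy
  have h2 := h.le_add hy hx
  have h3 : N (y - x) = N (x - y) := by
    rw [← h.neg (X.sub_mem hx hy), neg_sub]
  have h4 := hC _ (X.sub_mem hx hy)
  rw [h3] at h2
  rw [abs_le]
  constructor <;> linarith

theorem dN_le (h : Sn X N) (hY : Y ≤ X) {x z : F} (hx : x ∈ X) (hz : z ∈ Y) : dN N Y x ≤ N (x + z) := by
  refine csInf_le ⟨0, ?_⟩ ⟨z, hz, rfl⟩
  rintro _ ⟨z', hz', rfl⟩
  exact h.nonneg (X.add_mem hx (hY hz'))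

theorem dN_le_self (h : Sn X N) (hY : Y ≤ X) {x : F} (hx : x ∈ X) : dN N Y x ≤ N x := by
  have := dN_le h hY hx Y.zero_mem
  rwa [add_zero] at this

theorem exists_of_dN_lt {x : F} {r : ℝ} (h : dN N Y x < r) : ∃ z ∈ Y, N (x + z) < r := by
  obtain ⟨_, ⟨z, hz, rfl⟩, hlt⟩ := exists_lt_of_csInf_lt
    (Set.Nonempty.image _ ⟨0, Y.zero_mem⟩) h
  exact ⟨z, hz, hlt⟩

theorem le_dN {x : F} {r : ℝ} (h : ∀ z ∈ Y, r ≤ N (x + z)) : r ≤ dN N Y x := by
  refine le_csInf (Set.Nonempty.image _ ⟨0, Y.zero_mem⟩) ?_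
  rintro _ ⟨z, hz, rfl⟩
  exact h z hz

theorem dN_sn (h : Sn X N) (hY : Y ≤ X) : Sn X (dN N Y) := by
  constructor
  · intro x hx y hy
    refine le_of_forall_pos_lt_add fun ε hε => ?_
    obtain ⟨z, hz, h1⟩ := exists_of_dN_lt (N := N) (Y := Y) (x := x) (r := dN N Y x + ε / 2)
      (by linarith)
    obtain ⟨z', hz', h2⟩ := exists_of_dN_lt (N := N) (Y := Y) (x := y) (r := dN N Y y + ε / 2)
      (by linarith)
    have h3 := dN_le h hY (X.add_mem hx hy) (Y.add_mem hz hz')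
    have h4 := h.add _ (X.add_mem hx (hY hz)) _ (X.add_mem hy (hY hz'))
    have e : x + y + (z + z') = x + z + (y + z') := by abel
    rw [e] at h3
    linarith
  · intro t x hx
    by_cases ht : t = 0
    · subst ht
      rw [zero_smul, abs_zero, zero_mul]
      apply le_antisymm
      · have := dN_le_self h hY X.zero_mem
        rwa [h.zero] at this
      · exact le_dN fun z hz => h.nonneg (X.add_mem X.zero_mem (hY hz))
    · have ht' : 0 < |t| := abs_pos.2 ht
      apply le_antisymm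
      · rw [← div_le_iff₀' ht']
        refine le_dN fun z hz => ?_
        rw [div_le_iff₀' ht', ← h.smul t _ (X.add_mem hx (hY hz)), smul_add]
        exact dN_le h hY (X.smul_mem t hx) (Y.smul_mem t hz)
      · refine le_dN fun z hz => ?_
        have e : t • x + z = t • (x + t⁻¹ • z) := by
          rw [smul_add, smul_smul, mul_inv_cancel₀ ht, one_smul]
        rw [e, h.smul t _ (X.add_mem hx (hY (Y.smul_mem _ hz)))]
        exact mul_le_mul_of_nonneg_left (dN_le h hY hx (Y.smul_mem _ hz)) ht'.le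

theorem dN_add_mem (h : Sn X N) (hY : Y ≤ X) {x z : F} (hx : x ∈ X) (hz : z ∈ Y) : dN N Y (x + z) = dN N Y x := by
  apply le_antisymm
  · refine le_dN fun z' hz' => ?_
    have := dN_le h hY (X.add_mem hx (hY hz)) (Y.add_mem (Y.neg_mem hz) hz')
    have e : x + z + (-z + z') = x + z' := by abel
    rwa [e] at this
  · refine le_dN fun z' hz' => ?_
    have := dN_le h hY hx (Y.add_mem hz hz')
    rwa [← add_assoc] at this

theorem dN_mem (h : Sn X N) (hY : Y ≤ X) {z : F} (hz : z ∈ Y) : dN N Y z = 0 := by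
  have h1 := dN_add_mem h hY X.zero_mem hz
  rw [zero_add] at h1
  rw [h1]
  exact (dN_sn h hY).zero

theorem dN_anti (h : Sn X N) (hY : Y ≤ Y') (hY' : Y' ≤ X) {x : F} (hx : x ∈ X) : dN N Y' x ≤ dN N Y x := by
  exact le_dN fun z hz => dN_le h hY' hx (hY hz)

theorem dN_congr (hY : Y ≤ X) (h : ∀ x ∈ X, N x = N' x) {x : F} (hx : x ∈ X) : dN N Y x = dN N' Y x := by
  unfold dN
  congr 1
  apply Set.image_congr
  intro z hz
  exact h _ (X.add_mem hx (hY hz))

end

variable {W : Type} [LinearOrder W] [OrderBot W]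

/-- the space of a condition -/
noncomputable abbrev SX (p : Cond W) : Submodule ℝ (F W) := X p.s p.d

variable {DD : Set (Cond W)} {c C : ℝ} {N : Cond W → F W → ℝ}

theorem fam_sn (hN : IsFam SX DD c C N) {p : Cond W} (hp : p ∈ DD) : Sn (SX p) (N p) :=
  ⟨hN.add p hp, hN.smul p hp⟩

theorem fam_lower (hN : IsFam SX DD c C N) (hc : 0 < c) {p : Cond W} (hp : p ∈ DD) {g : W} (hg : g ≤ p.d)
    {x : F W} (hx : x ∈ SX p) : c * ‖R {w | g ≤ w.g} x‖ ≤ dN (N p) (X p.s g) x := by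
  refine le_dN fun z hz => ?_
  have hz' : z ∈ SX p := X_mono hg hz
  have h1 : ‖R {w | g ≤ w.g} x‖ ≤ ‖x + z‖ := by
    refine norm_R_le_of (norm_nonneg _) fun w hw => ?_
    have h2 := abs_le_norm (x + z) w
    rwa [BoundedContinuousFunction.add_apply, X_supp hz hw, add_zero] at h2
  exact (mul_le_mul_of_nonneg_left h1 hc.le).trans (hN.lower p hp _ ((SX p).add_mem hx hz'))

/-- coherence of the quotient seminorms -/
theorem fam_dN_coh (hN : IsFam SX DD c C N) {p q : Cond W} (hp : p ∈ DD) (hq : q ∈ DD) (h : q ≤ p) {g : W}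
    (hg : g ≤ p.d) {x : F W} (hx : x ∈ SX p) : dN (N q) (X q.s g) x = dN (N p) (X p.s g) x := by
  have e : X q.s g = X p.s g := X_congr fun b hb => h.2 b (hb.trans_le hg)
  rw [e]
  exact dN_congr (X := SX p) (X_mono hg) (fun y hy => hN.coh p hp q hq h y hy) hx

end Pool.Agent.JO
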