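import Pool.Agent.Lib.JO.Cnd

/-!
# Stabilisation (A2)

PROOF.
`stab`: p^0 = p0, p^{k+1} ≤ p^k with `∀ p ≤ p^k, S (p^{k+1}) ≤ S p + 1/(k+1)` (exists: `sInf` of S on {p ≤ p^k}, bounded below by m); p1 = lm. For p ≤ p1: S p ≤ S p1 (mono), and
 `S p1 ≤ S (p^{k+1}) ≤ S p + 1/(k+1)` for all k (p ≤ p1 ≤ p^{k+1} ≤ p^k).
-/

set_option autoImplicit false

open Set Filter Topology

namespace Pool.Agent.JO

variable {W : Type} [LinearOrder W] [WellFoundedLT W] [OrderBot W] [Om1 W]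

theorem stab (S : Cond W → ℝ) (p0 : Cond W) (m : ℝ) (mono : ∀ p ≤ p0, ∀ q ≤ p, S q ≤ S p)
    (bdd : ∀ p ≤ p0, m ≤ S p) : ∃ p1 ≤ p0, ∀ p ≤ p1, S p = S p1 := by
  have key : ∀ (k : ℕ) (q : {q : Cond W // q ≤ p0}), ∃ q' : {q : Cond W // q ≤ p0}, q'.1 ≤ q.1 ∧
      ∀ p ≤ q'.1, S q'.1 ≤ S p + 1 / ((k : ℝ) + 1) := by
    rintro k ⟨q, hq⟩
    have hb : BddBelow (S '' {p | p ≤ q}) := ⟨m, by
      rintro _ ⟨p, hp, rfl⟩
      exact bdd p (le_trans hp hq)⟩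
    have hne : (S '' {p | p ≤ q}).Nonempty := ⟨S q, q, le_refl q, rfl⟩
    have hε : (0 : ℝ) < 1 / ((k : ℝ) + 1) := by positivity
    obtain ⟨_, ⟨p', hp', rfl⟩, hlt⟩ := exists_lt_of_csInf_lt hne (lt_add_of_pos_right (sInf (S '' {p | p ≤ q})) hε)
    refine ⟨⟨p', le_trans hp' hq⟩, hp', fun p hp => ?_⟩
    have h1 : sInf (S '' {p | p ≤ q}) ≤ S p := csInf_le hb ⟨p, le_trans hp hp', rfl⟩
    have h2 : S p' < sInf (S '' {p | p ≤ q}) + 1 / ((k : ℝ) + 1) := hlt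
    show S p' ≤ _
    linarith
  choose step hstep1 hstep2 using key
  let r' : ℕ → {q : Cond W // q ≤ p0} := fun n => Nat.rec ⟨p0, le_rfl⟩ (fun k q => step k q) n
  have hr' : ∀ k, r' (k + 1) = step k (r' k) := fun k => rfl
  have hanti : Antitone fun k => (r' k).1 := by
    refine antitone_nat_of_succ_le fun k => ?_
    rw [hr']
    exact hstep1 k (r' k)
  refine ⟨lm fun k => (r' k).1, lm_le hanti 0, fun p hp => ?_⟩
  have hp1 : lm (fun k => (r' k).1) ≤ p0 := lm_le hanti 0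
  refine le_antisymm (mono _ hp1 p hp) ?_
  refine le_of_forall_pos_le_add fun ε hε => ?_
  obtain ⟨k, hk⟩ := exists_nat_one_div_lt hε
  have hk1 : lm (fun k => (r' k).1) ≤ (r' (k + 1)).1 := lm_le hanti (k + 1)
  have h1 : S (lm fun k => (r' k).1) ≤ S (r' (k + 1)).1 := mono _ (r' (k + 1)).2 _ hk1
  have h2 : S (r' (k + 1)).1 ≤ S p + 1 / ((k : ℝ) + 1) := by
    rw [hr'] at hk1 ⊢
    exact hstep2 k (r' k) p (le_trans hp hk1)
  linarith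

end Pool.Agent.JO
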