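import Mathlib
import Pool.Agent.Lib.MP_11349d_lc.Stmt

/-!
# A nonseparable Banach space with a finite Banach-Mazur diameter, in a model of set theory
(statement, MP_76005e_an)

Predicates for a structure `(M, E)` for the language of set theory (`E x y` is read as `x ∈ y`). `Sub`, `IsPair`, `Rel`,
`IsOmega` are defined in `Lib/MP_11349d_lc/Stmt.lean`: `Rel E f u v` says that the ordered pair `(u, v)` is an element of `f`.
-/

set_option autoImplicit false

namespace Pool.Agent.JO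

open Pool.Agent.BPF

/-- The sets `w = ω` and `r = ℝ`, the addition `a`, the multiplication `m` and the order `l` of `ℝ`, and the elements
`o = 0` and `i = 1` of `ℝ`. -/
structure Rl (M : Type*) where
  w : M
  r : M
  a : M
  m : M
  l : M
  o : M
  i : M

section
variable {M : Type*} (E : M → M → Prop)

/-- `f` is a function from `x` to `y`: a set of pairs `(u, v)`, `u ∈ x`, `v ∈ y`, exactly one for every `u ∈ x` -/
def IsFn (f x y : M) : Prop :=
  (∀ p, E p f → ∃ u v, E u x ∧ E v y ∧ IsPair E p u v) ∧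
    ∀ u, E u x → ∃ v, E v y ∧ ∀ t, Rel E f u t ↔ t = v

/-- `g(u, v) = z`: the pair `((u, v), z)` is an element of `g` -/
def Op (g u v z : M) : Prop := ∃ p, IsPair E p u v ∧ Rel E g p z

/-- `(r, a, m, l, o, i)` is a complete ordered field -/
structure IsReals (R : Rl M) : Prop where
  zero_mem : E R.o R.r
  one_mem : E R.i R.r
  zero_ne_one : R.o ≠ R.i
  add_fn : ∀ u v, E u R.r → E v R.r → ∃ z, E z R.r ∧ ∀ t, Op E R.a u v t ↔ t = z
  mul_fn : ∀ u v, E u R.r → E v R.r → ∃ z, E z R.r ∧ ∀ t, Op E R.m u v t ↔ t = z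
  add_comm : ∀ u v z, E u R.r → E v R.r → E z R.r → Op E R.a u v z → Op E R.a v u z
  mul_comm : ∀ u v z, E u R.r → E v R.r → E z R.r → Op E R.m u v z → Op E R.m v u z
  add_assoc : ∀ u v z, E u R.r → E v R.r → E z R.r →
    ∀ p q s, Op E R.a u v p → Op E R.a v z q → Op E R.a p z s → Op E R.a u q s
  mul_assoc : ∀ u v z, E u R.r → E v R.r → E z R.r →
    ∀ p q s, Op E R.m u v p → Op E R.m v z q → Op E R.m p z s → Op E R.m u q s
  distrib : ∀ u v z, E u R.r → E v R.r → E z R.r →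
    ∀ p q s t, Op E R.a v z p → Op E R.m u v q → Op E R.m u z s → Op E R.m u p t → Op E R.a q s t
  add_zero : ∀ u, E u R.r → Op E R.a u R.o u
  mul_one : ∀ u, E u R.r → Op E R.m u R.i u
  neg : ∀ u, E u R.r → ∃ v, E v R.r ∧ Op E R.a u v R.o
  inv : ∀ u, E u R.r → u ≠ R.o → ∃ v, E v R.r ∧ Op E R.m u v R.i
  total : ∀ u v, E u R.r → E v R.r → Rel E R.l u v ∨ Rel E R.l v u
  antisymm : ∀ u v, E u R.r → E v R.r → Rel E R.l u v → Rel E R.l v u → u = v
  trans : ∀ u v z, E u R.r → E v R.r → E z R.r → Rel E R.l u v → Rel E R.l v z → Rel E R.l u z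
  le_add : ∀ u v z, E u R.r → E v R.r → E z R.r →
    ∀ p q, Rel E R.l u v → Op E R.a u z p → Op E R.a v z q → Rel E R.l p q
  le_mul : ∀ u v, E u R.r → E v R.r → ∀ p, Rel E R.l R.o u → Rel E R.l R.o v → Op E R.m u v p →
    Rel E R.l R.o p
  sup : ∀ s, Sub E s R.r → (∃ u, E u s) → (∃ b, E b R.r ∧ ∀ u, E u s → Rel E R.l u b) →
    ∃ b, E b R.r ∧ (∀ u, E u s → Rel E R.l u b) ∧
      ∀ c, E c R.r → (∀ u, E u s → Rel E R.l u c) → Rel E R.l b c

/-- `e` is a positive real number -/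
def Pos (R : Rl M) (e : M) : Prop := E e R.r ∧ Rel E R.l R.o e ∧ e ≠ R.o

/-- `|u| ≤ s`: `u ≤ s` and `0 ≤ u + s` -/
def AbsLe (R : Rl M) (u s : M) : Prop := Rel E R.l u s ∧ ∃ t, Op E R.a u s t ∧ Rel E R.l R.o t

/-- `‖f‖ ≤ s`: `|f(n)| ≤ s` for all `n ∈ ω` (`f` a function from `ω` to `ℝ`) -/
def Bd (R : Rl M) (f s : M) : Prop := ∀ n u, E n R.w → Rel E f n u → AbsLe E R u s

/-- `h = f + g`: `f(n) + g(n) = h(n)` for all `n ∈ ω` (`f`, `g`, `h` functions from `ω` to `ℝ`) -/
def SumF (R : Rl M) (f g h : M) : Prop :=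
  ∀ n u v z, E n R.w → Rel E f n u → Rel E g n v → Rel E h n z → Op E R.a u v z

/-- `h = c f`: `c f(n) = h(n)` for all `n ∈ ω` (`f`, `h` functions from `ω` to `ℝ`) -/
def SmulF (R : Rl M) (c f h : M) : Prop :=
  ∀ n u z, E n R.w → Rel E f n u → Rel E h n z → Op E R.m c u z

/-- `‖f - g‖ ≤ s`: if `g(n) + t = f(n)`, then `|t| ≤ s`, for all `n ∈ ω` (`f`, `g` functions from `ω` to `ℝ`) -/
def DistLe (R : Rl M) (f g s : M) : Prop :=
  ∀ n u v t, E n R.w → Rel E f n u → Rel E g n v → E t R.r → Op E R.a v t u → AbsLe E R t s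

/-- `x` is a closed linear subspace of `ℓ_∞`: a nonempty set of bounded functions from `ω` to `ℝ`, which contains the
sums and the multiples of its elements, and all functions from `ω` to `ℝ` which are uniform limits of elements of `x` -/
structure IsSpace (R : Rl M) (x : M) : Prop where
  nonempty : ∃ f, E f x
  fn : ∀ f, E f x → IsFn E f R.w R.r ∧ ∃ s, E s R.r ∧ Bd E R f s
  add : ∀ f g, E f x → E g x → ∃ h, E h x ∧ SumF E R f g h
  smul : ∀ c f, E c R.r → E f x → ∃ h, E h x ∧ SmulF E R c f h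
  closed : ∀ f, IsFn E f R.w R.r → (∀ e, Pos E R e → ∃ g, E g x ∧ DistLe E R f g e) → E f x

/-- `x` is not separable: the range of a sequence `q` of elements of `x` is never dense in `x`, there are `f ∈ x` and
`e > 0` such that `‖f - q(n)‖ > e` for all `n` -/
def Nonsep (R : Rl M) (x : M) : Prop :=
  ∀ q, IsFn E q R.w x → ∃ f e, E f x ∧ Pos E R e ∧
    ∀ n g, E n R.w → Rel E q n g → ¬ DistLe E R f g e

/-- `n` is a norm of the space `x` which is equivalent to the norm of `ℓ_∞`: `n` is a function from `x` to `ℝ`,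
`n(f + g) ≤ n(f) + n(g)`, `n(c f) = |c| n(f)`, and for some `k > 0` we have `‖f‖ ≤ k n(f)` and `n(f) ≤ k ‖f‖` -/
structure IsEqNorm (R : Rl M) (x n : M) : Prop where
  fn : IsFn E n x R.r
  add : ∀ f g h, E f x → E g x → E h x → SumF E R f g h →
    ∀ u v z, Rel E n f u → Rel E n g v → Rel E n h z → ∃ t, Op E R.a u v t ∧ Rel E R.l z t
  smul : ∀ c f h, E c R.r → E f x → E h x → SmulF E R c f h →
    ∀ u z, Rel E n f u → Rel E n h z → (Rel E R.l R.o c → Op E R.m c u z) ∧
      ∀ c', E c' R.r → Op E R.a c c' R.o → Rel E R.l R.o c' → Op E R.m c' u z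
  equiv : ∃ k, Pos E R k ∧ ∀ f u, E f x → Rel E n f u →
    (∀ t, Op E R.m k u t → Bd E R f t) ∧
      ∀ s t, E s R.r → Bd E R f s → Op E R.m k s t → Rel E R.l u t

/-- `t` is a linear bijection of the space `x` onto itself -/
structure IsLinBij (R : Rl M) (x t : M) : Prop where
  fn : IsFn E t x x
  inj : ∀ f f' g, E f x → E f' x → Rel E t f g → Rel E t f' g → f = f'
  surj : ∀ g, E g x → ∃ f, E f x ∧ Rel E t f g
  add : ∀ f g h, E f x → E g x → E h x → SumF E R f g h →
    ∀ f' g' h', Rel E t f f' → Rel E t g g' → Rel E t h h' → SumF E R f' g' h'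
  smul : ∀ c f h, E c R.r → E f x → E h x → SmulF E R c f h →
    ∀ f' h', Rel E t f f' → Rel E t h h' → SmulF E R c f' h'

/-- There are a nonseparable closed linear subspace `x` of `ℓ_∞` and a real number `k` such that for all norms `n`, `n'`
of `x` equivalent to the norm of `ℓ_∞` there is a linear bijection `t` of `x` with `n(f) ≤ n'(t(f)) ≤ k n(f)` for all
`f ∈ x`. -/
def NegJO : Prop :=
  ∃ (R : Rl M) (x k : M), IsOmega E R.w ∧ IsReals E R ∧ IsSpace E R x ∧ Nonsep E R x ∧ E k R.r ∧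
    ∀ n n', IsEqNorm E R x n → IsEqNorm E R x n' →
      ∃ t, IsLinBij E R x t ∧ ∀ f g u v s, E f x → Rel E t f g → Rel E n f u → Rel E n' g v →
        Op E R.m k u s → Rel E R.l u v ∧ Rel E R.l v s

end

end Pool.Agent.JO
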