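import Pool.Agent.Lib.JO.Cnd

/-!
# Separability, closedness, room (L3.5, L3.7)

PROOFS.
`exists_A`: A := span of the constant function 1 (finite dimensional: closed `Submodule.closed_of_finiteDimensional`, separable, not bot).
`V_sep`: for fixed n the map `ι n : L → F W`, `(ι n a) ⟨g', m, k⟩ = if g' = g ∧ m = n then a k else 0` is linear and isometric (continuous); every c ∈ V A g is a finite sum of
 `ι n (row g n c)`, so `V A g ⊆ span (⋃ n, ι n '' A)`; `TopologicalSpace.IsSeparable.iUnion`, `.image`, `.span`, `.mono`.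
`D_sep`: D s g = span of the union over b < g (countable set: `Om1.cnt`) of `e (s b) b '' V (s b).A b`.
`X_sep`: closure (`IsSeparable.closure`).
`room_X` (L3.5): `exists_ext p` with the A of `exists_A`: q; c := function with row 0 at p.d equal to 1 (constant), other coordinates 0; c ∈ V A p.d; x := e (q.s p.d) p.d c ∈ D q.s (sc p.d) = D q.s q.d;
 ‖x‖ = 1 (`norm_e`), and for z ∈ X p.s p.d: ‖x - z‖ ≥ |x w - z w| = 1 at w = ⟨p.d, 0, 0⟩ (`X_supp`, `e_apply_eq`).
`nonempty_Cond`: Gd at ⊥ (`exists_gd` with g = ⊥, any s, `Sys s ⊥` trivial); d = sc ⊥, s = constant function with this stage (`Gd_congr`).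
-/

set_option autoImplicit false

open Set Filter Topology

namespace Pool.Agent.JO

theorem exists_A : ∃ A : Submodule ℝ L, IsClosed (A : Set L) ∧ TopologicalSpace.IsSeparable (A : Set L) ∧
    A ≠ ⊥ ∧ (mk (fun _ => (1 : ℝ)) 1 (fun _ => by simp) : L) ∈ A := by
  refine ⟨Submodule.span ℝ {(mk (fun _ => (1 : ℝ)) 1 (fun _ => by simp) : L)},
    Submodule.closed_of_finiteDimensional _, (Set.finite_singleton _).isSeparable.span, ?_,
    Submodule.mem_span_singleton_self _⟩
  intro h
  rw [Submodule.span_singleton_eq_bot] at h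
  have h1 := congrArg (fun z : L => z 0) h
  simp only [mk_apply] at h1
  exact one_ne_zero h1

variable {W : Type} [LinearOrder W]

section
variable {W : Type}

open Classical in
/-- the row `a` at stage `g`, row index `n` -/
private noncomputable def io (g : W) (n : ℕ) : L →L[ℝ] F W :=
  LinearMap.mkContinuous
    { toFun := fun a => mk (fun w => if w.g = g ∧ w.n = n then a w.k else 0) ‖a‖ (fun w => by
        split_ifs
        · exact a.norm_coe_le_norm _
        · simp)
      map_add' := fun a b => by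
        ext w
        rw [BoundedContinuousFunction.add_apply, mk_apply, mk_apply, mk_apply]
        split_ifs <;> simp
      map_smul' := fun r a => by
        ext w
        rw [BoundedContinuousFunction.smul_apply, mk_apply, mk_apply]
        split_ifs <;> simp }
    1 (fun a => by
      rw [one_mul]
      refine (BoundedContinuousFunction.norm_le (norm_nonneg _)).2 fun w => ?_
      change |if w.g = g ∧ w.n = n then a w.k else 0| ≤ ‖a‖
      split_ifs
      · exact a.norm_coe_le_norm _
      · simp)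

open Classical in
private theorem io_apply (g : W) (n : ℕ) (a : L) (w : Om W) :
    io g n a w = if w.g = g ∧ w.n = n then a w.k else 0 := rfl

end

theorem V_sep {A : Submodule ℝ L} (hA : TopologicalSpace.IsSeparable (A : Set L)) (g : W) :
    TopologicalSpace.IsSeparable (V A g : Set (F W)) := by
  have h1 : TopologicalSpace.IsSeparable
      (Submodule.span ℝ (⋃ n : ℕ, (io g n) '' (A : Set L)) : Set (F W)) :=
    (TopologicalSpace.IsSeparable.iUnion fun n => hA.image (io g n).continuous).span
  refine h1.mono fun c hc => ?_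
  obtain ⟨h2, ⟨m, hm⟩, h3⟩ := hc
  have h4 : c = ∑ n ∈ Finset.range m, io g n (row g n c) := by
    ext w
    rw [BoundedContinuousFunction.coe_sum, Finset.sum_apply]
    by_cases hw : w.g = g
    · obtain ⟨a, n, k⟩ := w
      simp only at hw
      subst hw
      by_cases hn : n < m
      · rw [Finset.sum_eq_single_of_mem n (Finset.mem_range.2 hn)]
        · rw [io_apply, if_pos ⟨rfl, rfl⟩]
          rfl
        · intro i _ hi
          rw [io_apply, if_neg fun h => hi h.2.symm]
      · rw [Finset.sum_eq_zero]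
        · exact hm n (not_lt.1 hn) k
        · intro i hi
          rw [io_apply, if_neg]
          rintro ⟨-, h⟩
          simp only at h
          exact hn (h ▸ Finset.mem_range.1 hi)
    · rw [h2 w hw, Finset.sum_eq_zero]
      intro i _
      rw [io_apply, if_neg fun h => hw h.1]
  rw [h4]
  exact Submodule.sum_mem _ fun n _ =>
    Submodule.subset_span (mem_iUnion.2 ⟨n, row g n c, h3 n, rfl⟩)

variable [WellFoundedLT W] [OrderBot W] [Om1 W]

theorem D_sep {s : W → Stg W} {d g : W} (hs : Sys s d) (hg : g ≤ d) :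
    TopologicalSpace.IsSeparable (D s g : Set (F W)) := by
  unfold D
  refine TopologicalSpace.IsSeparable.span ?_
  have : Countable (Iio g) := (Om1.cnt g).to_subtype
  have h1 : TopologicalSpace.IsSeparable
      (⋃ b : Iio g, (e (s b.1) b.1) '' (V (s b.1).A b.1 : Set (F W))) :=
    TopologicalSpace.IsSeparable.iUnion fun b =>
      (V_sep (hs b.1 (lt_of_lt_of_le b.2 hg)).sep b.1).image (e (s b.1) b.1).continuous
  refine h1.mono ?_
  rintro x ⟨b, hb, c, hc, rfl⟩
  exact mem_iUnion.2 ⟨⟨b, hb⟩, c, hc, rfl⟩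

theorem X_sep {s : W → Stg W} {d g : W} (hs : Sys s d) (hg : g ≤ d) :
    TopologicalSpace.IsSeparable (X s g : Set (F W)) := by
  exact (D_sep hs hg).closure

omit [WellFoundedLT W] [OrderBot W] [Om1 W] in
theorem X_closed (s : W → Stg W) (g : W) : IsClosed (X s g : Set (F W)) :=
  Submodule.isClosed_topologicalClosure _

theorem room_X (p : Cond W) :
    ∃ q ≤ p, q.d = sc p.d ∧ ∃ x ∈ D q.s q.d, ‖x‖ = 1 ∧ ∀ z ∈ X p.s p.d, 1 ≤ ‖x - z‖ := by
  obtain ⟨A, cl, sep, ne, h1⟩ := exists_A
  obtain ⟨q, hq, hd, hA⟩ := exists_ext p cl sep ne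
  have hlt : p.d < q.d := by rw [hd]; exact lt_sc _
  have hf : ‖(q.s p.d).f‖ ≤ 1 := (q.gd p.d hlt).f1
  obtain ⟨c, hc⟩ : ∃ c : F W, c = io p.d 0 (mk (fun _ => (1 : ℝ)) 1 (fun _ => by simp) : L) :=
    ⟨_, rfl⟩
  have hc1 : ∀ w : Om W, w.g ≠ p.d → c w = 0 := fun w hw => by
    rw [hc, io_apply, if_neg fun h => hw h.1]
  have hc2 : c (⟨p.d, 0, 0⟩ : Om W) = 1 := by
    rw [hc, io_apply, if_pos ⟨rfl, rfl⟩]
    rfl
  have hcV : c ∈ V (q.s p.d).A p.d := by
    rw [hA]
    refine ⟨hc1, ⟨1, fun n hn k => ?_⟩, fun n => ?_⟩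
    · rw [hc, io_apply, if_neg]
      rintro ⟨-, h⟩
      simp only at h
      omega
    · by_cases hn : n = 0
      · subst hn
        have h2 : row p.d 0 c = (mk (fun _ => (1 : ℝ)) 1 (fun _ => by simp) : L) := by
          ext k
          rw [row_apply, hc, io_apply, if_pos ⟨rfl, rfl⟩]
        rw [h2]
        exact h1
      · have h2 : row p.d n c = 0 := by
          ext k
          rw [row_apply, hc, io_apply, if_neg fun h => hn h.2]
          rfl
        rw [h2]
        exact A.zero_mem
  have hcn : ‖R {w | w.g = p.d} c‖ = 1 := by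
    apply le_antisymm
    · refine norm_R_le_of zero_le_one fun w _ => ?_
      rw [hc, io_apply]
      split_ifs
      · rw [mk_apply, abs_one]
      · simp
    · have h3 := le_norm_R (S := {w : Om W | w.g = p.d}) (w := ⟨p.d, 0, 0⟩) rfl c
      rwa [hc2, abs_one] at h3
  refine ⟨q, hq, hd, e (q.s p.d) p.d c, ?_, ?_, fun z hz => ?_⟩
  · rw [hd]
    exact e_mem hcV
  · rw [norm_e hf, hcn]
  · have h3 := abs_le_norm (e (q.s p.d) p.d c - z) (⟨p.d, 0, 0⟩ : Om W)
    rwa [BoundedContinuousFunction.sub_apply, X_supp hz (w := ⟨p.d, 0, 0⟩) le_rfl,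
      e_apply_eq (w := ⟨p.d, 0, 0⟩) rfl, hc2, sub_zero, abs_one] at h3

theorem nonempty_Cond : Nonempty (Cond W) := by
  obtain ⟨A, cl, sep, ne, -⟩ := exists_A
  obtain ⟨t, -, ht⟩ := exists_gd (g := (⊥ : W))
    (s := fun _ => { A := ⊥, f := 0, J := fun _ => 0 }) (fun g hg => absurd hg not_lt_bot) cl sep ne
  refine ⟨⟨sc ⊥, fun _ => t, lt_sc _, fun g hg => ?_⟩⟩
  have hg' : g = ⊥ := le_bot_iff.1 (lt_sc_iff.1 hg)
  subst hg'
  exact Gd_congr (fun b hb => absurd hb not_lt_bot) ht

end Pool.Agent.JO
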