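import Pool.Agent.Lib.JO.Snm

/-!
# Theorem A, one step (A3)

PROOF. Notation: `N_{q,g}(x) = dN (N q) (X q.s g) x`.
`stepA` (A3): p ≤ p1. `exists_ext p` (any A, `exists_A`): p' ≤ p, p'.d = sc p.d. Stage g := p.d of p' is good: choose n with `B (p'.s g) g n ≤ B (p.s b.1) b.1 b.2` for b ∈ G (`B_nest_all`) and
 `Dj x v` for v ∈ T, x ∈ B (p'.s g) g n (`dj_D` for each v gives pairs; `B_nest_all` again for the union of all these pairs). (i) for p' (≤ p1): q ∈ DD, q ≤ p', x ∈ SX q, ‖x‖ ≤ 1, a - ε/2 < dN (N q) (X q.s p'.d) x.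
 x2 := Q (q.s g) g n x: in SX q, in B, ‖x2‖ ≤ ‖x‖ ≤ 1 (`Q_X`, `Q_B`, `Q_norm`), x - x2 ∈ X q.s (sc g): so `dN (N q) (X q.s (sc g)) x2 = dN .. x > a - ε/2` (`dN_add_mem`). (q.s g = p'.s g since g < p'.d.)
 y := v with v ∈ D q.s q.d ∩ B (q.s g) g n close to x2 (`B_dense`), ‖v - x2‖ < δ, then scaled: y := (1 + δ)⁻¹ • v, ‖y‖ ≤ 1; dN is Lipschitz (`dN_sn`, dN ≤ C‖·‖, `Sn.lip`): choose δ so small that dN y > a - ε.
 p.d < q.d: q.d ≥ p'.d = sc p.d > p.d.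
-/

set_option autoImplicit false

open Set Filter Topology

namespace Pool.Agent.JO

variable {W : Type} [LinearOrder W] [WellFoundedLT W] [OrderBot W] [Om1 W]
variable {p0 : Cond W} {DD : Set (Cond W)} {c C : ℝ} {N : Cond W → F W → ℝ}

/-- a stage above `p` such that a suitable `B` is contained in all given `B`'s and disjoint from given vectors -/
private theorem step_pre (p : Cond W) (G : Finset (W × ℕ)) (hG : ∀ b ∈ G, b.1 < p.d)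
    (T : Set (F W)) (hT : T.Finite) (hTD : ∀ v ∈ T, v ∈ D p.s p.d) :
    ∃ p' ≤ p, p'.d = sc p.d ∧ ∃ n, ∀ x ∈ B (p'.s p.d) p.d n,
      (∀ b ∈ G, x ∈ B (p.s b.1) b.1 b.2) ∧ ∀ v ∈ T, Dj x v := by
  classical
  obtain ⟨A, cl, sep, ne, -⟩ := exists_A
  obtain ⟨p', hp', hp'd, -⟩ := exists_ext p cl sep ne
  have hpairs : ∀ v : F W, ∃ H : Finset (W × ℕ), v ∈ T → (∀ b ∈ H, b.1 < p.d) ∧
      ∀ x, (∀ b ∈ H, x ∈ B (p.s b.1) b.1 b.2) → Dj x v := by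
    intro v
    by_cases hv : v ∈ T
    · obtain ⟨H, h1, h2⟩ := dj_D (hTD v hv)
      exact ⟨H, fun _ => ⟨h1, h2⟩⟩
    · exact ⟨∅, fun h => absurd h hv⟩
  choose H hH using hpairs
  have hG' : ∀ b ∈ G ∪ hT.toFinset.biUnion H, b.1 < p.d := by
    intro b hb
    rcases Finset.mem_union.1 hb with hb | hb
    · exact hG b hb
    · obtain ⟨v, hv, hbv⟩ := Finset.mem_biUnion.1 hb
      exact (hH v (hT.mem_toFinset.1 hv)).1 b hbv
  have hpd : p.d < p'.d := by rw [hp'd]; exact lt_sc _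
  obtain ⟨n, hn⟩ := B_nest_all (p'.gd p.d hpd) _ hG'
  have key : ∀ x ∈ B (p'.s p.d) p.d n, ∀ b ∈ G ∪ hT.toFinset.biUnion H,
      x ∈ B (p.s b.1) b.1 b.2 := by
    intro x hx b hb
    have h1 := hn b hb hx
    rwa [hp'.2 b.1 (hG' b hb)] at h1
  refine ⟨p', hp', hp'd, n, fun x hx => ⟨fun b hb => key x hx b (Finset.mem_union_left _ hb),
    fun v hv => (hH v hv).2 x fun b hb => key x hx b (Finset.mem_union_right _ ?_)⟩⟩
  exact Finset.mem_biUnion.2 ⟨v, hT.mem_toFinset.2 hv, hb⟩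

/-- density and scaling -/
private theorem step_dense {q : Cond W} {g : W} (hg : g < q.d) {n : ℕ} {M : F W → ℝ} (hM : Sn (SX q) M) {C : ℝ}
    (hC0 : 0 ≤ C) (hC : ∀ x ∈ SX q, M x ≤ C * ‖x‖) {x : F W} (hx : x ∈ SX q) (hB : x ∈ B (q.s g) g n)
    (hx1 : ‖x‖ ≤ 1) {r : ℝ} (hr : r < M x) :
    ∃ y ∈ D q.s q.d, y ∈ B (q.s g) g n ∧ ‖y‖ ≤ 1 ∧ r < M y := by
  by_cases hr0 : r < 0
  · exact ⟨0, Submodule.zero_mem _, Submodule.zero_mem _, by simp, by rw [hM.zero]; exact hr0⟩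
  rw [not_lt] at hr0
  set δ := (M x - r) / (2 * (C + r + 1)) with hδ
  have hden : 0 < 2 * (C + r + 1) := by linarith
  have hδ0 : 0 < δ := div_pos (by linarith) hden
  have hδ1 : δ * (2 * (C + r + 1)) = M x - r := by rw [hδ]; field_simp
  obtain ⟨v, hvD, hvB, hvx⟩ := B_dense q.gd hg le_rfl hx hB hδ0
  have hvX : v ∈ SX q := D_le_X _ hvD
  have hlip := hM.lip hC hx hvX
  have h1 : M x - C * δ ≤ M v := by
    have h2 : C * ‖x - v‖ ≤ C * δ := by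
      rw [norm_sub_rev]; exact mul_le_mul_of_nonneg_left hvx.le hC0
    have h3 := (abs_le.1 hlip).2
    linarith
  have hv1 : ‖v‖ ≤ 1 + δ := by
    have : ‖v‖ ≤ ‖x‖ + ‖v - x‖ := by
      calc ‖v‖ = ‖x + (v - x)‖ := by congr 1; abel
        _ ≤ _ := norm_add_le _ _
    linarith
  have hpos : (0 : ℝ) < 1 + δ := by linarith
  refine ⟨(1 + δ)⁻¹ • v, Submodule.smul_mem _ _ hvD, Submodule.smul_mem _ _ hvB, ?_, ?_⟩
  · rw [norm_smul, Real.norm_eq_abs, abs_of_pos (inv_pos.2 hpos), inv_mul_le_iff₀ hpos, mul_one]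
    exact hv1
  · rw [hM.smul _ v hvX, abs_of_pos (inv_pos.2 hpos), lt_inv_mul_iff₀ hpos]
    nlinarith

/-- (A3) -/
theorem stepA (hD : IsDom lm p0 DD) (hc : 0 < c) (hN : IsFam SX DD c C N) {p1 : Cond W} (h1 : p1 ≤ p0) {a : ℝ}
    (hi : ∀ p ≤ p1, ∀ ε > 0, ∃ q ∈ DD, q ≤ p ∧ ∃ x ∈ SX q, ‖x‖ ≤ 1 ∧ a - ε < dN (N q) (X q.s p.d) x)
    {p : Cond W} (hp : p ≤ p1) {ε : ℝ} (hε : 0 < ε) (G : Finset (W × ℕ)) (hG : ∀ b ∈ G, b.1 < p.d)
    (T : Set (F W)) (hT : T.Finite) (hTD : ∀ v ∈ T, v ∈ D p.s p.d) :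
    ∃ q ∈ DD, q ≤ p ∧ p.d < q.d ∧ ∃ y ∈ D q.s q.d, ‖y‖ ≤ 1 ∧ (∀ b ∈ G, y ∈ B (p.s b.1) b.1 b.2) ∧
      (∀ v ∈ T, Dj y v) ∧ a - ε < dN (N q) (X q.s (sc p.d)) y := by
  obtain ⟨p', hp', hp'd, n, hn⟩ := step_pre p G hG T hT hTD
  obtain ⟨q, hq, hqp', x, hx, hx1, hax⟩ := hi p' (hp'.trans hp) ε hε
  have hpp' : p.d < p'.d := by rw [hp'd]; exact lt_sc _
  have hpq : p.d < q.d := hpp'.trans_le hqp'.1
  have hscq : sc p.d ≤ q.d := by rw [← hp'd]; exact hqp'.1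
  have hsn := fam_sn hN hq
  have hY : X q.s (sc p.d) ≤ SX q := X_mono hscq
  have hM : Sn (SX q) (dN (N q) (X q.s (sc p.d))) := dN_sn hsn hY
  have hf := (q.gd p.d hpq).f1
  obtain ⟨hx2, hxx2⟩ := Q_X q.gd hpq le_rfl n hx
  have hx2B : Q (q.s p.d) p.d n x ∈ B (q.s p.d) p.d n := Q_B n
  have hx21 : ‖Q (q.s p.d) p.d n x‖ ≤ 1 := (Q_norm hf n x).trans ((norm_R_le _ _).trans hx1)
  have hdN : dN (N q) (X q.s (sc p.d)) (Q (q.s p.d) p.d n x) = dN (N q) (X q.s (sc p.d)) x := by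
    have h2 := dN_add_mem hsn hY hx (Submodule.neg_mem _ hxx2)
    rw [← h2]; congr 1; abel
  rw [hp'd] at hax
  obtain ⟨y, hyD, hyB, hy1, hya⟩ := step_dense hpq hM (C := |C|) (abs_nonneg _)
    (fun x hx => (dN_le_self hsn hY hx).trans ((hN.upper q hq x hx).trans
      (mul_le_mul_of_nonneg_right (le_abs_self C) (norm_nonneg _)))) hx2 hx2B hx21
    (r := a - ε) (by rw [hdN]; exact hax)
  rw [hqp'.2 p.d hpp'] at hyB
  exact ⟨q, hq, hqp'.trans hp', hpq, y, hyD, hy1, (hn y hyB).1, (hn y hyB).2, hya⟩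

end Pool.Agent.JO
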