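import Pool.Agent.Lib.JO.ThA1
import Pool.Agent.Lib.JO.ThA2
import Pool.Agent.Lib.JO.Key
import Pool.Agent.Lib.JO.Fus

/-!
# Theorem A (A4, A5)

PROOF. Notation: `N_{q,g}(x) = dN (N q) (X q.s g) x`.
`thmA` : p1, a from `statA`; p1' ∈ DD, p1' ≤ p1 (dense). `fusion` below p1' with `St p i q y := a - 1/(i+1) < dN (N q) (X q.s (sc p.d)) y` (`stepA` with ε = 1/(i+1)). L := lm r ∈ DD. al := L.d (⊥ < al: `Cond.pos`).
 `gd_of_blocks` for s = L.s, g = al: mem: y i ∈ D (r (i+1)).s (r (i+1)).d ≤ D L.s L.d (`D_sub`, `lm_le`). lim: `a - 1/(i+1) < dN (N (r (i+1))) (X _ (sc (r i).d)) (y i) ≤ a ‖y i‖` by (U') below, so 1 - 1/(a(i+1)) ≤ ‖y i‖ ≤ 1.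
 t := the stage, r^ := ext L t. al < r^.d.
 (U') for q ∈ DD, q ≤ p1', g with p1'.d ≤ g ≤ q.d, x ∈ SX q: dN (N q) (X q.s g) x ≤ a ‖x‖: (ii) for p := tr q g, q ≤ tr q g ≤ p1' ≤ p1 (`tr_le`, `le_tr`); X (tr q g).. : p.d = g.
 Second claim: al ≤ g: (U') (p1'.d ≤ al since r 0 = p1').
 First claim: q ∈ DD, q ≤ r^, x ∈ SX q. `key` with s = q.s, d = q.d, a = al (al < r^.d ≤ q.d), `q i := fun x => dN (N q) (X q.s (sc (r i).d)) x / a`: Sn: `dN_sn` scaled (X q.s (sc (r i).d) ≤ SX q);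
  h1: (U') with g = sc (r i).d (r 0 = p1' gives p1'.d ≤ (r i).d);  h2: z ∈ D q.s al = D L.s L.d: `lm_D`: z ∈ D (r k).s (r k).d ≤ X q.s (sc (r i).d) for i ≥ k: dN = 0 (`dN_mem`): eventually 0;
  h3: (q.s al).y i = t.y i = y i (q ≤ r^, `ext_s`); dN (N q) (X q.s (sc (r i).d)) (y i) = dN (N (r (i+1))) (..) (y i) > a - 1/(i+1) (`fam_dN_coh`), and ≤ a: so the quotient → 1.
  So for ε > 0: some i with `‖R x‖ - ε ≤ dN .. x / a ≤ N q x / a`: a (‖R x‖ - ε) ≤ N q x; ε → 0.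
-/

set_option autoImplicit false

open Set Filter Topology

namespace Pool.Agent.JO

variable {W : Type} [LinearOrder W] [WellFoundedLT W] [OrderBot W] [Om1 W]
variable {p0 : Cond W} {DD : Set (Cond W)} {c C : ℝ} {N : Cond W → F W → ℝ}

/-- Theorem A -/
theorem thmA (hD : IsDom lm p0 DD) (hc : 0 < c) (hN : IsFam SX DD c C N) :
    ∃ a : ℝ, 0 < a ∧ ∃ r ≤ p0, ∃ al, ⊥ < al ∧ al < r.d ∧ ∀ q ∈ DD, q ≤ r →
      (∀ x ∈ SX q, a * ‖R {w | al ≤ w.g} x‖ ≤ N q x) ∧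
      ∀ g, al ≤ g → g ≤ q.d → ∀ x ∈ SX q, dN (N q) (X q.s g) x ≤ a * ‖x‖ := by
  obtain ⟨p1, hp1, a, ha, hi, hii⟩ := statA hD hc hN
  obtain ⟨p1', hp1', hp1D⟩ := hD.dense p1 hp1
  -- (U')
  have hU : ∀ q ∈ DD, q ≤ p1' → ∀ g, p1'.d ≤ g → g ≤ q.d → ∀ x ∈ SX q,
      dN (N q) (X q.s g) x ≤ a * ‖x‖ := by
    intro q hqD hqp g hg hgq x hx
    have hg0 : ⊥ < g := p1'.pos.trans_le hg
    exact hii (tr q g hg0 hgq) ((tr_le hqp hg0 hgq hg).trans hp1') q hqD (le_tr q g hg0 hgq) x hx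
  obtain ⟨rr, y, hanti, h0, hrD, hlt, hyD, hy1, hdj, hSt, hev⟩ :=
    fusion hp1D (fun p i q y => a - 1 / ((i : ℝ) + 1) < dN (N q) (X q.s (sc p.d)) y) (by
      intro p hp hpp i G hG T hT hTD
      exact stepA hD hc hN hp1 hi (hpp.trans hp1') (by positivity) G hG T hT hTD)
  have hLD : lm rr ∈ DD := hD.lim rr hanti hrD
  have hLle : ∀ k, lm rr ≤ rr k := lm_le hanti
  have hrp : ∀ k, rr k ≤ p1' := fun k => (hanti (Nat.zero_le k)).trans h0.le
  have hLp : lm rr ≤ p1' := (hLle 0).trans (hrp 0)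
  have hyL : ∀ i, y i ∈ D (lm rr).s (lm rr).d := fun i => D_sub (hLle (i + 1)) (hyD i)
  have hsc : ∀ i, sc (rr i).d ≤ (rr (i + 1)).d := fun i => sc_le_iff.2 (hlt i)
  have hpsc : ∀ i, p1'.d ≤ sc (rr i).d := fun i => (hrp i).1.trans (lt_sc _).le
  have hinv : Tendsto (fun i : ℕ => 1 - 1 / ((i : ℝ) + 1) / a) atTop (𝓝 1) := by
    have := (tendsto_const_nhds (x := (1 : ℝ))).sub
      ((tendsto_one_div_add_atTop_nhds_zero_nat (𝕜 := ℝ)).div_const a)
    simpa using this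
  have hone : Tendsto (fun i => ‖y i‖) atTop (𝓝 1) := by
    refine tendsto_of_tendsto_of_tendsto_of_le_of_le hinv tendsto_const_nhds (fun i => ?_) hy1
    have h1 := hSt i
    have h2 := hU (rr (i + 1)) (hrD _) (hrp _) (sc (rr i).d) (hpsc i) (hsc i) (y i) (D_le_X _ (hyD i))
    have h3 : a - 1 / ((i : ℝ) + 1) < a * ‖y i‖ := h1.trans_le h2
    show 1 - 1 / ((i : ℝ) + 1) / a ≤ ‖y i‖
    have h4 : a * (1 - 1 / ((i : ℝ) + 1) / a) = a - 1 / ((i : ℝ) + 1) := by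
      field_simp
    by_contra hcon
    push Not at hcon
    have := mul_lt_mul_of_pos_left hcon ha
    linarith
  obtain ⟨A, hAcl, hAsep, hAne, -⟩ := exists_A
  obtain ⟨t, htA, hty, hGd⟩ := gd_of_blocks (s := (lm rr).s) (g := (lm rr).d) hAcl hAsep hAne
    (y := y) hy1 hdj hyL hev hone
  have hr' : ext (lm rr) t hGd ≤ lm rr := ext_le _ _ _
  refine ⟨a, ha, ext (lm rr) t hGd, hr'.trans (hLp.trans (hp1'.trans hp1)), (lm rr).d, (lm rr).pos,
    lt_sc _, fun q hqD hqr => ⟨fun x hx => ?_, fun g hg hgq x hx => ?_⟩⟩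
  · have hqL : q ≤ lm rr := hqr.trans hr'
    have hal : (lm rr).d < q.d := (lt_sc _).trans_le hqr.1
    have hqs : q.s (lm rr).d = t := by
      rw [hqr.2 _ (lt_sc _), ext_s]
    have hle : ∀ i, sc (rr i).d ≤ q.d := fun i => (hsc i).trans ((hLle (i + 1)).1.trans hal.le)
    have hXle : ∀ i, X q.s (sc (rr i).d) ≤ SX q := fun i => X_mono (hle i)
    have hsn := fam_sn hN hqD
    have hup : ∀ i, ∀ x ∈ SX q, dN (N q) (X q.s (sc (rr i).d)) x / a ≤ ‖x‖ := fun i x hx => by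
      rw [div_le_iff₀ ha, mul_comm]
      exact hU q hqD (hqL.trans hLp) _ (hpsc i) (hle i) x hx
    have hkey : ∀ ε > 0, ‖R {w | (lm rr).d ≤ w.g} x‖ - ε ≤ N q x / a := by
      intro ε hε
      have := key (s := q.s) (d := q.d) (a := (lm rr).d) q.gd (lm rr).pos hal
        (q := fun i x => dN (N q) (X q.s (sc (rr i).d)) x / a) (fun i => by
          have h1 := dN_sn hsn (hXle i)
          refine ⟨fun x hx y hy => ?_, fun t x hx => ?_⟩
          · rw [← add_div]; exact (div_le_div_iff_of_pos_right ha).2 (h1.add x hx y hy)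
          · rw [h1.smul t x hx, mul_div_assoc]) hup (fun z hz => by
          rw [D_le hqL] at hz
          obtain ⟨k, hk⟩ := lm_D hanti hz
          refine tendsto_const_nhds.congr' ?_
          filter_upwards [eventually_ge_atTop k] with i hki
          rw [dN_mem hsn (hXle i), zero_div]
          have h1 : D (rr k).s (rr k).d = D q.s (rr k).d := (D_le (hqL.trans (hLle k))).symm
          rw [h1] at hk
          exact D_le_X _ (D_mono ((hanti hki).1.trans (lt_sc _).le) hk)) (by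
          refine tendsto_of_tendsto_of_tendsto_of_le_of_le hinv tendsto_const_nhds (fun i => ?_)
            (fun i => ?_)
          · show 1 - 1 / ((i : ℝ) + 1) / a ≤ dN (N q) (X q.s (sc (rr i).d)) ((q.s (lm rr).d).y i) / a
            rw [hqs, hty, fam_dN_coh hN (hrD (i + 1)) hqD (hqL.trans (hLle _)) (hsc i)
              (D_le_X _ (hyD i))]
            have h1 := (hSt i).le
            have h4 : 1 - 1 / ((i : ℝ) + 1) / a = (a - 1 / ((i : ℝ) + 1)) / a := by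
              field_simp
            rw [h4]
            exact (div_le_div_iff_of_pos_right ha).2 h1
          · show dN (N q) (X q.s (sc (rr i).d)) ((q.s (lm rr).d).y i) / a ≤ 1
            rw [hqs, hty]
            exact (hup i _ (D_le_X _ (D_sub hqL (hyL i)))).trans (hy1 i)) hx hε
      obtain ⟨i, hi'⟩ := this.exists
      exact hi'.trans ((div_le_div_iff_of_pos_right ha).2 (dN_le_self hsn (hXle i) hx))
    have h1 : ‖R {w | (lm rr).d ≤ w.g} x‖ ≤ N q x / a :=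
      le_of_forall_pos_le_add fun ε hε => by linarith [hkey ε hε]
    rw [le_div_iff₀ ha] at h1
    linarith
  · exact hU q hqD (hqr.trans (hr'.trans hLp)) g (hLp.1.trans hg) hgq x hx

end Pool.Agent.JO
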