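import Pool.Agent.Lib.JO.Snm
import Pool.Agent.Lib.JO.Stb

/-!
# Theorem A, stabilisation (A1, A2)

PROOF. Notation: `N_{q,g}(x) = dN (N q) (X q.s g) x`.
`statA` (A1, A2): `S p := sSup {t | ∃ q ∈ DD, q ≤ p ∧ ∃ x ∈ SX q, ‖x‖ ≤ 1 ∧ t = dN (N q) (X q.s p.d) x}` for p ≤ p0. Bounded above by C' := max C 0 (`dN_le_self`, upper), nonempty (x = 0; DD dense).
 `c ≤ S p`: `room_X p` gives q' ≤ p, x ∈ D q'.s q'.d, ‖x‖ = 1, ‖x - z‖ ≥ 1 for z ∈ X p.s p.d; q ∈ DD, q ≤ q' (dense); N q (x + z) ≥ c ‖x + z‖ ≥ c for z ∈ X q.s p.d = X p.s p.d (`X_le`), so dN ≥ c (`le_dN`).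
 Monotone: p' ≤ p: for q ≤ p', `X q.s p.d ≤ X q.s p'.d`, `dN_anti`: the set for p' is dominated by the set for p. `stab` with m = c. a := S p1 ≥ c > 0.
 (i) by `exists_lt_of_lt_csSup`. (ii): homogeneity: x = 0 trivial; x ≠ 0: x/‖x‖ has norm 1, `dN_sn` smul; ≤ S p = a.
-/

set_option autoImplicit false

open Set Filter Topology

namespace Pool.Agent.JO

variable {W : Type} [LinearOrder W] [WellFoundedLT W] [OrderBot W] [Om1 W]
variable {p0 : Cond W} {DD : Set (Cond W)} {c C : ℝ} {N : Cond W → F W → ℝ}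

/-- (A1), (A2) -/
theorem statA (hD : IsDom lm p0 DD) (hc : 0 < c) (hN : IsFam SX DD c C N) :
    ∃ p1 ≤ p0, ∃ a : ℝ, 0 < a ∧
      (∀ p ≤ p1, ∀ ε > 0, ∃ q ∈ DD, q ≤ p ∧ ∃ x ∈ SX q, ‖x‖ ≤ 1 ∧ a - ε < dN (N q) (X q.s p.d) x) ∧
      ∀ p ≤ p1, ∀ q ∈ DD, q ≤ p → ∀ x ∈ SX q, dN (N q) (X q.s p.d) x ≤ a * ‖x‖ := by
  set T : Cond W → Set ℝ := fun p =>
    {t | ∃ q ∈ DD, q ≤ p ∧ ∃ x ∈ SX q, ‖x‖ ≤ 1 ∧ t = dN (N q) (X q.s p.d) x} with hT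
  have hbdd : ∀ p, BddAbove (T p) := by
    intro p
    refine ⟨|C|, ?_⟩
    rintro t ⟨q, hq, hqp, x, hx, hx1, rfl⟩
    have h1 := dN_le_self (fam_sn hN hq) (X_mono (s := q.s) hqp.1) hx
    have h2 := hN.upper q hq x hx
    have h3 : C * ‖x‖ ≤ |C| * 1 :=
      mul_le_mul (le_abs_self C) hx1 (norm_nonneg _) (abs_nonneg _)
    linarith
  have hne : ∀ p ≤ p0, (T p).Nonempty := by
    intro p hp
    obtain ⟨q, hqp, hq⟩ := hD.dense p hp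
    exact ⟨_, q, hq, hqp, 0, Submodule.zero_mem _, by simp, rfl⟩
  have hlow : ∀ p ≤ p0, c ≤ sSup (T p) := by
    intro p hp
    obtain ⟨q', hq'p, -, x, hx, hx1, hxz⟩ := room_X p
    obtain ⟨q, hqq', hq⟩ := hD.dense q' (hq'p.trans hp)
    have hxq : x ∈ SX q := X_sub hqq' (D_le_X _ hx)
    refine le_csSup_of_le (hbdd p) ⟨q, hq, hqq'.trans hq'p, x, hxq, hx1.le, rfl⟩ ?_
    refine le_dN fun z hz => ?_
    have hzq : z ∈ SX q := X_mono (hqq'.trans hq'p).1 hz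
    have hz' : -z ∈ X p.s p.d := by
      rw [← X_le (hqq'.trans hq'p)]; exact Submodule.neg_mem _ hz
    have h1 := hxz (-z) hz'
    rw [sub_neg_eq_add] at h1
    have h2 := hN.lower q hq (x + z) (Submodule.add_mem _ hxq hzq)
    nlinarith
  have hmono : ∀ p ≤ p0, ∀ q ≤ p, sSup (T q) ≤ sSup (T p) := by
    intro p hp q hqp
    refine csSup_le (hne q (hqp.trans hp)) ?_
    rintro t ⟨r, hr, hrq, x, hx, hx1, rfl⟩
    refine le_csSup_of_le (hbdd p) ⟨r, hr, hrq.trans hqp, x, hx, hx1, rfl⟩ ?_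
    exact dN_anti (fam_sn hN hr) (X_mono hqp.1) (X_mono hrq.1) hx
  obtain ⟨p1, hp1, hstab⟩ := stab (fun p => sSup (T p)) p0 c hmono hlow
  refine ⟨p1, hp1, sSup (T p1), hc.trans_le (hlow p1 hp1), ?_, ?_⟩
  · intro p hp ε hε
    have h1 : sSup (T p1) - ε < sSup (T p) := by
      have : sSup (T p) = sSup (T p1) := hstab p hp
      rw [this]; linarith
    obtain ⟨t, ⟨q, hq, hqp, x, hx, hx1, rfl⟩, ht⟩ := exists_lt_of_lt_csSup (hne p (hp.trans hp1)) h1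
    exact ⟨q, hq, hqp, x, hx, hx1, ht⟩
  · intro p hp q hq hqp x hx
    have hY : X q.s p.d ≤ SX q := X_mono hqp.1
    have hM := dN_sn (fam_sn hN hq) hY
    by_cases hx0 : x = 0
    · rw [hx0, hM.zero, norm_zero, mul_zero]
    have hpos : 0 < ‖x‖ := norm_pos_iff.2 hx0
    have h1 : dN (N q) (X q.s p.d) (‖x‖⁻¹ • x) ≤ sSup (T p1) := by
      have : sSup (T p) = sSup (T p1) := hstab p hp
      rw [← this]
      refine le_csSup (hbdd p) ⟨q, hq, hqp, ‖x‖⁻¹ • x, Submodule.smul_mem _ _ hx, ?_, rfl⟩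
      rw [norm_smul, norm_inv, norm_norm, inv_mul_cancel₀ hpos.ne']
    rw [hM.smul _ x hx, abs_of_pos (inv_pos.2 hpos), inv_mul_le_iff₀ hpos] at h1
    linarith [mul_comm ‖x‖ (sSup (T p1))]

end Pool.Agent.JO
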