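import Pool.Agent.Lib.JO.Snm

/-!
# Convergent subsequences (C2)

PROOF.
`subseq` (C2): X separable: countable dense sequence (u_k) in Y (if `Y` separable: `TopologicalSpace.IsSeparable` → countable dense subset; include 0). For each k the sequence `i ↦ N (2 • y i + u_k)` is bounded: by compactness of the product
 `∀ k, Icc (0) (M_k)` (sequentially compact: first countable) there is φ strictly monotone such that all converge. For general u ∈ Y: Cauchy by the Lipschitz property (`Sn.lip`), ℝ complete.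
-/

set_option autoImplicit false

open Set Filter Topology

namespace Pool.Agent.JO

variable {F : Type} [NormedAddCommGroup F] [NormedSpace ℝ F]

/-- (C2) -/
theorem subseq {Y : Submodule ℝ F} (hY : TopologicalSpace.IsSeparable (Y : Set F)) {N : F → ℝ} (hN : Sn Y N) {C : ℝ}
    (hC : ∀ x ∈ Y, N x ≤ C * ‖x‖) {y : ℕ → F} (hy : ∀ i, y i ∈ Y) (h1 : ∀ i, ‖y i‖ ≤ 1) :
    ∃ φ : ℕ → ℕ, StrictMono φ ∧ ∀ u ∈ Y, ∃ t : ℝ, Tendsto (fun i => N ((2 : ℝ) • y (φ i) + u)) atTop (𝓝 t) := by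
  obtain ⟨t, htY, htc, htd⟩ := hY.exists_countable_dense_subset
  have htne : t.Nonempty := by
    by_contra hcon
    rw [Set.not_nonempty_iff_eq_empty] at hcon
    rw [hcon, closure_empty] at htd
    exact htd (show (0 : F) ∈ (Y : Set F) from Y.zero_mem)
  obtain ⟨u, hu⟩ := htc.exists_eq_range htne
  have huY : ∀ k, u k ∈ Y := fun k => htY (by rw [hu]; exact ⟨k, rfl⟩)
  have hmem : ∀ i, ∀ v ∈ Y, (2 : ℝ) • y i + v ∈ Y := fun i v hv => Y.add_mem (Y.smul_mem _ (hy i)) hv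
  have hbd : ∀ i k, N ((2 : ℝ) • y i + u k) ∈ Icc (0 : ℝ) (|C| * (2 + ‖u k‖)) := by
    intro i k
    refine ⟨hN.nonneg (hmem i _ (huY k)), ?_⟩
    refine (hC _ (hmem i _ (huY k))).trans ?_
    have h2 : ‖(2 : ℝ) • y i + u k‖ ≤ 2 + ‖u k‖ := by
      refine (norm_add_le _ _).trans ?_
      rw [norm_smul, Real.norm_eq_abs, abs_of_pos (by norm_num : (0 : ℝ) < 2)]
      linarith [h1 i]
    calc C * ‖(2 : ℝ) • y i + u k‖ ≤ |C| * ‖(2 : ℝ) • y i + u k‖ :=
          mul_le_mul_of_nonneg_right (le_abs_self C) (norm_nonneg _)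
      _ ≤ |C| * (2 + ‖u k‖) := mul_le_mul_of_nonneg_left h2 (abs_nonneg C)
  have hK : IsCompact (Set.pi Set.univ fun k => Icc (0 : ℝ) (|C| * (2 + ‖u k‖))) :=
    isCompact_univ_pi fun k => isCompact_Icc
  obtain ⟨a, -, φ, hφ, hlim⟩ := hK.tendsto_subseq (x := fun i k => N ((2 : ℝ) • y i + u k))
    (fun i => fun k _ => hbd i k)
  refine ⟨φ, hφ, fun v hv => ?_⟩
  have hlim' : ∀ k, Tendsto (fun i => N ((2 : ℝ) • y (φ i) + u k)) atTop (𝓝 (a k)) := by
    intro k
    exact (tendsto_pi_nhds.mp hlim) k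
  have hlip : ∀ i k, |N ((2 : ℝ) • y i + v) - N ((2 : ℝ) • y i + u k)| ≤ |C| * ‖v - u k‖ := by
    intro i k
    refine (hN.lip hC (hmem i v hv) (hmem i _ (huY k))).trans ?_
    rw [add_sub_add_left_eq_sub]
    exact mul_le_mul_of_nonneg_right (le_abs_self C) (norm_nonneg _)
  apply cauchySeq_tendsto_of_complete
  rw [Metric.cauchySeq_iff']
  intro ε hε
  have hpos : 0 < |C| + 1 := by positivity
  obtain ⟨w, hw, hwd⟩ := Metric.mem_closure_iff.mp (htd hv) (ε / (4 * (|C| + 1))) (by positivity)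
  rw [hu] at hw
  obtain ⟨k, rfl⟩ := hw
  have hsmall : |C| * ‖v - u k‖ < ε / 4 := by
    rw [← dist_eq_norm]
    have h3 : |C| * dist v (u k) ≤ (|C| + 1) * dist v (u k) :=
      mul_le_mul_of_nonneg_right (by linarith) dist_nonneg
    have h4 : (|C| + 1) * dist v (u k) < (|C| + 1) * (ε / (4 * (|C| + 1))) := mul_lt_mul_of_pos_left hwd hpos
    have h5 : (|C| + 1) * (ε / (4 * (|C| + 1))) = ε / 4 := by
      field_simp
    linarith
  obtain ⟨M, hM⟩ := (Metric.cauchySeq_iff'.mp (hlim' k).cauchySeq) (ε / 4) (by positivity)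
  refine ⟨M, fun i hi => ?_⟩
  have h6 := hM i hi
  have h7 := hlip (φ i) k
  have h8 := hlip (φ M) k
  rw [Real.dist_eq] at h6 ⊢
  rw [abs_le] at h7 h8
  rw [abs_lt] at h6 ⊢
  constructor <;> linarith [h6.1, h6.2, h7.1, h7.2, h8.1, h8.2]

end Pool.Agent.JO
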