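import Pool.Agent.Lib.JO.Snm

/-!
# Theorem C, the inequality (C3)

PROOF.
`claimC` (C3): one inequality. Setting: q ∈ DD, be < q.d, the stage at be of q has blocks y j (in D q.s be); g' < be; `N q v ≤ b' ‖v‖` for all v ∈ SX q ∩ B (q.s g') g' n'; for all u ∈ X q.s be `t u` = limit of N q (2 • y i + u);
 b ≤ lim N (y i) in the form: t u + t (-u) ≥ 4 b. Then for all z ∈ X q.s be, c ∈ V A be with |c w| ≤ 1, w0 = ⟨be, n, k⟩ with |c w0| ≥ 1 - ε: `N q (e (q.s be) be c + z) ≥ 2 b - b' (1 + ε)`... see the statement.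
  PROOF: (g2) at be for the pair (g', n'): m with y j ∈ B (q.s g') g' n' for j ≥ m. u := z + ∑ j<m (ss j * c ⟨be, nn j, kk j⟩) • y j ∈ X q.s be. t' := R {w.g = be} c + R {m ≤ J} (E c) = e c - ∑..: in B (q.s g') g' n' (`tail_mem`, `B_congr`), e c + z = u + t' (`E_split`).
  For j ≥ m, (nn j, kk j) = (n, k), κ := ss j * c w0: on {J = j}: t' w = κ f w, so |2 y j - t'| = |2 - κ| |f|, and |2 y j - t'| ≤ 1 + ε everywhere if κ = |c w0| ≥ 1 - ε; hence N q (2 y j - t') ≤ b' (1 + ε), and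
  N q (u + t') ≥ N q (u + 2 y j) - N q (2 y j - t') [(u + 2y_j) = (u + t') + (2y_j - t')]. Frequently in j (`nks_abs`), so ≥ t(u) - b'(1+ε) (limits along a frequently set: `le_of_frequently..`/`Tendsto` + `Frequently`).
  κ = -|c w0| (`nks_neg`): N q (2 y j + t') ≤ b'(1+ε), N q (u + t') ≥ N q (u - 2 y j) - b'(1+ε) = N q (2 y j + (-u)) - b'(1+ε) → t(-u) - b'(1+ε).  Sum: 2 N q (u + t') ≥ 4 b - 2 b'(1+ε).
-/

set_option autoImplicit false

open Set Filter Topology

namespace Pool.Agent.JO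

variable {W : Type} [LinearOrder W] [WellFoundedLT W] [OrderBot W] [Om1 W]

/-- (C3) -/
theorem claimC {s : W → Stg W} {d be g' : W} (hs : Sys s d) (hbe : be < d) (hg' : g' < be) {N : F W → ℝ}
    (hN : Sn (X s d) N) {n' : ℕ} {b b' ε : ℝ} (hε : 0 < ε) (hb' : 0 ≤ b')
    (hB : ∀ v ∈ X s d, v ∈ B (s g') g' n' → N v ≤ b' * ‖v‖) {t : F W → ℝ}
    (ht : ∀ u ∈ X s be, Tendsto (fun i => N ((2 : ℝ) • (s be).y i + u)) atTop (𝓝 (t u)))
    (htb : ∀ u ∈ X s be, 4 * b ≤ t u + t (-u)) {z c : F W} (hz : z ∈ X s be) (hc : c ∈ V (s be).A be)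
    (hc1 : ‖c‖ ≤ 1) {n k : ℕ} (hnk : 1 - ε ≤ |c ⟨be, n, k⟩|) :
    2 * b - b' * (1 + ε) ≤ N (e (s be) be c + z) := by
  set κ := |c ⟨be, n, k⟩| with hκdef
  have hG := hs be hbe
  have h0 : ⊥ < be := bot_le.trans_lt hg'
  set τ := s be with hτ
  obtain ⟨m, hm⟩ := eventually_atTop.1 (hG.ev g' hg' n')
  set S : F W := ∑ j ∈ Finset.range m, (ss j * c ⟨be, nn j, kk j⟩) • τ.y j with hSdef
  have hS : S ∈ D s be := Submodule.sum_mem _ fun j _ => Submodule.smul_mem _ _ (hG.mem h0 j)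
  have hy0 : ∀ j w, be ≤ w.g → τ.y j w = 0 := fun j w hw => D_supp (hG.mem h0 j) hw
  have hEs := E_split (g := be) hy0 c m
  rw [← hSdef] at hEs
  set t' : F W := e τ be c - S with ht'
  have hlt : ∀ w : Om W, w.g < be → t' w = R {w | τ.J w ∈ {j | m ≤ j}} (E τ be c) w := by
    intro w hw
    have h1 : E τ be c w = S w + R {w | τ.J w ∈ {j | m ≤ j}} (E τ be c) w := by
      conv_lhs => rw [hEs]
      rfl
    have h2 : t' w = e τ be c w - S w := rfl
    rw [h2, e_apply_lt' hw, h1]; ring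
  have hXd : X s be ≤ X s d := X_mono hbe.le
  have hed : e τ be c ∈ X s d := D_le_X d (Submodule.subset_span ⟨be, hbe, c, hc, rfl⟩)
  have ht'X : t' ∈ X s d := Submodule.sub_mem _ hed (hXd (D_le_X be hS))
  have ht'B : t' ∈ B (s g') g' n' := by
    refine B_congr (x := R {w | τ.J w ∈ {j | m ≤ j}} (E τ be c)) (fun w hw => ?_)
      (tail_mem hg' {j | m ≤ j} (fun j hj => hm j hj) c)
    exact (hlt w (lt_of_le_of_lt hw hg')).symm
  -- pointwise bound
  have hcle : ∀ w : Om W, |c w| ≤ 1 := fun w => (abs_le_norm c w).trans hc1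
  have hfle : ∀ w : Om W, |τ.f w| ≤ 1 := fun w => (abs_le_norm _ w).trans hG.f1
  have ht'1 : ∀ w, |t' w| ≤ 1 := by
    intro w
    rcases lt_trichotomy w.g be with hw | hw | hw
    · rw [hlt w hw]
      by_cases hJ : τ.J w ∈ {j | m ≤ j}
      · rw [R_mem (S := {w | τ.J w ∈ {j | m ≤ j}}) hJ, E_apply_lt hw, abs_mul, abs_mul, abs_ss,
          one_mul]
        exact mul_le_one₀ (hfle w) (abs_nonneg _) (hcle _)
      · rw [R_not_mem (S := {w | τ.J w ∈ {j | m ≤ j}}) hJ, abs_zero]; exact zero_le_one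
    · have h2 : t' w = e τ be c w - S w := rfl
      rw [h2, e_apply_eq hw, D_supp hS hw.ge, sub_zero]; exact hcle w
    · have h2 : t' w = e τ be c w - S w := rfl
      rw [h2, e_apply_gt hw, D_supp hS hw.le, sub_zero, abs_zero]; exact zero_le_one
  have hnorm : ∀ j, m ≤ j → ∀ σ : ℝ, σ * σ = 1 → nn j = n → kk j = k →
      ss j * c ⟨be, n, k⟩ = σ * κ → ‖(2 : ℝ) • τ.y j - σ • t'‖ ≤ 1 + ε := by
    intro j hj σ hσ hn hk hs'
    have hσ1 : |σ| = 1 := by
      have : |σ| * |σ| = 1 := by rw [← abs_mul, hσ, abs_one]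
      nlinarith [abs_nonneg σ]
    refine norm_le_of (by linarith) fun w => ?_
    rw [BoundedContinuousFunction.sub_apply, BoundedContinuousFunction.smul_apply,
      BoundedContinuousFunction.smul_apply, smul_eq_mul, smul_eq_mul]
    by_cases hw : w.g < be ∧ τ.J w = j
    · obtain ⟨hw, hJ⟩ := hw
      have h1 : t' w = σ * κ * τ.f w := by
        have hJm : τ.J w ∈ {j | m ≤ j} := by rw [hJ]; exact hj
        rw [hlt w hw, R_mem (S := {w | τ.J w ∈ {j | m ≤ j}}) hJm, E_apply_lt hw, hJ, hn, hk, ← hs']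
        ring
      rw [y_apply_pos hJ, h1]
      have h2 : 2 * τ.f w - σ * (σ * κ * τ.f w) =
          (2 - κ) * τ.f w := by
        linear_combination (-(κ * τ.f w)) * hσ
      rw [h2, abs_mul]
      have h3 : |2 - κ| ≤ 1 + ε := by
        have h5 : κ ≤ 1 := hcle ⟨be, n, k⟩
        rw [abs_of_nonneg (by linarith)]; linarith
      calc |2 - κ| * |τ.f w| ≤ (1 + ε) * 1 :=
            mul_le_mul h3 (hfle w) (abs_nonneg _) (by linarith)
        _ = 1 + ε := mul_one _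
    · have hy : τ.y j w = 0 := by
        by_cases hJ : τ.J w = j
        · exact hy0 j w (not_lt.1 fun h => hw ⟨h, hJ⟩)
        · exact y_apply_neg hJ
      rw [hy, mul_zero, zero_sub, abs_neg, abs_mul, hσ1, one_mul]
      exact (ht'1 w).trans (by linarith)
  set u : F W := z + S with hu
  have huX : u ∈ X s be := Submodule.add_mem _ hz (D_le_X be hS)
  have hut : e τ be c + z = u + t' := by rw [hu, ht']; abel
  rw [hut]
  have hutX : u + t' ∈ X s d := Submodule.add_mem _ (hXd huX) ht'X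
  have hyX : ∀ j, (2 : ℝ) • τ.y j ∈ X s d := fun j =>
    Submodule.smul_mem _ _ (hXd (D_le_X be (hG.mem h0 j)))
  have hyB : ∀ j, m ≤ j → (2 : ℝ) • τ.y j ∈ B (s g') g' n' := fun j hj =>
    Submodule.smul_mem _ _ (hm j hj)
  have hmain : ∀ j, m ≤ j → ∀ σ : ℝ, σ * σ = 1 → nn j = n → kk j = k →
      ss j * c ⟨be, n, k⟩ = σ * κ → N ((2 : ℝ) • τ.y j - σ • t') ≤ b' * (1 + ε) := by
    intro j hj σ hσ hn hk hs'
    exact (hB _ (Submodule.sub_mem _ (hyX j) (Submodule.smul_mem _ _ ht'X))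
      (Submodule.sub_mem _ (hyB j hj) (Submodule.smul_mem _ _ ht'B))).trans
      (mul_le_mul_of_nonneg_left (hnorm j hj σ hσ hn hk hs') hb')
  have hplus : t u ≤ N (u + t') + b' * (1 + ε) := by
    refine le_of_tendsto_of_frequently (ht u huX) ?_
    refine ((nks_abs n k (c ⟨be, n, k⟩)).and_eventually (eventually_ge_atTop m)).mono ?_
    rintro j ⟨⟨hn, hk, hs'⟩, hj⟩
    have h1 := hmain j hj 1 (by norm_num) hn hk (by rw [hs', one_mul])
    have h2 : (2 : ℝ) • τ.y j + u = (u + t') + ((2 : ℝ) • τ.y j - (1 : ℝ) • t') := by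
      rw [one_smul]; abel
    rw [h2]
    refine (hN.add _ hutX _ (Submodule.sub_mem _ (hyX j) (Submodule.smul_mem _ _ ht'X))).trans ?_
    linarith
  have hminus : t (-u) ≤ N (u + t') + b' * (1 + ε) := by
    refine le_of_tendsto_of_frequently (ht (-u) (Submodule.neg_mem _ huX)) ?_
    refine ((nks_neg n k (c ⟨be, n, k⟩)).and_eventually (eventually_ge_atTop m)).mono ?_
    rintro j ⟨⟨hn, hk, hs'⟩, hj⟩
    have h1 := hmain j hj (-1) (by norm_num) hn hk (by rw [hs']; ring)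
    have h2 : (2 : ℝ) • τ.y j + -u = ((2 : ℝ) • τ.y j - (-1 : ℝ) • t') - (u + t') := by
      have h3 : (-1 : ℝ) • t' = -t' := by ext w; simp
      rw [h3]; abel
    rw [h2]
    refine (hN.sub (Submodule.sub_mem _ (hyX j) (Submodule.smul_mem _ _ ht'X)) hutX).trans ?_
    linarith
  have h4 := htb u huX
  linarith

end Pool.Agent.JO
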