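import Pool.Agent.Lib.JO.ThC0
import Pool.Agent.Lib.JO.ThC1
import Pool.Agent.Lib.JO.ThC2
import Pool.Agent.Lib.JO.ThC3
import Pool.Agent.Lib.JO.Fus

/-!
# Theorem C

PROOF.
`thmC`: `statC` below r: p2, b. If b ≤ a: (ii) with ε = a gives the pair with N ≤ (b + a)‖y‖ ≤ 2a‖y‖. Claim b ≤ a. Suppose 0 < δ. p2' ∈ DD, p2' ≤ p2. `fusion` below p2' with `St p i q y := b - 1/(i+1) < N q y` (`stepC`): r_i, y_i, L = lm r ∈ DD, be = L.d.
  ‖y_i‖ → 1: for δ' > 0: (ii) gives (g'', n''), g'' < p2.d ≤ be, N ≤ (b + δ')‖·‖ on B; eventually y_i ∈ B (L.s g'') g'' n''; b - 1/(i+1) < (b + δ') ‖y_i‖ ≤ b + δ'.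
  `subseq` with Y = SX L, N = N L: φ. `gd_of_blocks` for y ∘ φ (everything passes to subsequences), A with unit constant function (`exists_A`): t. r' := ext L t; q ∈ DD, q ≤ r'. c := function with row 0 at be equal to 1, ∈ V A be, ‖c‖ = 1, w0 = ⟨be, 0, 0⟩.
  al ≤ be ≤ q.d: (U) at g = be for x = e c: dN (N q) (X q.s be) (e c) ≤ a ‖e c‖ = a: z ∈ X q.s be with N q (e c + z) < a + δ. `claimC` with ε = δ, b' = b + δ ((ii) for δ; N q, q ≤ p2): a + δ ≥ 2 b - (b+δ)(1+δ). δ → 0: a ≥ b.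
  (limits t for N q: N q = N L on SX L = X q.s be (coherence, `X_le`); t u + t(-u) ≥ 4b: N(2y+u) + N(2y-u) ≥ N(4y) = 4 N(y) > 4(b - 1/(i+1)).)
-/

set_option autoImplicit false

open Set Filter Topology

namespace Pool.Agent.JO

variable {W : Type} [LinearOrder W] [WellFoundedLT W] [OrderBot W] [Om1 W]
variable {p0 : Cond W} {DD : Set (Cond W)} {c C : ℝ} {N : Cond W → F W → ℝ}

private theorem le_aux {a b : ℝ} (hb : 0 < b)
    (h : ∀ δ > 0, 2 * b - (b + δ) * (1 + δ) ≤ a + δ) : b ≤ a := by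
  by_contra hab
  push Not at hab
  set δ := min 1 ((b - a) / (2 * (3 + b))) with hδ
  have h3 : 0 < 2 * (3 + b) := by positivity
  have hδ0 : 0 < δ := lt_min one_pos (div_pos (by linarith) h3)
  have h1 : δ ≤ 1 := min_le_left _ _
  have h2 : δ * (2 * (3 + b)) ≤ b - a := by
    rw [← le_div_iff₀ h3]; exact min_le_right _ _
  have := h δ hδ0
  nlinarith [mul_nonneg hδ0.le (sub_nonneg.2 h1), mul_pos hδ0 hb]

/-- the function with row `0` at `be` equal to `1` -/
private noncomputable def one' (be : W) : F W := by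
  classical
  exact mk (fun w => if w.g = be ∧ w.n = 0 then 1 else 0) 1 (fun w => by split_ifs <;> simp)

omit [WellFoundedLT W] [OrderBot W] [Om1 W] in
private theorem one'_mem {A : Submodule ℝ L} (hA : (mk (fun _ => (1 : ℝ)) 1 (fun _ => by simp) : L) ∈ A)
    (be : W) : one' be ∈ V A be := by
  refine ⟨fun w hw => ?_, ⟨1, fun n hn k => ?_⟩, fun n => ?_⟩
  · simp [one', hw]
  · have : n ≠ 0 := by omega
    simp [one', this]
  · by_cases hn : n = 0
    · have : row be n (one' be) = (mk (fun _ => (1 : ℝ)) 1 (fun _ => by simp) : L) := by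
        ext k; simp [one', hn]
      rw [this]; exact hA
    · have : row be n (one' be) = 0 := by
        ext k; simp [one', hn]
      rw [this]; exact A.zero_mem

omit [WellFoundedLT W] [OrderBot W] [Om1 W] in
private theorem one'_norm (be : W) : ‖one' be‖ ≤ 1 := by
  refine norm_le_of zero_le_one fun w => ?_
  simp only [one', mk_apply]
  split_ifs <;> simp

omit [WellFoundedLT W] [OrderBot W] [Om1 W] in
private theorem one'_apply (be : W) : one' be ⟨be, 0, 0⟩ = 1 := by
  simp [one']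

/-- Theorem C -/
theorem thmC (hD : IsDom lm p0 DD) (hc : 0 < c) (hN : IsFam SX DD c C N) {r : Cond W} (hr : r ≤ p0) {a : ℝ} (ha : 0 < a)
    {al : W} (hal : al < r.d) (U : ∀ q ∈ DD, q ≤ r → ∀ g, al ≤ g → g ≤ q.d → ∀ x ∈ SX q, dN (N q) (X q.s g) x ≤ a * ‖x‖) :
    ∃ p ≤ r, ∃ g < p.d, ∃ n, ∀ q ∈ DD, q ≤ p → ∀ y ∈ SX q, y ∈ B (q.s g) g n → N q y ≤ 2 * a * ‖y‖ := by
  obtain ⟨p2, hp2, b, hb, hi, hii⟩ := statC hD hc hN hr
  have hba : b ≤ a := by
    obtain ⟨p2', hp2', hp2D⟩ := hD.dense p2 (hp2.trans hr)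
    obtain ⟨rr, y, hanti, h0, hrD, hlt, hyD, hy1, hdj, hSt, hev⟩ :=
      fusion hp2D (fun _ i q y => b - 1 / ((i : ℝ) + 1) < N q y) (by
        intro p hp hpp i G hG T hT hTD
        exact stepC hD hc hN (hp2.trans hr) hi (hpp.trans hp2') (by positivity) G hG T hT hTD)
    have hLD : lm rr ∈ DD := hD.lim rr hanti hrD
    have hLle : ∀ k, lm rr ≤ rr k := lm_le hanti
    have hrp : ∀ k, rr k ≤ p2 := fun k => (hanti (Nat.zero_le k)).trans (h0.le.trans hp2')
    have hLp : lm rr ≤ p2 := (hLle 0).trans (hrp 0)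
    have hyL : ∀ i, y i ∈ D (lm rr).s (lm rr).d := fun i => D_sub (hLle (i + 1)) (hyD i)
    have hyX : ∀ i, y i ∈ SX (lm rr) := fun i => D_le_X _ (hyL i)
    have hNy : ∀ i : ℕ, b - 1 / ((i : ℝ) + 1) < N (lm rr) (y i) := fun i => by
      rw [hN.coh (rr (i + 1)) (hrD _) (lm rr) hLD (hLle _) (y i) (D_le_X _ (hyD i))]
      exact hSt i
    -- the norms of the blocks
    have hone : Tendsto (fun i => ‖y i‖) atTop (𝓝 1) := by
      rw [Metric.tendsto_atTop]
      intro ε hε
      set δ := min (b / 2) (b * ε / 4) with hδ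
      have hδ0 : 0 < δ := lt_min (by positivity) (by positivity)
      obtain ⟨g', hg', n', hB⟩ := hii δ hδ0
      have e1 := hev g' (hg'.trans_le hLp.1) n'
      obtain ⟨K, hK⟩ := eventually_atTop.1 e1
      obtain ⟨M, hM⟩ := exists_nat_gt (1 / δ)
      refine ⟨max K M, fun i hi' => ?_⟩
      have hyB := hK i ((le_max_left _ _).trans hi')
      have hle := hB (lm rr) hLD hLp (y i) (hyX i) hyB
      have h1 : 1 / ((i : ℝ) + 1) ≤ δ := by
        have : (M : ℝ) ≤ i := by exact_mod_cast (le_max_right _ _).trans hi'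
        rw [div_le_iff₀ (by positivity)]
        rw [div_lt_iff₀ hδ0] at hM
        nlinarith
      have h2 := hNy i
      have h3 := hy1 i
      have h4 : b - δ < (b + δ) * ‖y i‖ := by linarith
      have h5 : δ ≤ b * ε / 4 := min_le_right _ _
      have h6 : δ ≤ b / 2 := min_le_left _ _
      rw [Real.dist_eq, abs_sub_lt_iff]
      constructor
      · linarith
      · -- 1 - ‖y i‖ < ε
        by_contra hcon
        push Not at hcon
        have : ‖y i‖ ≤ 1 - ε := by linarith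
        have h7 : (b + δ) * ‖y i‖ ≤ (b + δ) * (1 - ε) := mul_le_mul_of_nonneg_left this (by positivity)
        nlinarith
    obtain ⟨φ, hφ, hφt⟩ := subseq (X_sep (lm rr).gd le_rfl) (fam_sn hN hLD) (hN.upper _ hLD) hyX hy1
    obtain ⟨A, hAcl, hAsep, hAne, hA1⟩ := exists_A
    obtain ⟨t, htA, hty, hGd⟩ := gd_of_blocks (s := (lm rr).s) (g := (lm rr).d) hAcl hAsep hAne
      (y := fun i => y (φ i)) (fun j => hy1 _) (fun i j hij => hdj _ _ (hφ.injective.ne hij)) (fun j => hyL _)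
      (fun b hb n => hφ.tendsto_atTop.eventually (hev b hb n)) (hone.comp hφ.tendsto_atTop)
    have hr' : ext (lm rr) t hGd ≤ lm rr := ext_le _ _ _
    obtain ⟨q, hqr, hqD⟩ := hD.dense (ext (lm rr) t hGd) (hr'.trans (hLp.trans (hp2.trans hr)))
    have hqL : q ≤ lm rr := hqr.trans hr'
    have hqp : q ≤ p2 := hqL.trans hLp
    have hbe : (lm rr).d < q.d := (lt_sc _).trans_le hqr.1
    have hqs : q.s (lm rr).d = t := by
      rw [hqr.2 _ (lt_sc _), ext_s]
    set be := (lm rr).d with hbedef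
    have hXbe : X q.s be = SX (lm rr) := X_le hqL
    have halbe : al ≤ be := (hal.trans_le (hp2.1.trans hLp.1)).le
    have hscq : sc be ≤ q.d := sc_le_iff.2 hbe
    have hAq : (q.s be).A = A := by rw [hqs, htA]
    have hcV : one' be ∈ V (q.s be).A be := by rw [hAq]; exact one'_mem hA1 be
    have heX : e (q.s be) be (one' be) ∈ SX q := D_le_X _ (D_mono hscq (e_mem hcV))
    have hf1 : ‖(q.s be).f‖ ≤ 1 := (q.gd be hbe).f1
    have hen : ‖e (q.s be) be (one' be)‖ ≤ 1 := by
      rw [norm_e hf1]; exact (norm_R_le _ _).trans (one'_norm be)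
    choose! tt htt using hφt
    refine le_aux hb fun δ hδ => ?_
    have hdN : dN (N q) (X q.s be) (e (q.s be) be (one' be)) < a + δ := by
      have := U q hqD (hqp.trans hp2) be halbe hbe.le _ heX
      have h2 : a * ‖e (q.s be) be (one' be)‖ ≤ a * 1 := mul_le_mul_of_nonneg_left hen ha.le
      linarith
    obtain ⟨z, hz, hzN⟩ := exists_of_dN_lt hdN
    obtain ⟨g', hg', n', hB⟩ := hii δ hδ
    have hg'be : g' < be := hg'.trans_le hLp.1
    have hcoh : ∀ x ∈ SX (lm rr), N q x = N (lm rr) x := hN.coh _ hLD _ hqD hqL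
    have := claimC (s := q.s) (d := q.d) (be := be) (g' := g') q.gd hbe hg'be (N := N q) (fam_sn hN hqD)
      (n' := n') (b := b) (b' := b + δ) (ε := δ) hδ (by positivity)
      (fun v hv hvB => hB q hqD hqp v hv hvB) (t := tt) (fun u hu => by
        rw [hXbe] at hu
        refine (htt u hu).congr fun i => ?_
        rw [hqs, hty, hcoh]
        exact (SX (lm rr)).add_mem ((SX (lm rr)).smul_mem _ (hyX _)) hu) (fun u hu => by
        rw [hXbe] at hu
        have h1 := (htt u hu).add (htt (-u) ((SX (lm rr)).neg_mem hu))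
        have h2 : Tendsto (fun i : ℕ => 4 * (b - 1 / (((φ i : ℕ) : ℝ) + 1))) atTop (𝓝 (4 * (b - 0))) :=
          ((tendsto_const_nhds.sub (tendsto_one_div_add_atTop_nhds_zero_nat.comp hφ.tendsto_atTop))).const_mul 4
        rw [sub_zero] at h2
        refine le_of_tendsto_of_tendsto' h2 h1 fun i => ?_
        have hsn := fam_sn hN hLD
        have h3 := hsn.add ((2 : ℝ) • y (φ i) + u)
          ((SX (lm rr)).add_mem ((SX (lm rr)).smul_mem _ (hyX _)) hu) ((2 : ℝ) • y (φ i) + -u)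
          ((SX (lm rr)).add_mem ((SX (lm rr)).smul_mem _ (hyX _)) ((SX (lm rr)).neg_mem hu))
        have h4 : (2 : ℝ) • y (φ i) + u + ((2 : ℝ) • y (φ i) + -u) = (4 : ℝ) • y (φ i) := by
          module
        rw [h4, hsn.smul 4 _ (hyX _)] at h3
        have h5 := hNy (φ i)
        have h6 : |(4 : ℝ)| = 4 := by norm_num
        rw [h6] at h3
        linarith) (z := z) (c := one' be) hz hcV (one'_norm be) (n := 0) (k := 0) (by
        rw [one'_apply]; simp; exact hδ.le)
    exact this.trans hzN.le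
  obtain ⟨g, hg, n, hB⟩ := hii a ha
  exact ⟨p2, hp2, g, hg, n, fun q hq hqp y hy hyB =>
    (hB q hq hqp y hy hyB).trans (mul_le_mul_of_nonneg_right (by linarith) (norm_nonneg _))⟩

end Pool.Agent.JO
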