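import Pool.Agent.Lib.JO.Snm
import Pool.Agent.Lib.JO.Stb

/-!
# Theorem C, stabilisation

PROOF.
`statC`: for p ≤ r and a pair (g, n), g < p.d: `T p g n := sSup {t | ∃ q ∈ DD, q ≤ p ∧ ∃ y ∈ SX q, y ∈ B (q.s g) g n ∧ ‖y‖ ≤ 1 ∧ t = N q y}`, `S p := sInf {T p g n | g < p.d, n}` (nonempty: g = ⊥).
 c ≤ T p g n: take b := g, `unit_B` at stage g of q ∈ DD, q ≤ p (sc g ≤ q.d): norm 1 element of D q.s q.d ∩ B; N ≥ c. T ≤ max C 0. S antitone in strength: p' ≤ p: more pairs and `T p' g n ≤ T p g n`. `stab` with m = c. b := S p2 ≥ c > 0.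
 (i) for p ≤ p2, g < p.d: T p g n ≥ S p = b > b - ε: `exists_lt_of_lt_csSup`.   (ii) S p2 = b < b + ε: some (g, n), g < p2.d with T p2 g n < b + ε; homogeneity.
-/

set_option autoImplicit false

open Set Filter Topology

namespace Pool.Agent.JO

variable {W : Type} [LinearOrder W] [WellFoundedLT W] [OrderBot W] [Om1 W]
variable {p0 : Cond W} {DD : Set (Cond W)} {c C : ℝ} {N : Cond W → F W → ℝ}

theorem statC (hD : IsDom lm p0 DD) (hc : 0 < c) (hN : IsFam SX DD c C N) {r : Cond W} (hr : r ≤ p0) :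
    ∃ p2 ≤ r, ∃ b : ℝ, 0 < b ∧
      (∀ p ≤ p2, ∀ g < p.d, ∀ n, ∀ ε > 0, ∃ q ∈ DD, q ≤ p ∧ ∃ y ∈ SX q, y ∈ B (q.s g) g n ∧ ‖y‖ ≤ 1 ∧ b - ε < N q y) ∧
      ∀ ε > 0, ∃ g < p2.d, ∃ n, ∀ q ∈ DD, q ≤ p2 → ∀ y ∈ SX q, y ∈ B (q.s g) g n → N q y ≤ (b + ε) * ‖y‖ := by
  let TS : Cond W → W → ℕ → Set ℝ := fun p g n =>
    {t | ∃ q ∈ DD, q ≤ p ∧ ∃ y ∈ SX q, y ∈ B (q.s g) g n ∧ ‖y‖ ≤ 1 ∧ t = N q y}
  let T : Cond W → W → ℕ → ℝ := fun p g n => sSup (TS p g n)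
  let SS : Cond W → Set ℝ := fun p => {t | ∃ g < p.d, ∃ n, t = T p g n}
  let S : Cond W → ℝ := fun p => sInf (SS p)
  have hbd : ∀ p g n, BddAbove (TS p g n) := by
    intro p g n
    refine ⟨max C 0, ?_⟩
    rintro _ ⟨q, hq, -, y, hy, -, hy1, rfl⟩
    refine (hN.upper q hq y hy).trans ?_
    rcases le_or_gt 0 C with hC | hC
    · exact (mul_le_of_le_one_right hC hy1).trans (le_max_left _ _)
    · exact (mul_nonpos_of_nonpos_of_nonneg hC.le (norm_nonneg y)).trans (le_max_right _ _)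
  have hex : ∀ p ≤ p0, ∀ g < p.d, ∀ n, ∃ t ∈ TS p g n, c ≤ t := by
    intro p hp g hg n
    obtain ⟨q, hqp, hqD⟩ := hD.dense p hp
    have hgq : g < q.d := hg.trans_le hqp.1
    obtain ⟨a, ha, haB, ha1⟩ := unit_B q.gd hgq n
    have haS : a ∈ SX q := D_le_X _ (D_mono (sc_le_iff.mpr hgq) ha)
    refine ⟨N q a, ⟨q, hqD, hqp, a, haS, haB, ha1.le, rfl⟩, ?_⟩
    have h1 := hN.lower q hqD a haS
    rwa [ha1, mul_one] at h1
  have hTc : ∀ p ≤ p0, ∀ g < p.d, ∀ n, c ≤ T p g n := by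
    intro p hp g hg n
    obtain ⟨t, ht, hct⟩ := hex p hp g hg n
    exact hct.trans (le_csSup (hbd p g n) ht)
  have hTm : ∀ p, ∀ p' ≤ p, p' ≤ p0 → ∀ g < p'.d, ∀ n, T p' g n ≤ T p g n := by
    intro p p' hpp hp' g hg n
    obtain ⟨t, ht, -⟩ := hex p' hp' g hg n
    refine csSup_le_csSup (hbd p g n) ⟨t, ht⟩ ?_
    rintro _ ⟨q, hq, hqp, y, hy⟩
    exact ⟨q, hq, le_trans hqp hpp, y, hy⟩
  have hSb : ∀ p ≤ p0, BddBelow (SS p) := by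
    intro p hp
    refine ⟨c, ?_⟩
    rintro _ ⟨g, hg, n, rfl⟩
    exact hTc p hp g hg n
  have hSn : ∀ p : Cond W, (SS p).Nonempty := fun p => ⟨_, ⊥, p.pos, 0, rfl⟩
  have hSc : ∀ p ≤ r, c ≤ S p := by
    intro p hp
    refine le_csInf (hSn p) ?_
    rintro _ ⟨g, hg, n, rfl⟩
    exact hTc p (le_trans hp hr) g hg n
  have hSm : ∀ p ≤ r, ∀ q ≤ p, S q ≤ S p := by
    intro p hp q hq
    have hq0 : q ≤ p0 := le_trans hq (le_trans hp hr)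
    refine le_csInf (hSn p) ?_
    rintro _ ⟨g, hg, n, rfl⟩
    have hg' : g < q.d := hg.trans_le hq.1
    exact (csInf_le (hSb q hq0) ⟨g, hg', n, rfl⟩).trans (hTm p q hq hq0 g hg' n)
  obtain ⟨p2, hp2, hst⟩ := stab S r c hSm hSc
  refine ⟨p2, hp2, S p2, lt_of_lt_of_le hc (hSc p2 hp2), ?_, ?_⟩
  · intro p hp g hg n ε hε
    have hp0 : p ≤ p0 := le_trans hp (le_trans hp2 hr)
    obtain ⟨t, ht, -⟩ := hex p hp0 g hg n
    have h1 : S p2 - ε < T p g n := by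
      have h2 : S p ≤ T p g n := csInf_le (hSb p hp0) ⟨g, hg, n, rfl⟩
      rw [hst p hp] at h2
      linarith
    obtain ⟨_, ⟨q, hq, hqp, y, hy, hyB, hy1, rfl⟩, hlt⟩ := exists_lt_of_lt_csSup ⟨t, ht⟩ h1
    exact ⟨q, hq, hqp, y, hy, hyB, hy1, hlt⟩
  · intro ε hε
    obtain ⟨_, ⟨g, hg, n, rfl⟩, hlt⟩ := exists_lt_of_csInf_lt (hSn p2) (lt_add_of_pos_right (S p2) hε)
    refine ⟨g, hg, n, fun q hq hqp y hy hyB => ?_⟩
    have hsn := fam_sn hN hq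
    by_cases hy0 : y = 0
    · rw [hy0, hsn.zero, norm_zero, mul_zero]
    have hyn : 0 < ‖y‖ := norm_pos_iff.mpr hy0
    have h1 : N q (‖y‖⁻¹ • y) ≤ T p2 g n := by
      refine le_csSup (hbd p2 g n) ⟨q, hq, hqp, ‖y‖⁻¹ • y, (SX q).smul_mem _ hy, (B (q.s g) g n).smul_mem _ hyB, ?_, rfl⟩
      rw [norm_smul, norm_inv, norm_norm, inv_mul_cancel₀ hyn.ne']
    have h2 : N q (‖y‖⁻¹ • y) = ‖y‖⁻¹ * N q y := by
      rw [hsn.smul _ y hy, abs_of_pos (inv_pos.mpr hyn)]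
    rw [h2] at h1
    have h3 : N q y = ‖y‖ * (‖y‖⁻¹ * N q y) := by
      rw [← mul_assoc, mul_inv_cancel₀ hyn.ne', one_mul]
    have hlt' : T p2 g n < S p2 + ε := hlt
    rw [h3, mul_comm (S p2 + ε)]
    exact mul_le_mul_of_nonneg_left (h1.trans hlt'.le) hyn.le

end Pool.Agent.JO
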