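import Pool.Agent.Lib.JO.ThD0
import Pool.Agent.Lib.JO.DTh0
import Pool.Agent.Lib.JO.Emb

/-!
# Theorem D, the three stages

`stagesD`: q ∈ DD, q ≤ p2, be := q.d (> al1, al2, g1, g2). J_k, A_k: `exists_emb` for Y = SX q (closed, separable `X_sep`, F W complete), the seminorm `fun x => N q x / a_k` (lower c/a_k, upper C/a_k); so a_k ‖J_k x‖ = N q x.
  A_k ≠ ⊥: SX q contains a vector of norm 1 (`unit_B` at b = ⊥: D q.s (sc ⊥) ≤ SX q). Three extensions (`exists_ext`): q1 ≤ q, (q1.s be).A = A_1, d = sc be; q2 ≤ q1: (q2.s (sc be)).A = A_2, d = sc (sc be); q3 ≤ q2: d = sc (sc (sc be)), any A.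
  q^ ∈ DD, q^ ≤ q3. m from `(Gd at be).ev` for the pairs (g1, n1), (g2, n2) (eventually_atTop, max).
  For r ∈ DD, r ≤ q^: `Hf r.s r.d be η_k (N^k r) a_k al_k g_k n_k m J_k`, η_1 = be, η_2 = sc be: hs = r.gd; hη: sc η_2 = sc (sc be) < sc (sc (sc be)) ≤ r.d; (r.s η).A = A_k (r ≤ q_k); r.s b = q^.s b for b < q^.d; X r.s be = SX q (`X_le`);
  Jnorm: N r x = N q x (coh). F1, F2 from `setupD` for r.
-/

set_option autoImplicit false

open Set Filter Topology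

namespace Pool.Agent.JO

variable {W : Type} [LinearOrder W] [WellFoundedLT W] [OrderBot W] [Om1 W]

/-- the embedding of `SX q`, with the norm `N / a` -/
private theorem emb_aux {q : Cond W} {N : F W → ℝ} {c C a : ℝ} (ha : 0 < a) (hc : 0 < c) (hN : Sn (SX q) N)
    (h1 : ∀ x ∈ SX q, c * ‖x‖ ≤ N x) (h2 : ∀ x ∈ SX q, N x ≤ C * ‖x‖) :
    ∃ (J : F W → L) (A : Submodule ℝ L), IsClosed (A : Set L) ∧ TopologicalSpace.IsSeparable (A : Set L) ∧ A ≠ ⊥ ∧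
      (∀ x ∈ SX q, ∀ y ∈ SX q, J (x + y) = J x + J y) ∧ (∀ (t : ℝ), ∀ x ∈ SX q, J (t • x) = t • J x) ∧
      (∀ x ∈ SX q, a * ‖J x‖ = N x) ∧ (∀ x ∈ SX q, J x ∈ A) ∧ ∀ v ∈ A, ∃ x ∈ SX q, J x = v := by
  have hsn : Sn (SX q) (fun x => N x / a) := by
    refine ⟨fun x hx y hy => ?_, fun t x hx => ?_⟩
    · rw [← add_div]; exact (div_le_div_iff_of_pos_right ha).2 (hN.add x hx y hy)
    · rw [hN.smul t x hx, mul_div_assoc]
  obtain ⟨J, A, cl, sep, Ja, Js, Jn, Jm, Jsurj⟩ := exists_emb (Y := SX q) (X_closed _ _) (X_sep q.gd le_rfl) hsn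
    (c := c / a) (C := C / a) (by positivity)
    (fun x hx => by rw [div_mul_eq_mul_div]; exact (div_le_div_iff_of_pos_right ha).2 (h1 x hx))
    (fun x hx => by rw [div_mul_eq_mul_div]; exact (div_le_div_iff_of_pos_right ha).2 (h2 x hx))
  refine ⟨J, A, cl, sep, ?_, Ja, Js, fun x hx => ?_, Jm, Jsurj⟩
  · rintro rfl
    obtain ⟨v, hv, -, hv1⟩ := unit_B q.gd q.pos 0
    have hvX : v ∈ SX q := D_le_X _ (D_mono (sc_le_iff.2 q.pos) hv)
    have h3 : J v = 0 := by simpa using Jm v hvX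
    have h4 := Jn v hvX
    rw [h3, norm_zero] at h4
    have h5 := h1 v hvX
    rw [hv1] at h5
    have h6 : N v = 0 := by
      rcases div_eq_zero_iff.1 h4.symm with h | h
      · exact h
      · exact absurd h ha.ne'
    linarith
  · rw [Jn x hx]; field_simp

theorem stagesD {p0 : Cond W} {DD : Set (Cond W)} {c C : ℝ} {N N' : Cond W → F W → ℝ} (hD : IsDom lm p0 DD) (hc : 0 < c)
    (hN : IsFam SX DD c C N) (hN' : IsFam SX DD c C N') {p : Cond W} (hp : p ≤ p0) {a a' : ℝ} {al al' g g' : W} {n n' : ℕ}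
    (h : AC DD N p a al g n) (h' : AC DD N' p a' al' g' n') :
    ∃ q ∈ DD, ∃ (be : W) (m : ℕ) (J J' : F W → L), ∀ r ∈ DD, r ≤ q →
      (∀ b ≤ sc (sc be), r.s b = q.s b) ∧
      Hf r.s r.d be be (N r) a al g n m J ∧ Hf r.s r.d be (sc be) (N' r) a' al' g' n' m J' := by
  obtain ⟨q, hqp, hqD⟩ := hD.dense p hp
  obtain ⟨J, A, cl, sep, ne, Ja, Js, Jn, Jm, Jsurj⟩ := emb_aux h.ha hc (fam_sn hN hqD) (hN.lower q hqD) (hN.upper q hqD)
  obtain ⟨J', A', cl', sep', ne', Ja', Js', Jn', Jm', Jsurj'⟩ :=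
    emb_aux h'.ha hc (fam_sn hN' hqD) (hN'.lower q hqD) (hN'.upper q hqD)
  obtain ⟨q1, hq1, hd1, hA1⟩ := exists_ext q cl sep ne
  obtain ⟨q2, hq2, hd2, hA2⟩ := exists_ext q1 cl' sep' ne'
  obtain ⟨q3, hq3, hd3, -⟩ := exists_ext q2 cl sep ne
  obtain ⟨q4, hq4, hq4D⟩ := hD.dense q3 (hq3.trans (hq2.trans (hq1.trans (hqp.trans hp))))
  have hd2' : q2.d = sc (sc q.d) := by rw [hd2, hd1]
  have hd3' : q3.d = sc (sc (sc q.d)) := by rw [hd3, hd2']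
  have hq4q2 : q4 ≤ q2 := hq4.trans hq3
  have hq4q1 : q4 ≤ q1 := hq4q2.trans hq2
  have hq4q : q4 ≤ q := hq4q1.trans hq1
  have hbe : q.d < q4.d := (lt_sc _).trans_le (hd1 ▸ hq4q1.1)
  have hsc4 : sc (sc q.d) < q4.d := by
    have := hq4.1
    rw [hd3'] at this
    exact (lt_sc _).trans_le this
  have hgbe : g < q.d := h.hg.trans_le hqp.1
  have hgbe' : g' < q.d := h'.hg.trans_le hqp.1
  obtain ⟨m1, hm1⟩ := eventually_atTop.1 ((q4.gd q.d hbe).ev g hgbe n)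
  obtain ⟨m2, hm2⟩ := eventually_atTop.1 ((q4.gd q.d hbe).ev g' hgbe' n')
  refine ⟨q4, hq4D, q.d, max m1 m2, J, J', fun r hrD hr => ?_⟩
  have hrs : ∀ b ≤ sc (sc q.d), r.s b = q4.s b := fun b hb => hr.2 b (hb.trans_lt hsc4)
  have hrq : r ≤ q := hr.trans hq4q
  have hX : X r.s q.d = SX q := X_le hrq
  have hrd : sc (sc q.d) < r.d := hsc4.trans_le hr.1
  have hb1 : q.d ≤ sc (sc q.d) := ((lt_sc _).trans (lt_sc _)).le
  have hs0 : r.s q.d = q4.s q.d := hrs _ hb1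
  have hsg : r.s g = q4.s g := hrs _ (hgbe.le.trans hb1)
  have hsg' : r.s g' = q4.s g' := hrs _ (hgbe'.le.trans hb1)
  have hsA : (r.s q.d).A = A := by
    rw [(hr.trans hq4q1).2 q.d (hd1 ▸ lt_sc _), hA1]
  have hsA' : (r.s (sc q.d)).A = A' := by
    rw [← hd1, (hr.trans hq4q2).2 q1.d (hd2 ▸ lt_sc _), hA2]
  refine ⟨hrs, ?_, ?_⟩
  · refine ⟨r.gd, q.pos, le_rfl, (lt_sc _).trans hrd, fam_sn hN hrD, h.ha, (h.hal.trans_le hqp.1).le,
      h.F1 r hrD (hrq.trans hqp), hgbe, h.F2 r hrD (hrq.trans hqp), fun j hj => ?_, ?_, ?_, ?_, ?_, ?_⟩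
    · rw [hs0, hsg]; exact hm1 j ((le_max_left _ _).trans hj)
    · rw [hX]; exact Ja
    · rw [hX]; exact Js
    · rw [hX]; exact fun x hx => by rw [Jn x hx, hN.coh q hqD r hrD hrq x hx]
    · rw [hX, hsA]; exact Jm
    · rw [hX, hsA]; exact Jsurj
  · refine ⟨r.gd, q.pos, (lt_sc _).le, hrd, fam_sn hN' hrD, h'.ha, (h'.hal.trans_le hqp.1).le,
      h'.F1 r hrD (hrq.trans hqp), hgbe', h'.F2 r hrD (hrq.trans hqp), fun j hj => ?_, ?_, ?_, ?_, ?_, ?_⟩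
    · rw [hs0, hsg']; exact hm2 j ((le_max_right _ _).trans hj)
    · rw [hX]; exact Ja'
    · rw [hX]; exact Js'
    · rw [hX]; exact fun x hx => by rw [Jn' x hx, hN'.coh q hqD r hrD hrq x hx]
    · rw [hX, hsA']; exact Jm'
    · rw [hX, hsA']; exact Jsurj'

end Pool.Agent.JO
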