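import Pool.Agent.Lib.JO.ThD1
import Pool.Agent.Lib.JO.ThD2
import Pool.Agent.Lib.JO.DTh

/-!
# Theorem D: the main property for the spaces `SX p` in `F W`

`thmD`: T_k r := Th J_k (r.s be) (r.s η_k) (r.s (sc η_k)) be η_k (sc η_k) m; these functions are the same for all r ≤ q^. Let κ := 72 * a_1 / a_2. For x ∈ SX r there is x' ∈ SX r with T_2 x' = T_1 x (`Th_mem`, `Th_surj`), unique by `Th_lower`
  (T_2 (x' - x'') = 0 → N' (x' - x'') ≤ 0 → ‖x' - x''‖ ≤ 0, fam lower). T r x := κ • x' (choice: `if h : ∃ x' ∈ SX r, T_2 x' = T_1 x then κ • h.choose else 0`). Linear, coherent (x' ∈ SX r ≤ SX r' is the solution for r' too), injective (lower bound),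
  surjective: given v, κ⁻¹ v =: x', find x ∈ SX r with T_1 x = T_2 x'.
  Bounds: N x ≤ 12 a1 ‖T_1 x‖ = 12 a1 ‖T_2 x'‖ ≤ 12 a1 * 6 N' x' / a2 = κ N' x' = N' (κ x'); N' (κ x') = κ N' x' ≤ κ 12 a2 ‖T_2 x'‖ = κ 12 a2 ‖T_1 x‖ ≤ κ 12 a2 * 6 N x / a1 = 72 * 72 N x = 5184 N x.
-/

set_option autoImplicit false

open Set Filter Topology

namespace Pool.Agent.JO

variable {W : Type} [LinearOrder W] [WellFoundedLT W] [OrderBot W] [Om1 W]

/-- the properties of one map `T_k` -/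
private structure Fc (q : Cond W) (be : W) (Y : Submodule ℝ (F W)) (N : F W → ℝ) (a : ℝ) (T : F W → F W) : Prop where
  mem : ∀ x ∈ Y, T x ∈ Y ∧ P (q.s be) be (T x) = 0
  add : ∀ x ∈ Y, ∀ y ∈ Y, T (x + y) = T x + T y
  smul : ∀ (t : ℝ), ∀ x ∈ Y, T (t • x) = t • T x
  surj : ∀ w ∈ Y, P (q.s be) be w = 0 → ∃ x ∈ Y, T x = w
  upper : ∀ x ∈ Y, a * ‖T x‖ ≤ 6 * N x
  lower : ∀ x ∈ Y, N x ≤ 12 * a * ‖T x‖

omit [WellFoundedLT W] [Om1 W] in
private theorem Fc.inj {q : Cond W} {be : W} {Y : Submodule ℝ (F W)} {N : F W → ℝ} {a c : ℝ} {T : F W → F W}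
    (h : Fc q be Y N a T) (hc : 0 < c) (hN : ∀ x ∈ Y, c * ‖x‖ ≤ N x) {x y : F W} (hx : x ∈ Y) (hy : y ∈ Y)
    (hT : T x = T y) : x = y := by
  have h1 : T (x - y) = 0 := by
    have h0 : (-1 : ℝ) • T y = -T y := neg_one_smul ℝ (T y)
    rw [sub_eq_add_neg, ← neg_one_smul ℝ y, h.add x hx _ (Y.smul_mem _ hy), h.smul _ y hy, hT]
    exact (congrArg (T y + ·) h0).trans (add_neg_cancel _)
  have h2 := h.lower (x - y) (Y.sub_mem hx hy)
  rw [h1, norm_zero, mul_zero] at h2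
  have h3 := hN (x - y) (Y.sub_mem hx hy)
  have h4 : ‖x - y‖ ≤ 0 := by
    by_contra hcon
    push Not at hcon
    have := mul_pos hc hcon
    linarith
  exact sub_eq_zero.1 (norm_le_zero_iff.1 h4)

theorem thmD : MainProp (SX : Cond W → Submodule ℝ (F W)) lm 5184 := by
  classical
  intro p0 DD hD c C hc N N' hN hN'
  obtain ⟨p, hp, ⟨a, al, g, n, hAC⟩, ⟨a', al', g', n', hAC'⟩⟩ := setupD hD hc hN hN'
  obtain ⟨q, hqD, be, m, J, J', hS⟩ := stagesD hD hc hN hN' hp hAC hAC'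
  have ha := hAC.ha
  have ha' := hAC'.ha
  set T1 : F W → F W := Th J (q.s be) (q.s be) (q.s (sc be)) be be (sc be) m with hT1
  set T2 : F W → F W := Th J' (q.s be) (q.s (sc be)) (q.s (sc (sc be))) be (sc be) (sc (sc be)) m with hT2
  have l1 : be ≤ sc be := (lt_sc _).le
  have l2 : sc be ≤ sc (sc be) := (lt_sc _).le
  have H1 : ∀ r ∈ DD, r ≤ q → Fc q be (SX r) (N r) a T1 := by
    intro r hrD hr
    obtain ⟨hs, H, -⟩ := hS r hrD hr
    have e0 : r.s be = q.s be := hs _ (l1.trans l2)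
    have e1 : r.s (sc be) = q.s (sc be) := hs _ l2
    have t0 : Th J (r.s be) (r.s be) (r.s (sc be)) be be (sc be) m = T1 := by rw [e0, e1]
    refine ⟨fun x hx => ?_, fun x hx y hy => ?_, fun t x hx => ?_, fun w hw hP => ?_, fun x hx => ?_,
      fun x hx => ?_⟩
    · have := Th_mem H hx; rwa [t0, e0] at this
    · have := Th_add H hx hy; rwa [t0] at this
    · have := Th_smul H t hx; rwa [t0] at this
    · rw [← e0] at hP
      have := Th_surj H hw hP; rwa [t0] at this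
    · have := Th_upper H hx; rwa [t0] at this
    · have := Th_lower H hx; rwa [t0] at this
  have H2 : ∀ r ∈ DD, r ≤ q → Fc q be (SX r) (N' r) a' T2 := by
    intro r hrD hr
    obtain ⟨hs, -, H⟩ := hS r hrD hr
    have e0 : r.s be = q.s be := hs _ (l1.trans l2)
    have e1 : r.s (sc be) = q.s (sc be) := hs _ l2
    have e2 : r.s (sc (sc be)) = q.s (sc (sc be)) := hs _ le_rfl
    have t0 : Th J' (r.s be) (r.s (sc be)) (r.s (sc (sc be))) be (sc be) (sc (sc be)) m = T2 := by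
      rw [e0, e1, e2]
    refine ⟨fun x hx => ?_, fun x hx y hy => ?_, fun t x hx => ?_, fun w hw hP => ?_, fun x hx => ?_,
      fun x hx => ?_⟩
    · have := Th_mem H hx; rwa [t0, e0] at this
    · have := Th_add H hx hy; rwa [t0] at this
    · have := Th_smul H t hx; rwa [t0] at this
    · rw [← e0] at hP
      have := Th_surj H hw hP; rwa [t0] at this
    · have := Th_upper H hx; rwa [t0] at this
    · have := Th_lower H hx; rwa [t0] at this
  set κ : ℝ := 72 * a / a' with hκ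
  have hκ0 : 0 < κ := by positivity
  let T : Cond W → F W → F W := fun r x =>
    if h : ∃ x' ∈ SX r, T2 x' = T1 x then κ • h.choose else 0
  have hex : ∀ r ∈ DD, r ≤ q → ∀ x ∈ SX r, ∃ x' ∈ SX r, T2 x' = T1 x := fun r hrD hr x hx => by
    have h1 := (H1 r hrD hr).mem x hx
    exact (H2 r hrD hr).surj _ h1.1 h1.2
  have inj2 : ∀ r ∈ DD, r ≤ q → ∀ x ∈ SX r, ∀ y ∈ SX r, T2 x = T2 y → x = y :=
    fun r hrD hr x hx y hy h => (H2 r hrD hr).inj hc (hN'.lower r hrD) hx hy h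
  have inj1 : ∀ r ∈ DD, r ≤ q → ∀ x ∈ SX r, ∀ y ∈ SX r, T1 x = T1 y → x = y :=
    fun r hrD hr x hx y hy h => (H1 r hrD hr).inj hc (hN.lower r hrD) hx hy h
  have hT : ∀ r ∈ DD, r ≤ q → ∀ x ∈ SX r, ∀ x' ∈ SX r, T2 x' = T1 x → T r x = κ • x' := by
    intro r hrD hr x hx x' hx' h
    have h0 : ∃ x' ∈ SX r, T2 x' = T1 x := ⟨x', hx', h⟩
    show (if h : ∃ x' ∈ SX r, T2 x' = T1 x then κ • h.choose else 0) = κ • x'
    rw [dif_pos h0]
    congr 1
    exact inj2 r hrD hr _ h0.choose_spec.1 _ hx' (h0.choose_spec.2.trans h.symm)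
  refine ⟨q, hqD, T, ⟨?_, ?_, ?_, ?_, ?_, ?_⟩, ?_⟩
  · intro r hrD hr x hx
    obtain ⟨x', hx', h⟩ := hex r hrD hr x hx
    rw [hT r hrD hr x hx x' hx' h]
    exact (SX r).smul_mem _ hx'
  · intro r hrD hr x hx y hy
    obtain ⟨x', hx', h⟩ := hex r hrD hr x hx
    obtain ⟨y', hy', h'⟩ := hex r hrD hr y hy
    rw [hT r hrD hr x hx x' hx' h, hT r hrD hr y hy y' hy' h',
      hT r hrD hr (x + y) ((SX r).add_mem hx hy) (x' + y') ((SX r).add_mem hx' hy') (by
        rw [(H2 r hrD hr).add x' hx' y' hy', (H1 r hrD hr).add x hx y hy, h, h']), smul_add]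
  · intro r hrD hr t x hx
    obtain ⟨x', hx', h⟩ := hex r hrD hr x hx
    rw [hT r hrD hr x hx x' hx' h,
      hT r hrD hr (t • x) ((SX r).smul_mem t hx) (t • x') ((SX r).smul_mem t hx') (by
        rw [(H2 r hrD hr).smul t x' hx', (H1 r hrD hr).smul t x hx, h]), smul_comm]
  · intro r hrD hr x hx y hy hxy
    obtain ⟨x', hx', h⟩ := hex r hrD hr x hx
    obtain ⟨y', hy', h'⟩ := hex r hrD hr y hy
    rw [hT r hrD hr x hx x' hx' h, hT r hrD hr y hy y' hy' h'] at hxy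
    have : x' = y' := smul_right_injective _ hκ0.ne' hxy
    refine inj1 r hrD hr x hx y hy ?_
    rw [← h, ← h', this]
  · intro r hrD hr y hy
    have hy' : κ⁻¹ • y ∈ SX r := (SX r).smul_mem _ hy
    have h1 := (H2 r hrD hr).mem _ hy'
    obtain ⟨x, hx, h⟩ := (H1 r hrD hr).surj _ h1.1 h1.2
    refine ⟨x, hx, ?_⟩
    rw [hT r hrD hr x hx _ hy' h.symm, smul_inv_smul₀ hκ0.ne']
  · intro r hrD hr r' hrD' hr' x hx
    obtain ⟨x', hx', h⟩ := hex r hrD hr x hx
    rw [hT r hrD hr x hx x' hx' h, hT r' hrD' (hr'.trans hr) x (X_sub hr' hx) x' (X_sub hr' hx') h]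
  · intro r hrD hr x hx
    obtain ⟨x', hx', h⟩ := hex r hrD hr x hx
    rw [hT r hrD hr x hx x' hx' h, hN'.smul r hrD κ x' hx', abs_of_pos hκ0]
    have u1 := (H1 r hrD hr).upper x hx
    have w1 := (H1 r hrD hr).lower x hx
    have u2 := (H2 r hrD hr).upper x' hx'
    have w2 := (H2 r hrD hr).lower x' hx'
    rw [h] at u2 w2
    set τ := ‖T1 x‖
    have hκa : κ * a' = 72 * a := by rw [hκ]; field_simp
    constructor
    · -- N x ≤ 12 a τ, a' τ ≤ 6 N' x'
      have h1 : 12 * a * τ * a' ≤ κ * N' r x' * a' := by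
        have : 12 * a * (a' * τ) ≤ 12 * a * (6 * N' r x') := mul_le_mul_of_nonneg_left u2 (by positivity)
        have e1 : κ * N' r x' * a' = 72 * a * N' r x' := by rw [← hκa]; ring
        rw [e1]; linarith
      exact w1.trans (le_of_mul_le_mul_right h1 ha')
    · have h1 : κ * N' r x' ≤ κ * (12 * a' * τ) := mul_le_mul_of_nonneg_left w2 hκ0.le
      have e1 : κ * (12 * a' * τ) = 12 * 72 * (a * τ) := by
        have : κ * (12 * a' * τ) = 12 * τ * (κ * a') := by ring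
        rw [this, hκa]; ring
      rw [e1] at h1
      linarith

end Pool.Agent.JO
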