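import Pool.Agent.Lib.JO.Snm

/-!
# The conclusions of Theorems A and C
-/

set_option autoImplicit false

open Set Filter Topology

namespace Pool.Agent.JO

variable {W : Type} [LinearOrder W] [OrderBot W]

/-- Theorems A and C for one family, below `p` -/
structure AC (DD : Set (Cond W)) (N : Cond W → F W → ℝ) (p : Cond W) (a : ℝ) (al g : W) (n : ℕ) : Prop where
  ha : 0 < a
  hal : al < p.d
  hg : g < p.d
  F1 : ∀ q ∈ DD, q ≤ p → ∀ x ∈ SX q, a * ‖R {w | al ≤ w.g} x‖ ≤ N q x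
  F2 : ∀ q ∈ DD, q ≤ p → ∀ y ∈ SX q, y ∈ B (q.s g) g n → N q y ≤ 2 * a * ‖y‖

end Pool.Agent.JO
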