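import Pool.Agent.Lib.JO.ThD0
import Pool.Agent.Lib.JO.ThA
import Pool.Agent.Lib.JO.ThC

/-!
# Theorem D, set up

`setupD`: `thmA` for N below p0: a1, r1 ≤ p0, al1. `thmC` with r = r1: p1 ≤ r1, g1, n1. Apply `thmA` to N' below p1: the set `DD' := {q ∈ DD | q ≤ p1}` satisfies IsDom lm p1 DD' (dense: p ≤ p1 has q ≤ p in DD, then q ≤ p1; lim:
  lm r ≤ r 0 ≤ p1) and IsFam SX DD' c C N'. a2, r2 ≤ p1, al2; `thmC` again: p2 ≤ r2, g2, n2. Everything for N passes to p2 (q ≤ p2 ≤ p1 ≤ r1).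
-/

set_option autoImplicit false

open Set Filter Topology

namespace Pool.Agent.JO

variable {W : Type} [LinearOrder W] [WellFoundedLT W] [OrderBot W] [Om1 W]

theorem setupD {p0 : Cond W} {DD : Set (Cond W)} {c C : ℝ} {N N' : Cond W → F W → ℝ} (hD : IsDom lm p0 DD) (hc : 0 < c)
    (hN : IsFam SX DD c C N) (hN' : IsFam SX DD c C N') :
    ∃ p ≤ p0, (∃ a al g n, AC DD N p a al g n) ∧ ∃ a al g n, AC DD N' p a al g n := by
  obtain ⟨a, ha, r, hr, al, -, hal, hA⟩ := thmA hD hc hN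
  obtain ⟨p1, hp1, g, hg, n, hC⟩ := thmC hD hc hN hr ha hal (fun q hq hqr => (hA q hq hqr).2)
  have hp10 : p1 ≤ p0 := hp1.trans hr
  have hD' : IsDom lm p1 {q | q ∈ DD ∧ q ≤ p1} := by
    refine ⟨fun p hp => hp.2, fun p hp => ?_, fun rr hrr h => ⟨hD.lim rr hrr fun k => (h k).1, ?_⟩⟩
    · obtain ⟨q, hq, hqD⟩ := hD.dense p (hp.trans hp10)
      exact ⟨q, hq, hqD, hq.trans hp⟩
    · exact (lm_le hrr 0).trans (h 0).2
  have hF' : IsFam SX {q | q ∈ DD ∧ q ≤ p1} c C N' :=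
    ⟨fun p hp => hN'.add p hp.1, fun p hp => hN'.smul p hp.1, fun p hp => hN'.lower p hp.1,
      fun p hp => hN'.upper p hp.1, fun p hp q hq => hN'.coh p hp.1 q hq.1⟩
  obtain ⟨a', ha', r', hr', al', -, hal', hA'⟩ := thmA hD' hc hF'
  obtain ⟨p2, hp2, g', hg', n', hC'⟩ := thmC hD' hc hF' hr' ha' hal' (fun q hq hqr => (hA' q hq hqr).2)
  have hp21 : p2 ≤ p1 := hp2.trans hr'
  refine ⟨p2, hp21.trans hp10, ⟨a, al, g, n, ha, ?_, ?_, ?_, ?_⟩, ⟨a', al', g', n', ha', ?_, hg', ?_, ?_⟩⟩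
  · exact hal.trans_le (hp21.trans hp1).1
  · exact hg.trans_le hp21.1
  · exact fun q hq hqp x hx => (hA q hq (hqp.trans (hp21.trans hp1))).1 x hx
  · exact fun q hq hqp y hy hyB => hC q hq (hqp.trans hp21) y hy hyB
  · exact hal'.trans_le hp2.1
  · exact fun q hq hqp x hx => (hA' q ⟨hq, hqp.trans hp21⟩ (hqp.trans hp2)).1 x hx
  · exact fun q hq hqp y hy hyB => hC' q ⟨hq, hqp.trans hp21⟩ hqp y hy hyB

end Pool.Agent.JO
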