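import Pool.Agent.Lib.JO.Op

/-!
# Tails of `E_g(c)`, nesting of the subspaces `B` (L2.3, L2.4)

PROOFS.
`tail_mem`: put `u := R {w | t.J w ∈ M} (E t g c)`, so `u w = [J w ∈ M][w.g < g] ss (J w) * f w * c⟨g,..⟩`. Use `mem_B`.
 (1) `P tb b u w = 0`: for `b ≤ w.g`: `P_apply_ge`. Let `w.g < b`, `w' := ⟨b, nn (tb.J w), kk (tb.J w)⟩`,
 `φ := ss (tb.J w) * tb.f w`; `P tb b u w = u w - φ * u w'`. For `j ∈ M` the hypothesis (P tb b (t.y j) w = 0) says
 `t.y j w = φ * t.y j w'`, i.e. `[J w = j] f w = φ * [J w' = j] f w'`. Four cases: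
   J w ∈ M, J w' ∈ M, J w = J w': `f w = φ f w'` (j = J w), and `u w = φ * u w'` (same coefficient);
   J w ∈ M, J w' ∈ M, J w ≠ J w': j = J w gives `f w = 0`, j = J w' gives `0 = φ f w'`: both sides 0;
   J w ∈ M, J w' ∉ M: j = J w gives f w = 0;   J w ∉ M, J w' ∈ M: j = J w' gives 0 = φ f w';   neither: 0 = 0.
 (2) rows: `u ⟨b, m, k⟩ = 0` for `m < n`: if `j := J ⟨b,m,k⟩ ∈ M` then `f ⟨b,m,k⟩ = t.y j ⟨b,m,k⟩ = 0`.
`B_nest`: `p j := t.y j ∈ B (s b) b n` is eventual (`ht.ev`), `ev_nn` gives m with `m ≤ nn j → p j`. Let `x ∈ B t g m`, `M := {j | p j}`.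
 `E t g x = R {w | t.J w ∈ M} (E t g x)`: for `J w ∉ M`: `nn (J w) < m`, so `x ⟨g, nn (J w), _⟩ = 0` and `E t g x w = 0` (or w.g ≥ g).
 So `E t g x ∈ B (s b) b n` by `tail_mem`; `x` and `E t g x` agree on `{w | w.g ≤ b}` (`B_apply_lt`): `B_congr`.
`B_nest_all`: all finitely many pairs below the stage g.
`B_pairs`: induction on the finset. Empty: b = ⊥. Insert (b', n') to (b, n): if b = b': max of n's, `B_anti`. If b < b' < g: `B_nest` at
 the stage b' (`hs b' _`) gives m with `B (s b') b' m ≤ B (s b) b n`; take (b', max m n'). If b' < b: symmetric.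
-/

set_option autoImplicit false

open Set Filter Topology

namespace Pool.Agent.JO

variable {W : Type} [LinearOrder W]

theorem tail_mem {t tb : Stg W} {g b : W} {n : ℕ} (hb : b < g) (M : Set ℕ)
    (hM : ∀ j ∈ M, t.y j ∈ B tb b n) (c : F W) : R {w | t.J w ∈ M} (E t g c) ∈ B tb b n := by
  set u := R {w | t.J w ∈ M} (E t g c) with hu
  have hu1 : ∀ w, t.J w ∈ M → w.g < g →
      u w = ss (t.J w) * t.f w * c ⟨g, nn (t.J w), kk (t.J w)⟩ := by
    intro w hw hg
    rw [hu, R_mem (S := {w | t.J w ∈ M}) hw, E_apply_lt hg]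
  have hu0 : ∀ w, t.J w ∉ M → u w = 0 := fun w hw => R_not_mem (S := {w | t.J w ∈ M}) hw _
  refine ⟨?_, ?_⟩
  · ext w
    rcases lt_or_ge w.g b with hw | hw
    · rw [P_apply_lt hw, E_apply_lt hw]
      set w' : Om W := ⟨b, nn (tb.J w), kk (tb.J w)⟩ with hw'
      set φ := ss (tb.J w) * tb.f w with hφ
      have key : ∀ j ∈ M, t.y j w = φ * t.y j w' := by
        intro j hj
        have h1 := congrArg (fun z : F W => z w) (hM j hj).1
        simp only [P_apply_lt hw, E_apply_lt hw] at h1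
        exact sub_eq_zero.1 h1
      show u w - φ * u w' = 0
      by_cases h1 : t.J w ∈ M <;> by_cases h2 : t.J w' ∈ M
      · have hk1 := key _ h1
        have hk2 := key _ h2
        rw [hu1 w h1 (hw.trans hb), hu1 w' h2 hb]
        rw [y_apply_pos rfl] at hk1
        rw [y_apply_pos (t := t) (w := w') rfl] at hk2
        by_cases h3 : t.J w = t.J w'
        · rw [y_apply_pos h3.symm] at hk1
          rw [h3, hk1]
          ring
        · rw [y_apply_neg (fun h => h3 h.symm)] at hk1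
          rw [y_apply_neg h3] at hk2
          rw [hk1]
          linear_combination (ss (t.J w') * c ⟨g, nn (t.J w'), kk (t.J w')⟩) * hk2
      · have hk1 := key _ h1
        rw [y_apply_pos rfl, y_apply_neg (fun h => h2 (h ▸ h1))] at hk1
        rw [hu1 w h1 (hw.trans hb), hu0 w' h2, hk1]
        ring
      · have hk2 := key _ h2
        rw [y_apply_neg (fun h => h1 (h ▸ h2)), y_apply_pos rfl] at hk2
        rw [hu0 w h1, hu1 w' h2 hb]
        linear_combination (ss (t.J w') * c ⟨g, nn (t.J w'), kk (t.J w')⟩) * hk2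
      · rw [hu0 w h1, hu0 w' h2]
        ring
    · rw [P_apply_ge hw]
      rfl
  · intro m hm k
    by_cases h1 : t.J ⟨b, m, k⟩ ∈ M
    · have h2 := (hM _ h1).2 m hm k
      rw [y_apply_pos rfl] at h2
      rw [hu1 _ h1 hb, h2]
      ring
    · exact hu0 _ h1

variable [OrderBot W] {s : W → Stg W}

theorem B_nest {t : Stg W} {g b : W} (ht : Gd s g t) (hb : b < g) (n : ℕ) :
    ∃ m, B t g m ≤ B (s b) b n := by
  obtain ⟨m, hm⟩ := ev_nn (ht.ev b hb n)
  refine ⟨m, fun x hx => ?_⟩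
  have h1 := tail_mem hb {j | t.y j ∈ B (s b) b n} (fun j hj => hj) x
  rw [R_eq_self] at h1
  · refine B_congr (fun w hw => ?_) h1
    exact (B_apply_lt hx (hw.trans_lt hb)).symm
  · intro w hw
    rcases lt_or_ge w.g g with hg | hg
    · have h2 : nn (t.J w) < m := by
        by_contra h3
        exact hw (hm _ (not_lt.1 h3))
      rw [E_apply_lt hg, hx.2 _ h2, mul_zero]
    · exact E_apply_ge hg

theorem B_nest_all {t : Stg W} {g : W} (ht : Gd s g t) (G : Finset (W × ℕ)) (hG : ∀ p ∈ G, p.1 < g) :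
    ∃ m, ∀ p ∈ G, B t g m ≤ B (s p.1) p.1 p.2 := by
  have h : ∀ p : W × ℕ, ∃ m, p ∈ G → B t g m ≤ B (s p.1) p.1 p.2 := by
    intro p
    by_cases hp : p ∈ G
    · obtain ⟨m, hm⟩ := B_nest ht (hG p hp) p.2
      exact ⟨m, fun _ => hm⟩
    · exact ⟨0, fun h => absurd h hp⟩
  choose m hm using h
  exact ⟨G.sup m, fun p hp => (B_anti (Finset.le_sup hp)).trans (hm p hp)⟩

theorem B_pairs {g : W} (hs : Sys s g) (hg : ⊥ < g) (G : Finset (W × ℕ)) (hG : ∀ p ∈ G, p.1 < g) :
    ∃ b < g, ∃ n, ∀ p ∈ G, B (s b) b n ≤ B (s p.1) p.1 p.2 := by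
  classical
  induction G using Finset.induction_on with
  | empty => exact ⟨⊥, hg, 0, fun p hp => absurd hp (Finset.notMem_empty p)⟩
  | insert p G hp ih =>
    obtain ⟨b, hb, n, h⟩ := ih fun q hq => hG q (Finset.mem_insert_of_mem hq)
    have hpg := hG p (Finset.mem_insert_self p G)
    rcases lt_trichotomy b p.1 with hlt | heq | hgt
    · obtain ⟨m, hm⟩ := B_nest (hs p.1 hpg) hlt n
      refine ⟨p.1, hpg, max m p.2, fun q hq => ?_⟩
      rcases Finset.mem_insert.1 hq with rfl | hq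
      · exact B_anti (le_max_right _ _)
      · exact (B_anti (le_max_left _ _)).trans (hm.trans (h q hq))
    · refine ⟨b, hb, max n p.2, fun q hq => ?_⟩
      rcases Finset.mem_insert.1 hq with rfl | hq
      · rw [heq]
        exact B_anti (le_max_right _ _)
      · exact (B_anti (le_max_left _ _)).trans (h q hq)
    · obtain ⟨m, hm⟩ := B_nest (hs b hb) hgt p.2
      refine ⟨b, hb, max n m, fun q hq => ?_⟩
      rcases Finset.mem_insert.1 hq with rfl | hq
      · exact (B_anti (le_max_right _ _)).trans hm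
      · exact (B_anti (le_max_left _ _)).trans (h q hq)

end Pool.Agent.JO
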