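import Pool.Agent.Lib.JO.ThD
import Pool.Agent.Lib.JO.Iso
import Pool.Agent.Lib.JO.Omx

/-!
# Transfer to `ℓ_∞(ℕ)` and Part I (section 7)

`rho x := (n ↦ x ⟨⊥, (unpair n).1, (unpair n).2⟩)`, a continuous linear map F W → L, isometric on every `X s h` (`norm_bot`: ‖rho x‖ = ‖R {w.g = ⊥} x‖ since unpair is surjective).
`S p := (SX p).map rho`. Closed: rho is isometric on the complete subspace SX p (`IsClosed` of the image of a complete set under an isometry). Separable: image. mono: `X_sub`. lim_le: `lm_le`. lim_S: image of `lm_closure` under the continuous map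
 (`image_closure_subset_closure_image`). ext: `room_X`: q, x ∈ D q.s q.d ≤ SX q; for z = rho z', z' ∈ SX p ≤ SX q: ‖rho x - rho z'‖ = ‖rho (x - z')‖ = ‖x - z'‖ ≥ 1.
`MainProp` for S: given D, c, C, N, N' on L: put `N₀ p x := N p (rho x)`: IsFam SX D c C N₀ (‖rho x‖ = ‖x‖ for x ∈ SX p). `thmD`: q, T₀. `T r u := rho (T₀ r (the x ∈ SX r with rho x = u))` (choice; unique by isometry; same x for r' ≤ r). All properties transfer.
-/

set_option autoImplicit false

open Set Filter Topology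

namespace Pool.Agent.JO

section
variable {W : Type} [LinearOrder W] [WellFoundedLT W] [OrderBot W] [Om1 W]

noncomputable def rho : F W →L[ℝ] L :=
  LinearMap.mkContinuous
    { toFun := fun x => mk (fun n => x ⟨⊥, (Nat.unpair n).1, (Nat.unpair n).2⟩) ‖x‖ (fun _ => x.norm_coe_le_norm _)
      map_add' := fun x y => by ext n; rfl
      map_smul' := fun c x => by ext n; rfl }
    1 (fun x => by
      rw [one_mul]
      exact (BoundedContinuousFunction.norm_le (norm_nonneg _)).2 fun n => x.norm_coe_le_norm _)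

theorem rho_norm {s : W → Stg W} {d h : W} (hs : Sys s d) (hd : h ≤ d) {x : F W} (hx : x ∈ X s h) :
    ‖rho x‖ = ‖x‖ := by
  rw [← norm_bot hs hd hx]
  apply le_antisymm
  · refine (BoundedContinuousFunction.norm_le (norm_nonneg _)).2 fun n => ?_
    exact le_norm_R (S := {w : Om W | w.g = ⊥}) (w := ⟨⊥, (Nat.unpair n).1, (Nat.unpair n).2⟩) rfl x
  · refine norm_R_le_of (norm_nonneg _) fun w hw => ?_
    have h1 := (rho x).norm_coe_le_norm (Nat.pair w.n w.k)
    have h2 : rho x (Nat.pair w.n w.k) = x w := by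
      change x ⟨⊥, (Nat.unpair (Nat.pair w.n w.k)).1, (Nat.unpair (Nat.pair w.n w.k)).2⟩ = x w
      rw [Nat.unpair_pair]
      congr 1
      ext
      · exact (show w.g = ⊥ from hw).symm
      · rfl
      · rfl
    rw [h2] at h1
    exact h1

/-- the spaces in `ℓ_∞` -/
noncomputable def SL (p : Cond W) : Submodule ℝ L := (SX p).map (rho (W := W)).toLinearMap

private theorem Trf_norm {p : Cond W} {x : F W} (hx : x ∈ SX p) : ‖rho x‖ = ‖x‖ :=
  rho_norm p.gd le_rfl hx

private theorem Trf_inj {p : Cond W} {x y : F W} (hx : x ∈ SX p) (hy : y ∈ SX p)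
    (h : rho x = rho y) : x = y := by
  have h1 := Trf_norm (Submodule.sub_mem _ hx hy)
  rw [map_sub, h, sub_self, norm_zero] at h1
  exact sub_eq_zero.1 (norm_eq_zero.1 h1.symm)

omit [WellFoundedLT W] [Om1 W] in
private theorem Trf_mem {p : Cond W} {x : F W} (hx : x ∈ SX p) : rho x ∈ SL p := ⟨x, hx, rfl⟩

omit [WellFoundedLT W] [Om1 W] in
private theorem Trf_of_mem {p : Cond W} {u : L} (hu : u ∈ SL p) : ∃ x ∈ SX p, rho x = u := by
  obtain ⟨x, hx, h⟩ := hu
  exact ⟨x, hx, h⟩

theorem isSys : IsSys (SL : Cond W → Submodule ℝ L) lm := by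
  constructor
  · intro p q h
    exact Submodule.map_mono (X_sub h)
  · intro p
    have hcl : IsClosed ((SX p : Submodule ℝ (F W)) : Set (F W)) := X_closed p.s p.d
    have : CompleteSpace (SX p) := hcl.completeSpace_coe
    have hiso : Isometry (fun x : SX p => rho (x : F W)) := by
      refine Isometry.of_dist_eq (fun x y => ?_)
      rw [dist_eq_norm, ← map_sub, Trf_norm (p := p) (Submodule.sub_mem _ x.2 y.2), ← dist_eq_norm]
      rfl
    have e : (SL p : Set L) = Set.range (fun x : SX p => rho (x : F W)) := by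
      ext v
      constructor
      · rintro ⟨x, hx, rfl⟩
        exact ⟨⟨x, hx⟩, rfl⟩
      · rintro ⟨x, rfl⟩
        exact ⟨x, x.2, rfl⟩
    rw [e]
    exact hiso.isClosedEmbedding.isClosed_range
  · intro p
    have h1 := (X_sep p.gd (le_refl p.d)).image (rho (W := W)).continuous
    exact h1
  · intro r hr k
    exact lm_le hr k
  · intro r hr u hu
    obtain ⟨x, hx, rfl⟩ := Trf_of_mem hu
    have h1 := lm_closure hr hx
    have h2 : rho x ∈ closure ((rho (W := W)) '' (⋃ k, (X (r k).s (r k).d : Set (F W)))) :=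
      image_closure_subset_closure_image (rho (W := W)).continuous ⟨x, h1, rfl⟩
    refine closure_mono ?_ h2
    rintro _ ⟨y, hy, rfl⟩
    obtain ⟨k, hk⟩ := Set.mem_iUnion.1 hy
    exact Set.mem_iUnion.2 ⟨k, Trf_mem hk⟩
  · intro p
    obtain ⟨q, hq, -, x, hx, -, hxz⟩ := room_X p
    refine ⟨q, hq, rho x, Trf_mem (D_le_X _ hx), fun z hz => ?_⟩
    obtain ⟨z', hz', rfl⟩ := Trf_of_mem hz
    rw [← map_sub, Trf_norm (p := q) (Submodule.sub_mem _ (D_le_X _ hx) (X_sub hq hz'))]
    exact hxz z' hz'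

private theorem Trf_fam {D : Set (Cond W)} {c C : ℝ} {N : Cond W → L → ℝ}
    (hN : IsFam (SL : Cond W → Submodule ℝ L) D c C N) :
    IsFam (SX : Cond W → Submodule ℝ (F W)) D c C (fun p x => N p (rho x)) := by
  constructor
  · intro p hp x hx y hy
    rw [map_add]
    exact hN.add p hp _ (Trf_mem hx) _ (Trf_mem hy)
  · intro p hp t x hx
    rw [map_smul]
    exact hN.smul p hp t _ (Trf_mem hx)
  · intro p hp x hx
    have := hN.lower p hp _ (Trf_mem hx)
    rwa [Trf_norm hx] at this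
  · intro p hp x hx
    have := hN.upper p hp _ (Trf_mem hx)
    rwa [Trf_norm hx] at this
  · intro p hp q hq h x hx
    exact hN.coh p hp q hq h _ (Trf_mem hx)

open Classical in
private noncomputable def Trf_inv (r : Cond W) (u : L) : F W :=
  if h : ∃ x ∈ SX r, rho x = u then h.choose else 0

private theorem Trf_inv_rho {r : Cond W} {x : F W} (hx : x ∈ SX r) :
    Trf_inv r (rho x) = x := by
  have h : ∃ y ∈ SX r, rho y = rho x := ⟨x, hx, rfl⟩
  unfold Trf_inv
  rw [dif_pos h]
  exact Trf_inj h.choose_spec.1 hx h.choose_spec.2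

theorem mainSL : MainProp (SL : Cond W → Submodule ℝ L) lm 5184 := by
  intro p₀ D hD c C hc N N' hN hN'
  obtain ⟨q, hq, T₀, hT, hB⟩ := thmD p₀ D hD c C hc _ _ (Trf_fam hN) (Trf_fam hN')
  have key : ∀ (r : Cond W) (x : F W), x ∈ SX r →
      rho (T₀ r (Trf_inv r (rho x))) = rho (T₀ r x) := by
    intro r x hx
    rw [Trf_inv_rho hx]
  refine ⟨q, hq, fun r u => rho (T₀ r (Trf_inv r u)), ⟨?_, ?_, ?_, ?_, ?_, ?_⟩, ?_⟩
  · intro r hr hrq u hu
    obtain ⟨x, hx, rfl⟩ := Trf_of_mem hu
    rw [key r x hx]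
    exact Trf_mem (hT.maps r hr hrq x hx)
  · intro r hr hrq u hu v hv
    obtain ⟨x, hx, rfl⟩ := Trf_of_mem hu
    obtain ⟨y, hy, rfl⟩ := Trf_of_mem hv
    rw [← map_add, key r x hx, key r y hy, key r _ (Submodule.add_mem _ hx hy),
      hT.add r hr hrq x hx y hy, map_add]
  · intro r hr hrq t u hu
    obtain ⟨x, hx, rfl⟩ := Trf_of_mem hu
    rw [← map_smul, key r x hx, key r _ (Submodule.smul_mem _ t hx), hT.smul r hr hrq t x hx,
      map_smul]
  · intro r hr hrq u hu v hv h
    obtain ⟨x, hx, rfl⟩ := Trf_of_mem hu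
    obtain ⟨y, hy, rfl⟩ := Trf_of_mem hv
    rw [key r x hx, key r y hy] at h
    have h1 := Trf_inj (hT.maps r hr hrq x hx) (hT.maps r hr hrq y hy) h
    rw [hT.inj r hr hrq x hx y hy h1]
  · intro r hr hrq v hv
    obtain ⟨y, hy, rfl⟩ := Trf_of_mem hv
    obtain ⟨x, hx, h⟩ := hT.surj r hr hrq y hy
    exact ⟨rho x, Trf_mem hx, by rw [key r x hx, h]⟩
  · intro r hr hrq r' hr' hrr' u hu
    obtain ⟨x, hx, rfl⟩ := Trf_of_mem hu
    rw [key r x hx, key r' x (X_sub hrr' hx), hT.coh r hr hrq r' hr' hrr' x hx]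
  · intro r hr hrq u hu
    obtain ⟨x, hx, rfl⟩ := Trf_of_mem hu
    beta_reduce
    rw [key r x hx]
    exact hB r hr hrq x hx

end

/-- **Part I** -/
theorem partI : PartI 5184 := by
  obtain ⟨W, _, _, _, _⟩ := exists_Om1
  exact ⟨Cond W, inferInstance, nonempty_Cond, SL, lm, isSys, mainSL⟩

end Pool.Agent.JO
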